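import Pool.Agent.Lib.helper57.PNT

set_option autoImplicit false

open Set Filter Topology Complex Asymptotics

namespace Pool.Agent.Lib.helper22.PIT

lemma logderiv_tendsto {f : ℂ → ℂ} {s0 : ℂ} (hf : AnalyticAt ℂ f s0)
    (h : ¬ ∀ᶠ z in 𝓝 s0, f z = 0) :
    ∃ k : ℕ, (k = 0 → f s0 ≠ 0) ∧ (f s0 ≠ 0 → k = 0) ∧ (∀ᶠ z in 𝓝[≠] s0, f z ≠ 0) ∧
      Tendsto (fun z => (z - s0) * (deriv f z / f z)) (𝓝[≠] s0) (𝓝 k) := by
  obtain ⟨k, g, hg, hg0, hfg⟩ := hf.exists_eventuallyEq_pow_smul_nonzero_iff.mpr h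
  have h0 := hfg.self_of_nhds
  have hgne : ∀ᶠ z in 𝓝 s0, g z ≠ 0 := hg.continuousAt.eventually_ne hg0
  refine ⟨k, fun hk => ?_, fun hf0 => ?_, ?_, ?_⟩
  · rw [h0, hk]; simpa using hg0
  · by_contra hk
    apply hf0
    rw [h0, sub_self, zero_pow hk, zero_smul]
  · filter_upwards [nhdsWithin_le_nhds hfg, nhdsWithin_le_nhds hgne, self_mem_nhdsWithin]
      with z h1 h2 h3
    rw [h1]
    exact smul_ne_zero (pow_ne_zero _ (sub_ne_zero.mpr h3)) h2
  · have h1 : Tendsto (fun z => (k : ℂ) + (z - s0) * (deriv g z / g z)) (𝓝 s0)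
        (𝓝 ((k : ℂ) + (s0 - s0) * (deriv g s0 / g s0))) := by
      refine tendsto_const_nhds.add (Tendsto.mul (tendsto_id.sub tendsto_const_nhds) ?_)
      exact hg.deriv.continuousAt.tendsto.div hg.continuousAt.tendsto hg0
    rw [sub_self, zero_mul, add_zero] at h1
    refine (h1.mono_left nhdsWithin_le_nhds).congr' ?_
    filter_upwards [nhdsWithin_le_nhds hfg.eventually_nhds, nhdsWithin_le_nhds hgne,
      nhdsWithin_le_nhds hg.eventually_analyticAt, self_mem_nhdsWithin] with z h1 h2 h3 h4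
    have hz : z - s0 ≠ 0 := sub_ne_zero.mpr h4
    have h5 : HasDerivAt (fun z => (z - s0) ^ k • g z)
        ((k : ℂ) * (z - s0) ^ (k - 1) * g z + (z - s0) ^ k * deriv g z) z := by
      have := (((hasDerivAt_id z).sub_const s0).pow k).mul h3.differentiableAt.hasDerivAt
      refine (this.congr_deriv ?_ :)
      simp
    have h6 : deriv f z = (k : ℂ) * (z - s0) ^ (k - 1) * g z + (z - s0) ^ k * deriv g z := by
      rw [← h5.deriv]; exact Filter.EventuallyEq.deriv_eq h1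
    rw [h6, h1.self_of_nhds, smul_eq_mul]
    rcases k with _ | k
    · simp
    · simp only [Nat.add_sub_cancel, pow_succ]
      field_simp

lemma three_four_one (Λ : ℕ → ℝ) (hΛ : ∀ n, 0 ≤ Λ n)
    (hsum : ∀ s : ℂ, 1 < s.re → LSeriesSummable (fun n => (Λ n : ℂ)) s) (x t : ℝ) (hx : 0 < x) :
    0 ≤ (3 * LSeries (fun n => (Λ n : ℂ)) (1 + x) + 4 * LSeries (fun n => (Λ n : ℂ)) (1 + t * I + x)
      + LSeries (fun n => (Λ n : ℂ)) (1 + 2 * t * I + x)).re := by
  have h0 := (hsum (1 + x) (by simpa using hx)).hasSum.mul_left 3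
  have h1 := (hsum (1 + t * I + x) (by simpa using hx)).hasSum.mul_left 4
  have h2 := (hsum (1 + 2 * t * I + x) (by simpa using hx)).hasSum
  have h := hasSum_re ((h0.add h1).add h2)
  refine h.nonneg fun n => ?_
  rcases eq_or_ne n 0 with rfl | hn
  · simp
  have hn' : (n : ℂ) ≠ 0 := Nat.cast_ne_zero.mpr hn
  have hnp : (0 : ℝ) < n := Nat.cast_pos.mpr (Nat.pos_of_ne_zero hn)
  simp only [LSeries.term_of_ne_zero hn]
  set w : ℂ := ((n : ℂ) ^ (t * I : ℂ))⁻¹ with hw
  have hw1 : ‖w‖ = 1 := by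
    rw [hw, norm_inv, ← ofReal_natCast, norm_cpow_eq_rpow_re_of_pos hnp]; simp
  have e1 : (n : ℂ) ^ (1 + t * I + x : ℂ) = (n : ℂ) ^ (1 + x : ℂ) * (n : ℂ) ^ (t * I : ℂ) := by
    rw [← cpow_add _ _ hn']; congr 1; ring
  have e2 : (n : ℂ) ^ (1 + 2 * t * I + x : ℂ)
      = (n : ℂ) ^ (1 + x : ℂ) * (n : ℂ) ^ (t * I : ℂ) * (n : ℂ) ^ (t * I : ℂ) := by
    rw [← cpow_add _ _ hn', ← cpow_add _ _ hn']; congr 1; ring
  have e3 : (n : ℂ) ^ (1 + x : ℂ) = (((n : ℝ) ^ (1 + x) : ℝ) : ℂ) := by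
    rw [ofReal_cpow hnp.le]; simp
  have e4 : 3 * ((Λ n : ℂ) / (n : ℂ) ^ (1 + x : ℂ)) + 4 * ((Λ n : ℂ) / (n : ℂ) ^ (1 + t * I + x : ℂ))
      + (Λ n : ℂ) / (n : ℂ) ^ (1 + 2 * t * I + x : ℂ)
      = ((Λ n / (n : ℝ) ^ (1 + x) : ℝ) : ℂ) * (3 + 4 * w + w * w) := by
    rw [e1, e2, ofReal_div, ← e3, hw]
    simp only [div_eq_mul_inv, mul_inv]
    ring
  rw [e4, re_ofReal_mul]
  refine mul_nonneg (div_nonneg (hΛ n) (Real.rpow_nonneg hnp.le _)) ?_
  have h5 : w.re ^ 2 + w.im ^ 2 = 1 := by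
    have := Complex.sq_norm w
    rw [hw1, normSq_apply] at this
    nlinarith
  simp only [add_re, mul_re, re_ofNat, im_ofNat]
  nlinarith [sq_nonneg (1 + w.re)]

/-- Landau's argument for a prime number theorem, in abstract form. -/
theorem landau (a Λ : ℕ → ℝ) (hΛ : ∀ n, 0 ≤ Λ n) (C : ℝ)
    (hC : ∀ n : ℕ, ∑ k ∈ Finset.Icc 1 n, Λ k ≤ C * n)
    (hsum : ∀ s : ℂ, 1 < s.re → LSeriesSummable (fun n => (a n : ℂ)) s)
    (hconv : ∀ n : ℕ, n ≠ 0 → Real.log n * a n = ∑ p ∈ n.divisorsAntidiagonal, Λ p.1 * a p.2)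
    (θ : ℝ) (hθ : θ < 1) (H : ℂ → ℂ) (hH : DifferentiableOn ℂ H {s | θ < s.re})
    (hHe : ∀ s : ℂ, 1 < s.re → H s = (s - 1) * LSeries (fun n => (a n : ℂ)) s) (hH1 : H 1 ≠ 0) :
    Tendsto (fun x : ℝ => (∑ k ∈ Finset.Icc 1 ⌊x⌋₊, Λ k) / x) atTop (𝓝 1) := by
  have hO : (fun n : ℕ => ∑ k ∈ Finset.Icc 1 n, Λ k) =O[atTop] fun n : ℕ => (n : ℝ) ^ (1 : ℝ) := by
    refine Asymptotics.IsBigO.of_bound C (Eventually.of_forall fun n => ?_)
    rw [Real.rpow_one, Real.norm_eq_abs, Real.norm_eq_abs,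
      abs_of_nonneg (Finset.sum_nonneg (fun k _ => hΛ k)), abs_of_nonneg (Nat.cast_nonneg n)]
    exact hC n
  have hsΛ : ∀ s : ℂ, 1 < s.re → LSeriesSummable (fun n => (Λ n : ℂ)) s := fun s hs =>
    LSeriesSummable_of_sum_norm_bigO_and_nonneg hO hΛ zero_le_one hs
  have hab : ∀ (b : ℕ → ℂ), (∀ s : ℂ, 1 < s.re → LSeriesSummable b s) → ∀ s : ℂ, 1 < s.re →
      LSeries.abscissaOfAbsConv b < s.re := by
    intro b hb s hs
    have h1 : LSeries.abscissaOfAbsConv b ≤ (1 : ℝ) :=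
      LSeries.abscissaOfAbsConv_le_of_forall_lt_LSeriesSummable fun y hy => hb y (by simpa using hy)
    exact h1.trans_lt (by exact_mod_cast hs)
  set ζ := LSeries (fun n => (a n : ℂ)) with hζ
  set L := LSeries (fun n => (Λ n : ℂ)) with hL
  have hζd : ∀ s : ℂ, 1 < s.re → HasDerivAt ζ (-(L s * ζ s)) s := by
    intro s hs
    have h1 := LSeries_hasDerivAt (hab _ hsum s hs)
    rw [← LSeries_convolution' (hsΛ s hs) (hsum s hs)]
    convert h1 using 2
    refine LSeries_congr (fun {n} hn => ?_) s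
    rw [LSeries.convolution_def, LSeries.logMul, ← natCast_log, ← ofReal_mul, hconv n hn]
    push_cast
    rfl
  have hopen : IsOpen {s : ℂ | θ < s.re} := isOpen_lt continuous_const continuous_re
  have hopen1 : IsOpen {s : ℂ | 1 < s.re} := isOpen_lt continuous_const continuous_re
  have hHa : AnalyticOnNhd ℂ H {s | θ < s.re} := hH.analyticOnNhd hopen
  have hne1 : ∀ s : ℂ, 1 < s.re → s - 1 ≠ 0 := by
    intro s hs h; rw [sub_eq_zero] at h; rw [h] at hs; simp at hs
  have hlog : ∀ s : ℂ, 1 < s.re → H s ≠ 0 → deriv H s / H s = 1 / (s - 1) - L s := by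
    intro s hs h0
    have h1 : H =ᶠ[𝓝 s] fun z => (z - 1) * ζ z := by
      filter_upwards [hopen1.mem_nhds hs] with z hz using hHe z hz
    have h2 := ((hasDerivAt_id s).sub_const 1).mul (hζd s hs)
    have h3 : deriv H s = 1 * ζ s + (s - 1) * -(L s * ζ s) := by
      rw [h1.deriv_eq]; exact h2.deriv
    rw [hHe s hs] at h0 ⊢
    have h4 := hne1 s hs
    have h5 : ζ s ≠ 0 := right_ne_zero_of_mul h0
    rw [h3]
    field_simp
    ring
  have hnz : ∀ s : ℂ, θ < s.re → ¬ ∀ᶠ z in 𝓝 s, H z = 0 := by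
    intro s hs h
    have := hHa.eqOn_zero_of_preconnected_of_eventuallyEq_zero
      (convex_halfSpace_re_gt θ).isPreconnected hs h
    exact hH1 (this (show θ < (1 : ℂ).re by simpa using hθ))
  -- behaviour of `L` along horizontal rays
  have hray : ∀ s : ℂ, s.re = 1 → ∃ k : ℕ, (k = 0 → H s ≠ 0) ∧ (H s ≠ 0 → k = 0) ∧
      Tendsto (fun x : ℝ => (x : ℂ) / (s + x - 1) - x * L (s + x)) (𝓝[>] 0) (𝓝 k) := by
    intro s hs
    obtain ⟨k, h1, h2, h3, h4⟩ := logderiv_tendsto (hHa s (show θ < s.re by rwa [hs]))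
      (hnz s (by rwa [hs]))
    have ht : Tendsto (fun x : ℝ => s + x) (𝓝[>] 0) (𝓝[≠] s) := by
      refine tendsto_nhdsWithin_of_tendsto_nhds_of_eventually_within _ ?_ ?_
      · have : Continuous (fun x : ℝ => s + x) := by fun_prop
        simpa using (this.tendsto 0).mono_left nhdsWithin_le_nhds
      · filter_upwards [self_mem_nhdsWithin] with x hx
        simpa using ne_of_gt hx
    refine ⟨k, h1, h2, (h4.comp ht).congr' ?_⟩
    filter_upwards [ht.eventually h3, self_mem_nhdsWithin] with x hx hx0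
    have hre : 1 < (s + x).re := by simpa [hs] using hx0
    simp only [Function.comp]
    rw [hlog _ hre hx]
    ring
  have hHne : ∀ s : ℂ, 1 ≤ s.re → H s ≠ 0 := by
    intro s hs
    rcases hs.lt_or_eq with hs | hs
    · obtain ⟨k, h1, -, h3, h4⟩ := logderiv_tendsto (hHa s (show θ < s.re by linarith))
        (hnz s (by linarith))
      apply h1
      have h5 : Tendsto (fun z => (z - s) * (1 / (z - 1) - L z)) (𝓝 s)
          (𝓝 ((s - s) * (1 / (s - 1) - L s))) := by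
        refine (tendsto_id.sub tendsto_const_nhds).mul (Tendsto.sub ?_ ?_)
        · exact tendsto_const_nhds.div (tendsto_id.sub tendsto_const_nhds) (hne1 s hs)
        · exact (LSeries_hasDerivAt (hab _ hsΛ s hs)).continuousAt.tendsto
      rw [sub_self, zero_mul] at h5
      have h6 : Tendsto (fun z => (z - s) * (deriv H z / H z)) (𝓝[≠] s) (𝓝 0) := by
        refine (h5.mono_left nhdsWithin_le_nhds).congr' ?_
        filter_upwards [h3, nhdsWithin_le_nhds (hopen1.mem_nhds hs)] with z hz hz1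
        rw [hlog z hz1 hz]
      exact_mod_cast tendsto_nhds_unique h4 h6
    · by_cases hs1 : s = 1
      · rwa [hs1]
      set t := s.im with ht
      have hst : s = 1 + t * I := by
        apply Complex.ext <;> simp [← hs, ht]
      have ht0 : t ≠ 0 := by
        intro h; apply hs1; rw [hst, h]; simp
      obtain ⟨k0, -, h02, h03⟩ := hray 1 (by simp)
      obtain ⟨k1, h11, -, h13⟩ := hray (1 + t * I) (by simp)
      obtain ⟨k2, -, -, h23⟩ := hray (1 + 2 * t * I) (by simp)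
      rw [h02 hH1] at h03
      rw [hst]
      apply h11
      have hq : ∀ u : ℝ, u ≠ 0 → Tendsto (fun x : ℝ => (x : ℂ) / (1 + u * I + x - 1)) (𝓝[>] 0)
          (𝓝 0) := by
        intro u hu
        have h1 : ContinuousAt (fun x : ℝ => (x : ℂ) / (1 + u * I + x - 1)) 0 := by
          refine ContinuousAt.div (by fun_prop) (by fun_prop) ?_
          simpa using hu
        simpa using h1.tendsto.mono_left nhdsWithin_le_nhds
      have g0 : Tendsto (fun x : ℝ => (x : ℂ) * L (1 + x)) (𝓝[>] 0) (𝓝 1) := by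
        have := (tendsto_const_nhds (x := (1 : ℂ))).sub h03
        simp only [Nat.cast_zero, sub_zero] at this
        refine this.congr' ?_
        filter_upwards [self_mem_nhdsWithin] with x hx
        have : (x : ℂ) ≠ 0 := ofReal_ne_zero.mpr (ne_of_gt hx)
        rw [add_sub_cancel_left, div_self this]; ring
      have g1 : Tendsto (fun x : ℝ => (x : ℂ) * L (1 + t * I + x)) (𝓝[>] 0) (𝓝 (0 - k1)) :=
        ((hq t ht0).sub h13).congr fun x => by ring
      have g2 : Tendsto (fun x : ℝ => (x : ℂ) * L (1 + 2 * t * I + x)) (𝓝[>] 0) (𝓝 (0 - k2)) := by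
        have := hq (2 * t) (mul_ne_zero two_ne_zero ht0)
        push_cast at this
        exact (this.sub h23).congr fun x => by ring
      have g := (continuous_re.tendsto _).comp (((g0.const_mul 3).add (g1.const_mul 4)).add g2)
      have hge := ge_of_tendsto g (b := 0) (by
        filter_upwards [self_mem_nhdsWithin] with x hx
        have h1 := mul_nonneg (le_of_lt hx) (three_four_one Λ hΛ hsΛ x t hx)
        rw [← re_ofReal_mul] at h1
        simp only [Function.comp]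
        convert h1 using 2
        ring)
      simp at hge
      have hk2 : (0 : ℝ) ≤ k2 := Nat.cast_nonneg _
      have : (k1 : ℝ) < 1 := by linarith
      exact Nat.lt_one_iff.mp (by exact_mod_cast this)
  refine helper57.wiener_ikehara Λ hΛ C hC 1 (fun s => -(deriv H s / H s)) ?_ fun s hs => ?_
  · have hsub : {s : ℂ | 1 ≤ s.re} ⊆ {s | θ < s.re} := fun s hs => hθ.trans_le hs
    exact ((hHa.deriv.continuousOn.mono hsub).div (hHa.continuousOn.mono hsub) hHne).neg
  · rw [hlog s hs (hHne s hs.le)]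
    simp [hL]

end Pool.Agent.Lib.helper22.PIT
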