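import Pool.Agent.Lib.helper22.ZetaExt
import Pool.Agent.Lib.helper22.Landau

set_option autoImplicit false

open Filter Topology NumberField Ideal UniqueFactorizationMonoid Asymptotics
open scoped nonZeroDivisors

namespace Pool.Agent.Lib.helper22.PIT

variable (K : Type*) [Field K] [NumberField K]

/-- ideals of norm `n` -/
noncomputable def idN (n : ℕ) : Finset (Ideal (𝓞 K)) := (finite_setOfPred_absNorm_eq n).toFinset

open scoped Classical in
/-- nonzero primes of norm at most `n` -/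
noncomputable def prLe (n : ℕ) : Finset (Ideal (𝓞 K)) :=
  (finite_setOfPred_absNorm_le n).toFinset.filter fun P => P.IsPrime ∧ P ≠ ⊥

lemma mem_idN {n : ℕ} {I : Ideal (𝓞 K)} : I ∈ idN K n ↔ absNorm I = n := by simp [idN]

lemma mem_prLe {n : ℕ} {P : Ideal (𝓞 K)} :
    P ∈ prLe K n ↔ absNorm P ≤ n ∧ P.IsPrime ∧ P ≠ ⊥ := by simp [prLe]

lemma aK_eq (n : ℕ) : aK K n = (idN K n).card := by
  rw [aK, idN, ← Nat.card_eq_card_finite_toFinset]; rfl

variable {K} in
lemma two_le_absNorm {P : Ideal (𝓞 K)} (hP : P.IsPrime) (h0 : P ≠ ⊥) : 2 ≤ absNorm P := by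
  have h1 : absNorm P ≠ 0 := by rwa [Ne, absNorm_eq_zero_iff]
  have h2 : absNorm P ≠ 1 := by rw [Ne, absNorm_eq_one_iff]; exact hP.ne_top
  omega

/-- pairs (prime, exponent) with norm `d` -/
noncomputable def ppN (d : ℕ) : Finset (Ideal (𝓞 K) × ℕ) :=
  (prLe K d ×ˢ Finset.Icc 1 d).filter fun x => absNorm x.1 ^ x.2 = d

lemma mem_ppN {d : ℕ} {x : Ideal (𝓞 K) × ℕ} :
    x ∈ ppN K d ↔ x.1.IsPrime ∧ x.1 ≠ ⊥ ∧ 1 ≤ x.2 ∧ absNorm x.1 ^ x.2 = d := by
  simp only [ppN, Finset.mem_filter, Finset.mem_product, mem_prLe, Finset.mem_Icc]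
  constructor
  · tauto
  · rintro ⟨h1, h2, h3, h4⟩
    have h5 := two_le_absNorm h1 h2
    refine ⟨⟨⟨?_, h1, h2⟩, h3, ?_⟩, h4⟩
    · rw [← h4]; exact Nat.le_self_pow (by omega) _
    · rw [← h4]; exact (Nat.lt_pow_self (by omega)).le

/-- von Mangoldt function of a number field -/
noncomputable def LamK (d : ℕ) : ℝ := ∑ x ∈ ppN K d, Real.log (absNorm x.1)

lemma LamK_nonneg (d : ℕ) : 0 ≤ LamK K d :=
  Finset.sum_nonneg fun _ _ => Real.log_natCast_nonneg _

open scoped Classical in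
lemma log_absNorm_eq {n : ℕ} (hn : n ≠ 0) {I : Ideal (𝓞 K)} (hI : absNorm I = n) :
    Real.log n = ∑ x ∈ (prLe K n ×ˢ Finset.Icc 1 n).filter (fun x => x.1 ^ x.2 ∣ I),
      Real.log (absNorm x.1) := by
  have hI0 : I ≠ ⊥ := by rintro rfl; rw [absNorm_bot] at hI; exact hn hI.symm
  rw [Finset.sum_filter, Finset.sum_product]
  have h1 : ∀ P ∈ prLe K n, (∑ k ∈ Finset.Icc 1 n, if P ^ k ∣ I then Real.log (absNorm P) else 0)
      = (normalizedFactors I).count P * Real.log (absNorm P) := by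
    intro P hP
    obtain ⟨-, hP1, hP2⟩ := (mem_prLe K).mp hP
    have hirr : Irreducible P := (Ideal.prime_of_isPrime hP2 hP1).irreducible
    have hiff : ∀ k, P ^ k ∣ I ↔ k ≤ (normalizedFactors I).count P := by
      intro k
      rw [pow_dvd_iff_le_emultiplicity, emultiplicity_eq_count_normalizedFactors hirr hI0,
        normalize_eq, Nat.cast_le]
    have hle : (normalizedFactors I).count P ≤ n := by
      have h2 := map_dvd absNorm ((hiff _).mpr le_rfl)
      rw [map_pow, hI] at h2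
      have h3 := Nat.le_of_dvd (Nat.pos_of_ne_zero hn) h2
      have h4 := two_le_absNorm hP1 hP2
      exact (Nat.lt_pow_self (by omega)).le.trans h3
    rw [← Finset.sum_filter, Finset.sum_const, nsmul_eq_mul]
    congr 2
    have : (Finset.Icc 1 n).filter (fun k => P ^ k ∣ I)
        = Finset.Icc 1 ((normalizedFactors I).count P) := by
      ext k
      simp only [Finset.mem_filter, Finset.mem_Icc, hiff]
      omega
    rw [this]; simp
  rw [Finset.sum_congr rfl h1]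
  have hsub : (normalizedFactors I).toFinset ⊆ prLe K n := by
    intro P hP
    rw [Multiset.mem_toFinset, Ideal.mem_normalizedFactors_iff hI0] at hP
    refine (mem_prLe K).mpr ⟨?_, hP.1, ne_bot_of_le_ne_bot hI0 hP.2⟩
    rw [← hI]
    exact Nat.le_of_dvd (by rw [hI]; exact Nat.pos_of_ne_zero hn) (absNorm_dvd_absNorm_of_le hP.2)
  rw [← Finset.sum_subset hsub (fun P _ hP => by
    rw [Multiset.mem_toFinset] at hP
    rw [Multiset.count_eq_zero_of_notMem hP]; simp)]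
  conv_lhs => rw [← hI, ← Ideal.prod_normalizedFactors_eq_self hI0,
    Finset.prod_multiset_count, map_prod, Nat.cast_prod]
  rw [Real.log_prod]
  · simp
  · intro P hP
    obtain ⟨-, hP1, hP2⟩ := (mem_prLe K).mp (hsub hP)
    have := two_le_absNorm hP1 hP2
    rw [map_pow]
    positivity

lemma LamK_conv (n : ℕ) (hn : n ≠ 0) :
    Real.log n * aK K n = ∑ p ∈ n.divisorsAntidiagonal, LamK K p.1 * aK K p.2 := by
  classical
  have h1 : Real.log n * aK K n = ∑ I ∈ idN K n, ∑ x ∈ (prLe K n ×ˢ Finset.Icc 1 n).filter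
      (fun x => x.1 ^ x.2 ∣ I), Real.log (absNorm x.1) := by
    rw [← Finset.sum_congr rfl fun I hI => log_absNorm_eq K hn ((mem_idN K).mp hI),
      Finset.sum_const, nsmul_eq_mul, aK_eq, mul_comm]
  have h2 : ∀ p : ℕ × ℕ, LamK K p.1 * aK K p.2
      = ∑ y ∈ ppN K p.1 ×ˢ idN K p.2, Real.log (absNorm y.1.1) := by
    intro p
    rw [Finset.sum_product, LamK, Finset.sum_mul]
    refine Finset.sum_congr rfl fun x _ => ?_
    simp only
    rw [Finset.sum_const, nsmul_eq_mul, aK_eq, mul_comm]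
  simp only [h2]
  rw [h1, Finset.sum_sigma', Finset.sum_sigma']
  symm
  refine Finset.sum_bij (fun y _ => ⟨y.2.1.1 ^ y.2.1.2 * y.2.2, y.2.1⟩) ?_ ?_ ?_ ?_
  · rintro ⟨⟨d, e⟩, ⟨P, k⟩, J⟩ hy
    simp only [Finset.mem_sigma, Nat.mem_divisorsAntidiagonal, Finset.mem_product, mem_ppN,
      mem_idN] at hy
    obtain ⟨⟨hde, -⟩, ⟨hP1, hP2, hk, hPk⟩, hJ⟩ := hy
    have h5 := two_le_absNorm hP1 hP2
    have hdn : d ≤ n := Nat.le_of_dvd (Nat.pos_of_ne_zero hn) ⟨e, hde.symm⟩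
    simp only [Finset.mem_sigma, mem_idN, Finset.mem_filter, Finset.mem_product, mem_prLe,
      Finset.mem_Icc, map_mul, map_pow]
    refine ⟨by rw [hPk, hJ, hde], ⟨⟨?_, hP1, hP2⟩, hk, ?_⟩, dvd_mul_right _ _⟩
    · exact (Nat.le_self_pow (by omega) _).trans (hPk.le.trans hdn)
    · exact (Nat.lt_pow_self (by omega)).le.trans (hPk.le.trans hdn)
  · rintro ⟨⟨d, e⟩, ⟨P, k⟩, J⟩ hy ⟨⟨d', e'⟩, ⟨P', k'⟩, J'⟩ hy' h
    simp only [Finset.mem_sigma, Nat.mem_divisorsAntidiagonal, Finset.mem_product, mem_ppN,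
      mem_idN] at hy hy'
    simp only [Sigma.mk.injEq, heq_eq_eq, Prod.mk.injEq] at h
    obtain ⟨h1, rfl, rfl⟩ := h
    have := mul_left_cancel₀ (pow_ne_zero k hy.2.1.2.1) h1
    subst this
    have hd : d = d' := hy.2.1.2.2.2.symm.trans hy'.2.1.2.2.2
    have he : e = e' := hy.2.2.symm.trans hy'.2.2
    subst hd he
    rfl
  · rintro ⟨I, P, k⟩ hx
    simp only [Finset.mem_sigma, mem_idN, Finset.mem_filter, Finset.mem_product, mem_prLe,
      Finset.mem_Icc] at hx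
    obtain ⟨hI, ⟨⟨-, hP1, hP2⟩, hk, -⟩, J, hJ⟩ := hx
    refine ⟨⟨(absNorm P ^ k, absNorm J), (P, k), J⟩, ?_, ?_⟩
    · simp only [Finset.mem_sigma, Nat.mem_divisorsAntidiagonal, Finset.mem_product, mem_ppN,
        mem_idN]
      refine ⟨⟨?_, hn⟩, ⟨hP1, hP2, hk, trivial⟩, trivial⟩
      rw [← hI, hJ, map_mul, map_pow]
    · simp [hJ]
  · intro y _
    rfl

open ArithmeticFunction in
lemma LamK_le (d : ℕ) : LamK K d ≤ Module.finrank ℤ (𝓞 K) * vonMangoldt d := by
  classical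
  rcases (ppN K d).eq_empty_or_nonempty with h | ⟨x0, hx0⟩
  · rw [LamK, h, Finset.sum_empty]
    exact mul_nonneg (Nat.cast_nonneg _) vonMangoldt_nonneg
  have key : ∀ x ∈ ppN K d, ((d.minFac : ℕ) : 𝓞 K) ∈ x.1 ∧ IsPrimePow d := by
    intro x hx
    obtain ⟨h1, h2, h3, h4⟩ := (mem_ppN K).mp hx
    have := h1.isMaximal h2
    obtain ⟨p, f, hf, hp1, hp2, hp3⟩ := exists_prime_and_absNorm_eq_pow x.1
    rw [hp3, ← pow_mul] at h4
    have hne : f * x.2 ≠ 0 := Nat.mul_ne_zero (by omega) (by omega)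
    rw [← h4, hp2.pow_minFac hne]
    exact ⟨hp1, hp2.isPrimePow.pow hne⟩
  rw [vonMangoldt_apply, if_pos (key x0 hx0).2, LamK]
  have hinj : Set.InjOn Prod.fst (ppN K d : Set (Ideal (𝓞 K) × ℕ)) := by
    rintro ⟨P, k⟩ hx ⟨P', k'⟩ hx' (rfl : P = P')
    obtain ⟨h1, h2, -, h4⟩ := (mem_ppN K).mp hx
    obtain ⟨-, -, -, h4'⟩ := (mem_ppN K).mp hx'
    have := Nat.pow_right_injective (two_le_absNorm h1 h2) (h4.trans h4'.symm)
    simp only at this
    rw [this]
  rw [← Finset.sum_image (f := fun P : Ideal (𝓞 K) => Real.log (absNorm P)) hinj]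
  have hs : ∀ P ∈ (ppN K d).image Prod.fst, P.IsPrime ∧ P ≠ ⊥ ∧ ((d.minFac : ℕ) : 𝓞 K) ∈ P := by
    intro P hP
    obtain ⟨x, hx, rfl⟩ := Finset.mem_image.mp hP
    exact ⟨((mem_ppN K).mp hx).1, ((mem_ppN K).mp hx).2.1, (key x hx).1⟩
  have hdvd := Finset.prod_primes_dvd (span {((d.minFac : ℕ) : 𝓞 K)})
    (fun P hP => Ideal.prime_of_isPrime (hs P hP).2.1 (hs P hP).1)
    (fun P hP => Ideal.dvd_span_singleton.mpr (hs P hP).2.2)
  have h2 := map_dvd absNorm hdvd
  rw [absNorm_span_natCast, map_prod] at h2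
  have h3 := Nat.le_of_dvd (pow_pos (Nat.minFac_pos d) _) h2
  rw [← Real.log_pow, ← Real.log_prod (fun P hP => by
    have := two_le_absNorm (hs P hP).1 (hs P hP).2.1
    positivity)]
  refine Real.log_le_log (Finset.prod_pos fun P hP => ?_) (by exact_mod_cast h3)
  have := two_le_absNorm (hs P hP).1 (hs P hP).2.1
  positivity

lemma summable_aK (s : ℂ) (hs : 1 < s.re) : LSeriesSummable (fun n => ((aK K n : ℝ) : ℂ)) s := by
  have h : ∃ l : ℝ, Tendsto (fun n : ℕ => (∑ k ∈ Finset.Icc 1 n, (aK K k : ℝ)) / n) atTop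
      (𝓝 l) := by
    refine ⟨_, ((Ideal.tendsto_norm_le_div_atTop₀ K).comp tendsto_natCast_atTop_atTop).congr
      fun n ↦ ?_⟩
    simp only [Function.comp_apply, Nat.cast_le, ← Nat.cast_sum, aK]
    congr
    rw [← add_left_inj 1, ← card_norm_le_eq_card_norm_le_add_one,
      show Finset.Icc 1 n = Finset.Ioc 0 n from Finset.Icc_succ_left_eq_Ioc _ _,
      show 1 = Nat.card {I : Ideal (𝓞 K) // absNorm I = 0} by simp [Ideal.absNorm_eq_zero_iff],
      Finset.sum_Ioc_add_eq_sum_Icc (n.zero_le),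
      ← Finset.card_preimage_eq_sum_card_image_eq (fun k _ ↦ finite_setOfPred_absNorm_eq k)]
    simp [Set.coe_eq_subtype]
  obtain ⟨l, hl⟩ := h
  refine LSeriesSummable_of_sum_norm_bigO_and_nonneg (r := 1) ?_ (fun _ => Nat.cast_nonneg _)
    zero_le_one hs
  simp only [Real.rpow_one]
  exact isBigO_atTop_natCast_rpow_of_tendsto_div_rpow (r := 1) (a := l) (by simpa using hl)
    |>.congr_right (by simp)

/-- The prime ideal theorem. -/
theorem prime_ideal_theorem :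
    Tendsto (fun x : ℝ => (∑ k ∈ Finset.Icc 1 ⌊x⌋₊, LamK K k) / x) atTop (𝓝 1) := by
  obtain ⟨c, C, θ, hθ, hZ⟩ := smooth_count K
  obtain ⟨θ', hθ', H, hH, hHe⟩ := ext_of_smooth (fun n => (aK K n : ℝ))
    (fun _ => Nat.cast_nonneg _) (summable_aK K) c C θ hθ hZ
  refine landau (fun n => (aK K n : ℝ)) (LamK K) (LamK_nonneg K)
    (Module.finrank ℤ (𝓞 K) * (Real.log 4 + 4)) (fun n => ?_) (summable_aK K) (LamK_conv K)
    θ' hθ' H hH hHe ?_
  · refine (Finset.sum_le_sum fun k _ => LamK_le K k).trans ?_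
    rw [← Finset.mul_sum, mul_assoc]
    refine mul_le_mul_of_nonneg_left ?_ (Nat.cast_nonneg _)
    have := Chebyshev.psi_le_const_mul_self (x := n) (Nat.cast_nonneg n)
    rw [Chebyshev.psi, Nat.floor_natCast] at this
    exact this
  · have h1 := tendsto_sub_one_mul_dedekindZeta_nhdsGT K
    have h2 : ContinuousAt H 1 := (hH.differentiableAt
      ((isOpen_lt continuous_const Complex.continuous_re).mem_nhds
        (show θ' < (1 : ℂ).re by simpa using hθ'))).continuousAt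
    have h3 : Tendsto (fun s : ℝ => H s) (𝓝[>] 1) (𝓝 (H 1)) := by
      have : Tendsto (fun s : ℝ => (s : ℂ)) (𝓝[>] 1) (𝓝 1) :=
        (Complex.continuous_ofReal.tendsto 1).mono_left nhdsWithin_le_nhds
      exact h2.tendsto.comp this
    have h4 : Tendsto (fun s : ℝ => H s) (𝓝[>] 1) (𝓝 (dedekindZeta_residue K)) := by
      refine h1.congr' ?_
      filter_upwards [self_mem_nhdsWithin] with s hs
      rw [hHe s (by simpa using hs)]
      simp [dedekindZeta, aK]
    rw [tendsto_nhds_unique h3 h4]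
    exact_mod_cast dedekindZeta_residue_ne_zero K

/-- Upper-bound form of the prime ideal theorem. -/
theorem pit_upper {ε : ℝ} (hε : 0 < ε) : ∀ᶠ x : ℝ in atTop, ∀ s : Finset (Ideal (𝓞 K)),
    (∀ P ∈ s, P.IsPrime ∧ P ≠ ⊥ ∧ (absNorm P : ℝ) ≤ x) →
      ∑ P ∈ s, Real.log (absNorm P) ≤ (1 + ε) * x := by
  classical
  filter_upwards [(prime_ideal_theorem K).eventually (Iic_mem_nhds (lt_add_of_pos_right 1 hε)),
    eventually_gt_atTop 0] with x hx hx0 s hs
  rw [div_le_iff₀ hx0] at hx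
  refine le_trans ?_ hx
  rw [← Finset.sum_fiberwise_of_maps_to (g := fun P => absNorm P) (t := Finset.Icc 1 ⌊x⌋₊)]
  · refine Finset.sum_le_sum fun k _ => ?_
    rw [LamK, ← Finset.sum_image (s := s.filter fun P => absNorm P = k) (g := fun P => (P, 1))
      (f := fun y : Ideal (𝓞 K) × ℕ => Real.log (absNorm y.1))
      (fun _ _ _ _ h => (Prod.mk.inj h).1)]
    refine Finset.sum_le_sum_of_subset_of_nonneg ?_ fun _ _ _ => Real.log_natCast_nonneg _
    intro y hy
    obtain ⟨P, hP, rfl⟩ := Finset.mem_image.mp hy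
    rw [Finset.mem_filter] at hP
    exact (mem_ppN K).mpr ⟨(hs P hP.1).1, (hs P hP.1).2.1, le_rfl, by simpa using hP.2⟩
  · intro P hP
    have := two_le_absNorm (hs P hP).1 (hs P hP).2.1
    exact Finset.mem_Icc.mpr ⟨by omega, Nat.le_floor (hs P hP).2.2⟩

end Pool.Agent.Lib.helper22.PIT
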