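import Mathlib

set_option autoImplicit false

open Finset

namespace Pool.Agent.Lib.helper22.AP3

/-- Varnavides' supersaturated form of Roth's theorem in `ZMod N`, `N` prime. -/
theorem varnavides {α : ℝ} (hα : 0 < α) : ∃ c : ℝ, 0 < c ∧ ∃ M : ℕ, ∀ (N : ℕ) [NeZero N],
    N.Prime → M < N → ∀ A : Finset (ZMod N), α * N ≤ A.card →
      c * (N : ℝ) ^ 2 ≤
        ((univ : Finset (ZMod N × ZMod N)).filter
          (fun t => t.1 ∈ A ∧ t.2 ∈ A ∧ 2 * t.2 - t.1 ∈ A)).card := by
  classical
  set M := cornersTheoremBound (α / 2 / 3) with hM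
  have hM0 : 0 < M := by rw [hM]; unfold cornersTheoremBound; omega
  have hMr : (0 : ℝ) < M := by exact_mod_cast hM0
  refine ⟨α / 2 / (M : ℝ) ^ 2, by positivity, M, fun N _ hN hMN A hA => ?_⟩
  set T := (univ : Finset (ZMod N × ZMod N)).filter
          (fun t => t.1 ∈ A ∧ t.2 ∈ A ∧ 2 * t.2 - t.1 ∈ A) with hT
  let S : ZMod N × ZMod N → Finset ℕ := fun t => (range M).filter (fun j => t.1 + j * t.2 ∈ A)
  let G := (univ : Finset (ZMod N × ZMod N)).filter (fun t => α / 2 * M ≤ (S t).card)
  have hsum : ∑ t : ZMod N × ZMod N, ((S t).card : ℝ) = M * (N * A.card) := by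
    have h1 : ∀ t : ZMod N × ZMod N, ((S t).card : ℝ) =
        ∑ j ∈ range M, if t.1 + j * t.2 ∈ A then (1 : ℝ) else 0 := by
      intro t
      simp [S]
    simp_rw [h1]
    rw [Finset.sum_comm]
    have h2 : ∀ j : ℕ, ∑ t : ZMod N × ZMod N, (if t.1 + j * t.2 ∈ A then (1 : ℝ) else 0) =
        N * A.card := by
      intro j
      rw [Fintype.sum_prod_type_right]
      have h3 : ∀ d : ZMod N, ∑ x : ZMod N, (if x + j * d ∈ A then (1 : ℝ) else 0) = A.card := by
        intro d
        rw [Fintype.sum_equiv (Equiv.addRight ((j : ZMod N) * d))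
          (fun x => if x + j * d ∈ A then (1 : ℝ) else 0)
          (fun x => if x ∈ A then (1 : ℝ) else 0) (fun x => rfl)]
        simp
      simp_rw [h3]
      simp [ZMod.card]
    simp_rw [h2]
    simp
  have hG : α / 2 * (N : ℝ) ^ 2 ≤ G.card := by
    have h1 : ∑ t : ZMod N × ZMod N, ((S t).card : ℝ) ≤
        ∑ t : ZMod N × ZMod N, ((if t ∈ G then (M : ℝ) else 0) + α / 2 * M) := by
      refine Finset.sum_le_sum fun t _ => ?_
      have hle : ((S t).card : ℝ) ≤ M := by
        have : (S t).card ≤ (range M).card := Finset.card_filter_le _ _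
        rw [Finset.card_range] at this
        exact_mod_cast this
      split_ifs with h
      · have : 0 ≤ α / 2 * M := by positivity
        linarith
      · simp only [G, Finset.mem_filter, Finset.mem_univ, true_and, not_le] at h
        linarith
    rw [hsum, Finset.sum_add_distrib] at h1
    simp only [Finset.sum_ite_mem, Finset.univ_inter, Finset.sum_const, nsmul_eq_mul,
      Finset.card_univ, Fintype.card_prod, ZMod.card, Nat.cast_mul] at h1
    have hN0 : (0 : ℝ) ≤ N := by positivity
    have h2 : (M : ℝ) * (N * (α * N)) ≤ M * (N * A.card) := by gcongr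
    have h3 : (M : ℝ) * (α / 2 * (N : ℝ) ^ 2) ≤ M * G.card := by nlinarith
    exact le_of_mul_le_mul_left h3 hMr
  let P := (range M ×ˢ range M).filter (fun ab => ab.1 ≠ ab.2)
  let φ : ℕ × ℕ → ZMod N × ZMod N → ZMod N × ZMod N :=
    fun ab t => (t.1 + ab.1 * t.2, t.1 + ab.2 * t.2)
  have hsub : G ⊆ P.biUnion (fun ab => univ.filter (fun t => φ ab t ∈ T)) := by
    intro t ht
    simp only [G, Finset.mem_filter, Finset.mem_univ, true_and] at ht
    have h := roth_3ap_theorem_nat (α / 2) (by positivity) (le_refl M) (S t)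
      (Finset.filter_subset _ _) ht
    unfold ThreeAPFree at h
    push Not at h
    obtain ⟨a, ha, b, hb, c, hc, habc, hab⟩ := h
    simp only [S, Finset.coe_filter, Finset.mem_range, Set.mem_ofPred_eq] at ha hb hc
    simp only [Finset.mem_biUnion, P, Finset.mem_filter, Finset.mem_product, Finset.mem_range,
      Finset.mem_univ, true_and, hT, φ]
    refine ⟨(a, b), ⟨⟨ha.1, hb.1⟩, hab⟩, ha.2, hb.2, ?_⟩
    have : (2 : ZMod N) * (t.1 + b * t.2) - (t.1 + a * t.2) = t.1 + c * t.2 := by
      have h := congrArg (Nat.cast : ℕ → ZMod N) habc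
      push_cast at h
      linear_combination (-t.2) * h
    simp only
    rw [this]
    exact hc.2
  have hcard : G.card ≤ M ^ 2 * T.card := by
    refine (Finset.card_le_card hsub).trans (Finset.card_biUnion_le.trans ?_)
    have h1 : ∀ ab ∈ P, (univ.filter (fun t => φ ab t ∈ T)).card ≤ T.card := by
      intro ab hab
      simp only [P, Finset.mem_filter, Finset.mem_product, Finset.mem_range] at hab
      refine Finset.card_le_card_of_injOn (φ ab) (fun t ht => by simpa using ht) ?_
      intro t _ s _ hts
      simp only [φ, Prod.mk.injEq] at hts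
      have hne : (ab.1 : ZMod N) - ab.2 ≠ 0 := by
        rw [sub_ne_zero]
        intro h
        have := (ZMod.natCast_eq_natCast_iff' _ _ _).mp h
        rw [Nat.mod_eq_of_lt (by omega), Nat.mod_eq_of_lt (by omega)] at this
        exact hab.2 this
      have h2 : t.2 = s.2 := by
        have := Fact.mk hN
        apply mul_left_cancel₀ hne
        linear_combination hts.1 - hts.2
      have h3 : t.1 = s.1 := by
        have := hts.1
        rw [h2] at this
        exact add_right_cancel this
      exact Prod.ext h3 h2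
    refine (Finset.sum_le_sum h1).trans ?_
    rw [Finset.sum_const, smul_eq_mul]
    apply Nat.mul_le_mul_right
    refine (Finset.card_filter_le _ _).trans ?_
    simp [sq]
  have hcard' : (G.card : ℝ) ≤ (M : ℝ) ^ 2 * T.card := by exact_mod_cast hcard
  rw [div_mul_eq_mul_div, div_le_iff₀ (by positivity)]
  linarith

end Pool.Agent.Lib.helper22.AP3
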