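import Pool.Agent.Lib.helper22.Fourier
import Pool.Agent.Lib.helper22.Varnavides

set_option autoImplicit false

open Finset ZMod

namespace Pool.Agent.Lib.helper22.AP3

variable {N : ℕ} [NeZero N]

/-- weighted count of three-term progressions -/
noncomputable def cnt (f : ZMod N → ℝ) : ℝ := ∑ x, ∑ y, f x * f y * f (2 * y - x)

/-- `f` has a chain of Fourier-uniform majorants -/
structure Majorised (f : ZMod N → ℝ) (θ : ℝ) (J : ℕ) : Prop where
  nonneg : ∀ x, 0 ≤ f x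
  bdd : ∀ x, f x ≤ 2 ^ J
  maj : ∀ j ≤ J, ∃ ν : ZMod N → ℝ, (∀ x, f x ≤ ν x) ∧
    ∀ r, ‖ft ν r‖ ≤ N * ((if r = 0 then (2 : ℝ) ^ j / 2 else 0) + θ / 16 ^ j)

lemma Npos : (0 : ℝ) < N := by exact_mod_cast Nat.pos_of_ne_zero (NeZero.ne N)

lemma Majorised.mean_le {f : ZMod N → ℝ} {θ : ℝ} {J : ℕ} (H : Majorised f θ J) (hθ : θ ≤ 1 / 2) :
    ∑ x, f x ≤ N := by
  obtain ⟨ν, h1, h2⟩ := H.maj 0 (Nat.zero_le _)
  have h3 := h2 0
  rw [ft_zero, Complex.norm_real] at h3
  simp only [if_true, pow_zero, div_one] at h3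
  have h4 : ∑ x, f x ≤ ∑ x, ν x := Finset.sum_le_sum fun x _ => h1 x
  have h5 := le_abs_self (∑ x, ν x)
  rw [Real.norm_eq_abs] at h3
  have := Npos (N := N)
  nlinarith

lemma Majorised.large_spec {f : ZMod N → ℝ} {θ : ℝ} {J : ℕ} (H : Majorised f θ J)
    (hθ : θ ≤ 1 / 2) {j : ℕ} (hj : j ≤ J) :
    ((univ.filter (fun r => (N : ℝ) / 4 ^ j < ‖ft f r‖)).card : ℝ) ≤ 32 ^ j := by
  set X := univ.filter (fun r => (N : ℝ) / 4 ^ j < ‖ft f r‖) with hX
  obtain ⟨ν, h1, h2⟩ := H.maj j hj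
  have hN := Npos (N := N)
  let c : ZMod N → ℂ := fun r => (starRingEnd ℂ) (ft f r) / (‖ft f r‖ : ℂ)
  have hc : ∀ r, ‖c r‖ ≤ 1 := by
    intro r
    simp only [c, norm_div, Complex.norm_conj, Complex.norm_real, norm_norm]
    exact div_self_le_one _
  let Φ : ZMod N → ℂ := fun x => ∑ r ∈ X, c r * stdAddChar (r * x)
  have e1 : ((∑ r ∈ X, ‖ft f r‖ : ℝ) : ℂ) = ∑ x, (f x : ℂ) * Φ x := by
    simp only [Φ, Finset.mul_sum]
    rw [Finset.sum_comm]
    push_cast
    refine Finset.sum_congr rfl fun r hr => ?_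
    have hr0 : 0 < ‖ft f r‖ := by
      simp only [hX, Finset.mem_filter, Finset.mem_univ, true_and] at hr
      exact lt_trans (by positivity) hr
    have : ∑ x, (f x : ℂ) * (c r * stdAddChar (r * x)) = c r * ft f r := by
      unfold ft
      rw [Finset.mul_sum]
      refine Finset.sum_congr rfl fun x _ => by ring
    rw [this]
    simp only [c]
    have h0 : (‖ft f r‖ : ℂ) ≠ 0 := by exact_mod_cast hr0.ne'
    rw [div_mul_eq_mul_div, Complex.conj_mul', eq_div_iff h0, sq]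
  have e2 : (N : ℝ) / 4 ^ j * X.card ≤ ∑ x, f x * ‖Φ x‖ := by
    have a1 : (N : ℝ) / 4 ^ j * X.card ≤ ∑ r ∈ X, ‖ft f r‖ := by
      rw [mul_comm, ← nsmul_eq_mul]
      apply Finset.card_nsmul_le_sum
      intro r hr
      simp only [hX, Finset.mem_filter, Finset.mem_univ, true_and] at hr
      exact hr.le
    refine a1.trans ((le_abs_self _).trans ?_)
    rw [← Real.norm_eq_abs, ← Complex.norm_real, e1]
    refine (norm_sum_le _ _).trans (le_of_eq (Finset.sum_congr rfl fun x _ => ?_))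
    rw [norm_mul, Complex.norm_real, Real.norm_of_nonneg (H.nonneg x)]
  have e3 : (∑ x, f x * ‖Φ x‖) ^ 2 ≤ (∑ x, f x) * ∑ x, f x * ‖Φ x‖ ^ 2 := by
    apply Finset.sum_sq_le_sum_mul_sum_of_sq_le_mul
    · intro x _; exact H.nonneg x
    · intro x _; exact mul_nonneg (H.nonneg x) (by positivity)
    · intro x _; exact le_of_eq (by ring)
  have e4 : ∑ x, f x * ‖Φ x‖ ^ 2 ≤ N * (X.card * (2 ^ j / 2) + X.card ^ 2 * (θ / 16 ^ j)) := by
    have a1 : ∑ x, f x * ‖Φ x‖ ^ 2 ≤ ∑ x, ν x * ‖Φ x‖ ^ 2 :=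
      Finset.sum_le_sum fun x _ => mul_le_mul_of_nonneg_right (h1 x) (by positivity)
    refine a1.trans ((dual ν X c hc).trans ?_)
    have a2 : ∀ r ∈ X, ∑ s ∈ X, ‖ft ν (r - s)‖ ≤ N * (2 ^ j / 2 + X.card * (θ / 16 ^ j)) := by
      intro r hr
      refine (Finset.sum_le_sum fun s _ => h2 (r - s)).trans (le_of_eq ?_)
      rw [← Finset.mul_sum, Finset.sum_add_distrib]
      simp only [sub_eq_zero, Finset.sum_ite_eq, hr, if_true, Finset.sum_const, nsmul_eq_mul]
    refine (Finset.sum_le_sum a2).trans (le_of_eq ?_)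
    rw [Finset.sum_const, nsmul_eq_mul]
    ring
  have e5 := H.mean_le hθ
  have e6 : 0 ≤ ∑ x, f x * ‖Φ x‖ ^ 2 :=
    Finset.sum_nonneg fun x _ => mul_nonneg (H.nonneg x) (by positivity)
  have e7 : ((N : ℝ) / 4 ^ j * X.card) ^ 2 ≤
      N * (N * (X.card * (2 ^ j / 2) + X.card ^ 2 * (θ / 16 ^ j))) := by
    calc _ ≤ (∑ x, f x * ‖Φ x‖) ^ 2 := by gcongr
      _ ≤ (∑ x, f x) * ∑ x, f x * ‖Φ x‖ ^ 2 := e3
      _ ≤ N * ∑ x, f x * ‖Φ x‖ ^ 2 := by gcongr
      _ ≤ _ := by gcongr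
  set k : ℝ := (X.card : ℝ) with hk
  have hk0 : 0 ≤ k := by positivity
  have h16 : (16 : ℝ) ^ j = (4 ^ j) ^ 2 := by rw [← pow_mul, mul_comm, pow_mul]; norm_num
  have h32 : (32 : ℝ) ^ j = 2 ^ j * 16 ^ j := by rw [← mul_pow]; norm_num
  have p16 : (0 : ℝ) < 16 ^ j := by positivity
  have e8 : k ^ 2 / 16 ^ j ≤ k * (2 ^ j / 2) + k ^ 2 * (θ / 16 ^ j) := by
    have : ((N : ℝ) / 4 ^ j * k) ^ 2 = N * (N * (k ^ 2 / 16 ^ j)) := by
      rw [h16]; field_simp
    rw [this] at e7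
    exact le_of_mul_le_mul_left (le_of_mul_le_mul_left e7 hN) hN
  have e9 : k ^ 2 ≤ k * (2 ^ j / 2) * 16 ^ j + k ^ 2 * θ := by
    rw [div_le_iff₀ p16] at e8
    refine e8.trans (le_of_eq ?_)
    field_simp
  rcases hk0.eq_or_lt with h | h
  · rw [← h]; positivity
  · rw [h32]
    have : k * k ≤ k * (2 ^ j * 16 ^ j) := by nlinarith
    exact le_of_mul_le_mul_left this h

/-- sum of the cubes of the small Fourier coefficients -/
noncomputable def tail (f : ZMod N → ℝ) (j : ℕ) : ℝ :=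
  ∑ r, if ‖ft f r‖ ≤ (N : ℝ) / 4 ^ j then ‖ft f r‖ ^ 3 else 0

lemma Majorised.tail_le {f : ZMod N → ℝ} {θ : ℝ} {J : ℕ} (H : Majorised f θ J)
    (hθ : θ ≤ 1 / 2) {j : ℕ} (hj : j ≤ J) : tail f j ≤ 64 * (N : ℝ) ^ 3 / 2 ^ j := by
  have hN := Npos (N := N)
  induction hj using Nat.decreasingInduction with
  | self =>
    have a1 : tail f J ≤ ∑ r, (N : ℝ) / 4 ^ J * ‖ft f r‖ ^ 2 := by
      refine Finset.sum_le_sum fun r _ => ?_
      split_ifs with h
      · rw [pow_succ' _ 2]; gcongr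
      · positivity
    rw [← Finset.mul_sum, parseval] at a1
    have a2 : ∑ x, f x ^ 2 ≤ 2 ^ J * N := by
      calc ∑ x, f x ^ 2 ≤ ∑ x, 2 ^ J * f x := by
            refine Finset.sum_le_sum fun x _ => ?_
            rw [sq]
            exact mul_le_mul_of_nonneg_right (H.bdd x) (H.nonneg x)
        _ = 2 ^ J * ∑ x, f x := by rw [Finset.mul_sum]
        _ ≤ _ := by gcongr; exact H.mean_le hθ
    have h4 : (4 : ℝ) ^ J = 2 ^ J * 2 ^ J := by rw [← mul_pow]; norm_num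
    calc tail f J ≤ (N : ℝ) / 4 ^ J * (N * (2 ^ J * N)) := a1.trans (by gcongr)
      _ = (N : ℝ) ^ 3 / 2 ^ J := by rw [h4]; field_simp
      _ ≤ _ := by gcongr; nlinarith [pow_pos hN 3]
  | of_succ j hj ih =>
    have a1 : tail f j ≤ tail f (j + 1) +
        ∑ r, if (N : ℝ) / 4 ^ (j + 1) < ‖ft f r‖ then ((N : ℝ) / 4 ^ j) ^ 3 else 0 := by
      unfold tail
      rw [← Finset.sum_add_distrib]
      refine Finset.sum_le_sum fun r _ => ?_
      by_cases h1 : ‖ft f r‖ ≤ (N : ℝ) / 4 ^ (j + 1)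
      · rw [if_pos h1, if_neg (not_lt.mpr h1), add_zero]
        split_ifs
        · exact le_rfl
        · positivity
      · rw [if_neg h1, if_pos (not_le.mp h1), zero_add]
        split_ifs with h
        · gcongr
        · positivity
    rw [← Finset.sum_filter, Finset.sum_const, nsmul_eq_mul] at a1
    have a2 := H.large_spec hθ (j := j + 1) hj
    have h4 : (4 : ℝ) ^ j = 2 ^ j * 2 ^ j := by rw [← mul_pow]; norm_num
    have h32 : (32 : ℝ) ^ (j + 1) = 32 * (2 ^ j) ^ 5 := by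
      rw [pow_succ', ← pow_mul, mul_comm j 5, pow_mul]; norm_num
    calc tail f j ≤ 64 * (N : ℝ) ^ 3 / 2 ^ (j + 1) + 32 ^ (j + 1) * ((N : ℝ) / 4 ^ j) ^ 3 :=
          a1.trans (by gcongr)
      _ = _ := by rw [h4, h32, pow_succ (2 : ℝ) j]; field_simp; norm_num

lemma cube_ineq {x y l : ℝ} (hx : 0 ≤ x) (hy : 0 ≤ y) (hl : 0 < l) :
    x ^ 2 * y ≤ l * x ^ 3 + y ^ 3 / l ^ 2 := by
  rcases le_total y (l * x) with h | h
  · have : x ^ 2 * y ≤ l * x ^ 3 := by
      calc x ^ 2 * y ≤ x ^ 2 * (l * x) := by gcongr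
        _ = _ := by ring
    have : 0 ≤ y ^ 3 / l ^ 2 := by positivity
    linarith
  · have : x ^ 2 * y ≤ y ^ 3 / l ^ 2 := by
      rw [le_div_iff₀ (by positivity)]
      calc x ^ 2 * y * l ^ 2 = (l * x) ^ 2 * y := by ring
        _ ≤ y ^ 2 * y := by gcongr
        _ = _ := by ring
    have : 0 ≤ l * x ^ 3 := by positivity
    linarith

lemma Majorised.cnt_close {f : ZMod N → ℝ} {θ : ℝ} {J : ℕ} (H : Majorised f θ J)
    (hθ : θ ≤ 1 / 2) (h2 : IsUnit (2 : ZMod N)) {i : ℕ} (hi : 3 * i ≤ J) (B : Finset (ZMod N))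
    (hB : ∀ r, (N : ℝ) / 4 ^ (3 * i) < ‖ft f r‖ → 1 - sig B r ≤ 1 / 2 ^ i) :
    cnt (sm B f) - cnt f ≤ 768 * (N : ℝ) ^ 2 / 2 ^ i := by
  have hN := Npos (N := N)
  set l : ℝ := 1 / 2 ^ i with hl
  have hl0 : 0 < l := by positivity
  have hl1 : l ≤ 1 := by
    rw [hl, div_le_one (by positivity)]; exact one_le_pow₀ (by norm_num)
  let m : ZMod N → ℝ := fun r => ‖ft f r‖
  let t : ZMod N → ℝ := fun r => if ‖ft f r‖ ≤ (N : ℝ) / 4 ^ (3 * i) then ‖ft f r‖ ^ 3 else 0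
  have e1 : ((N * (cnt f - cnt (sm B f)) : ℝ) : ℂ) =
      ∑ r, ft f r ^ 2 * ft f (-2 * r) * ((1 - sig B r ^ 2 * sig B (-2 * r) : ℝ) : ℂ) := by
    rw [mul_sub, Complex.ofReal_sub]
    unfold cnt
    rw [← count3, ← count3, ← Finset.sum_sub_distrib]
    refine Finset.sum_congr rfl fun r _ => ?_
    rw [ft_sm, ft_sm]
    push_cast
    ring
  have e2 : ∀ r, m r ^ 2 * m (-2 * r) * (1 - sig B r ^ 2 * sig B (-2 * r)) ≤
      5 * l * m r ^ 3 + 5 * l * m (-2 * r) ^ 3 + t r / l + t (-2 * r) / l ^ 2 := by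
    intro r
    have hx : 0 ≤ m r := norm_nonneg _
    have hy : 0 ≤ m (-2 * r) := norm_nonneg _
    have s0 := sig_nonneg B r
    have s1 := sig_le_one B r
    have u0 := sig_nonneg B (-2 * r)
    have u1 := sig_le_one B (-2 * r)
    have ht0 : ∀ r, 0 ≤ t r := fun r => by simp only [t]; split_ifs <;> positivity
    have tr := ht0 r
    have tr' := ht0 (-2 * r)
    have hle1 : 1 - sig B r ^ 2 * sig B (-2 * r) ≤ 1 := by
      have : 0 ≤ sig B r ^ 2 * sig B (-2 * r) := by positivity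
      linarith
    have hxy : 0 ≤ m r ^ 2 * m (-2 * r) := by positivity
    have p1 : 0 ≤ l * m r ^ 3 := by positivity
    have p2 : 0 ≤ l * m (-2 * r) ^ 3 := by positivity
    have p3 : 0 ≤ t r / l := by positivity
    have p4 : 0 ≤ t (-2 * r) / l ^ 2 := by positivity
    by_cases c1 : ‖ft f r‖ ≤ (N : ℝ) / 4 ^ (3 * i)
    · have a1 := cube_ineq hx hy (l := 1 / l) (by positivity)
      have a2 : t r = m r ^ 3 := by simp only [t, m, if_pos c1]
      have a3 : 1 / l * m r ^ 3 = t r / l := by rw [a2]; ring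
      have a4 : m (-2 * r) ^ 3 / (1 / l) ^ 2 ≤ l * m (-2 * r) ^ 3 := by
        have : m (-2 * r) ^ 3 / (1 / l) ^ 2 = l * (l * m (-2 * r) ^ 3) := by field_simp
        rw [this]
        exact mul_le_of_le_one_left p2 hl1
      have a5 := mul_le_of_le_one_right hxy hle1
      linarith
    · by_cases c2 : ‖ft f (-2 * r)‖ ≤ (N : ℝ) / 4 ^ (3 * i)
      · have a1 := cube_ineq hx hy hl0
        have a2 : t (-2 * r) = m (-2 * r) ^ 3 := by simp only [t, m, if_pos c2]
        have a5 := mul_le_of_le_one_right hxy hle1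
        rw [← a2] at a1
        linarith
      · have b1 := hB r (not_le.mp c1)
        have b2 := hB (-2 * r) (not_le.mp c2)
        have a1 := cube_ineq hx hy one_pos
        have a2 : 1 - sig B r ^ 2 * sig B (-2 * r) ≤ 3 * l := by
          have : 1 - sig B r ^ 2 * sig B (-2 * r) =
              (1 - sig B r) + sig B r * (1 - sig B r) + sig B r ^ 2 * (1 - sig B (-2 * r)) := by
            ring
          have q1 : sig B r * (1 - sig B r) ≤ 1 - sig B r :=
            mul_le_of_le_one_left (by linarith) s1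
          have q2 : sig B r ^ 2 * (1 - sig B (-2 * r)) ≤ 1 - sig B (-2 * r) :=
            mul_le_of_le_one_left (by linarith) (pow_le_one₀ s0 s1)
          linarith
        have a3 := mul_le_mul_of_nonneg_left a2 hxy
        have a4 : m r ^ 2 * m (-2 * r) * (3 * l) ≤
            (1 * m r ^ 3 + m (-2 * r) ^ 3 / 1 ^ 2) * (3 * l) := by gcongr
        nlinarith
  have hbij : ∀ g : ZMod N → ℝ, ∑ r, g (-2 * r) = ∑ r, g r := by
    intro g
    obtain ⟨u, hu⟩ := h2.neg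
    have := Equiv.sum_comp u.mulLeft g
    simpa [hu] using this
  have e3 : N * (cnt (sm B f) - cnt f) ≤
      10 * l * ∑ r, m r ^ 3 + tail f (3 * i) / l + tail f (3 * i) / l ^ 2 := by
    have a0 : N * (cnt (sm B f) - cnt f) ≤ |N * (cnt f - cnt (sm B f))| := by
      have := neg_abs_le (N * (cnt f - cnt (sm B f)))
      linarith
    refine a0.trans ?_
    rw [← Real.norm_eq_abs, ← Complex.norm_real, e1]
    refine (norm_sum_le _ _).trans ?_
    have a1 : ∀ r, ‖ft f r ^ 2 * ft f (-2 * r) *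
        ((1 - sig B r ^ 2 * sig B (-2 * r) : ℝ) : ℂ)‖ ≤
        5 * l * m r ^ 3 + 5 * l * m (-2 * r) ^ 3 + t r / l + t (-2 * r) / l ^ 2 := by
      intro r
      refine le_trans (le_of_eq ?_) (e2 r)
      rw [norm_mul, norm_mul, norm_pow, Complex.norm_real, Real.norm_of_nonneg]
      have := mul_le_one₀ (pow_le_one₀ (n := 2) (sig_nonneg B r) (sig_le_one B r))
        (sig_nonneg B (-2 * r)) (sig_le_one B (-2 * r))
      linarith
    refine (Finset.sum_le_sum fun r _ => a1 r).trans (le_of_eq ?_)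
    simp only [Finset.sum_add_distrib, ← Finset.mul_sum, ← Finset.sum_div]
    rw [hbij (fun r => m r ^ 3), hbij t]
    have : tail f (3 * i) = ∑ r, t r := rfl
    rw [this]
    ring
  have e4 : ∑ r, m r ^ 3 ≤ 64 * (N : ℝ) ^ 3 := by
    have := H.tail_le hθ (Nat.zero_le J)
    unfold tail at this
    simp only [pow_zero, div_one] at this
    refine le_trans (le_of_eq (Finset.sum_congr rfl fun r _ => ?_)) this
    rw [if_pos ((norm_ft_le f H.nonneg r).trans (H.mean_le hθ))]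
  have e5 := H.tail_le hθ hi
  have e6 : 64 * (N : ℝ) ^ 3 / 2 ^ (3 * i) = 64 * N ^ 3 * l ^ 3 := by
    rw [hl, mul_comm 3 i, pow_mul]; field_simp
  rw [e6] at e5
  have e7 : tail f (3 * i) / l ≤ 64 * N ^ 3 * l := by
    rw [div_le_iff₀ hl0]
    refine e5.trans ?_
    have : l ^ 3 ≤ l * l := by
      rw [pow_succ, sq]; exact mul_le_of_le_one_right (by positivity) hl1
    rw [mul_assoc (64 * (N : ℝ) ^ 3)]
    gcongr
  have e8 : tail f (3 * i) / l ^ 2 ≤ 64 * N ^ 3 * l := by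
    rw [div_le_iff₀ (by positivity)]
    refine e5.trans (le_of_eq ?_)
    ring
  have e9 : 10 * l * ∑ r, m r ^ 3 ≤ 10 * l * (64 * (N : ℝ) ^ 3) := by gcongr
  have e10 : N * (cnt (sm B f) - cnt f) ≤ N * (768 * (N : ℝ) ^ 2 * l) := by nlinarith
  refine (le_of_mul_le_mul_left e10 hN).trans (le_of_eq ?_)
  rw [hl]; ring

lemma bohr {ε : ℝ} (hε : 0 < ε) : ∃ T : ℕ, 1 ≤ T ∧ ∀ (N : ℕ) [NeZero N] (R : Finset (ZMod N)),
    ∃ B : Finset (ZMod N), B.Nonempty ∧ (N : ℝ) / B.card ≤ (T : ℝ) ^ R.card ∧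
      ∀ r ∈ R, ∀ b ∈ B, ∀ b' ∈ B, ‖stdAddChar (r * b) - stdAddChar (r * b')‖ ≤ ε := by
  classical
  obtain ⟨t, htf, ht⟩ := Metric.totallyBounded_iff.mp
    (isCompact_closedBall (0 : ℂ) 1).totallyBounded (ε / 2) (by positivity)
  have hch : ∀ z : ℂ, ∃ y : ℂ, ‖z‖ ≤ 1 → y ∈ htf.toFinset ∧ dist z y < ε / 2 := by
    intro z
    by_cases hz : ‖z‖ ≤ 1
    · have := ht (mem_closedBall_zero_iff.mpr hz)
      simp only [Set.mem_iUnion, Metric.mem_ball] at this
      obtain ⟨y, hy, hy'⟩ := this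
      exact ⟨y, fun _ => ⟨by simpa using hy, hy'⟩⟩
    · exact ⟨0, fun h => absurd h hz⟩
  choose κ hκ using hch
  have hne : htf.toFinset.Nonempty := ⟨κ 0, (hκ 0 (by simp)).1⟩
  refine ⟨htf.toFinset.card, hne.card_pos, fun N _ R => ?_⟩
  have hN := Npos (N := N)
  let col : ZMod N → (R → ℂ) := fun x r => κ (stdAddChar (r.1 * x))
  let C : Finset (R → ℂ) := Fintype.piFinset (fun _ : R => htf.toFinset)
  have hC : (C.card : ℝ) = (htf.toFinset.card : ℝ) ^ R.card := by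
    simp [C, Fintype.card_piFinset]
  have hCne : C.Nonempty := Fintype.piFinset_nonempty.mpr fun _ => hne
  have hCpos : (0 : ℝ) < C.card := by exact_mod_cast hCne.card_pos
  obtain ⟨y, _, hy⟩ := Finset.exists_le_card_fiber_of_nsmul_le_card_of_maps_to
    (s := (univ : Finset (ZMod N))) (t := C) (f := col) (b := (N : ℝ) / C.card)
    (fun x _ => Fintype.mem_piFinset.mpr fun r => (hκ _ (norm_std _).le).1) hCne
    (by rw [nsmul_eq_mul, Finset.card_univ, ZMod.card]; field_simp; exact le_rfl)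
  set B := univ.filter (fun x => col x = y) with hB
  have hBpos : (0 : ℝ) < B.card := lt_of_lt_of_le (by positivity) hy
  refine ⟨B, Finset.card_pos.mp (by exact_mod_cast hBpos), ?_, ?_⟩
  · rw [← hC, div_le_iff₀ hBpos, mul_comm, ← div_le_iff₀ hCpos]
    exact hy
  · intro r hr b hb b' hb'
    simp only [hB, Finset.mem_filter, Finset.mem_univ, true_and] at hb hb'
    have h1 : κ (stdAddChar (r * b)) = κ (stdAddChar (r * b')) :=
      (congrFun hb ⟨r, hr⟩).trans (congrFun hb' ⟨r, hr⟩).symm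
    have h2 := (hκ _ (norm_std (r * b)).le).2
    have h3 := (hκ _ (norm_std (r * b')).le).2
    rw [← dist_eq_norm]
    have h4 := dist_triangle_right (stdAddChar (r * b)) (stdAddChar (r * b'))
      (κ (stdAddChar (r * b)))
    rw [← h1] at h3
    linarith

/-- A relative Roth theorem. -/
theorem transference {δ : ℝ} (hδ : 0 < δ) : ∃ c θ : ℝ, 0 < c ∧ 0 < θ ∧ ∃ J₀ M : ℕ,
    ∀ (N : ℕ) [NeZero N], N.Prime → M < N → ∀ J, J₀ ≤ J → ∀ f : ZMod N → ℝ,
      Majorised f θ J → δ * N ≤ ∑ x, f x → c * (N : ℝ) ^ 2 ≤ cnt f := by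
  classical
  obtain ⟨c₁, hc₁, M, hM⟩ := varnavides (α := δ / 2) (by positivity)
  set c := (δ / 2) ^ 3 * c₁ / 2 with hc
  have hc0 : 0 < c := by positivity
  obtain ⟨i, hi⟩ : ∃ i : ℕ, 768 / c < 2 ^ i := pow_unbounded_of_one_lt _ (by norm_num)
  obtain ⟨T, hT1, hT⟩ := bohr (ε := 1 / 2 ^ i) (by positivity)
  have hT1' : (1 : ℝ) ≤ T := by exact_mod_cast hT1
  set Q : ℝ := (T : ℝ) ^ (32 ^ (3 * i)) with hQ
  have hQ1 : 1 ≤ Q := one_le_pow₀ hT1'
  refine ⟨c, 1 / (4 * Q), hc0, by positivity, 3 * i, max M 2, ?_⟩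
  intro N _ hN hMN J hJ f H hf
  have hNp := Npos (N := N)
  have hθ : 1 / (4 * Q) ≤ 1 / 2 := by
    apply one_div_le_one_div_of_le (by norm_num); linarith
  have hθ4 : 1 / (4 * Q) ≤ 1 / 4 := by
    apply one_div_le_one_div_of_le (by norm_num); linarith
  have h2 : IsUnit (2 : ZMod N) := by
    have := (ZMod.isUnit_iff_coprime 2 N).mpr
      ((Nat.coprime_primes Nat.prime_two hN).mpr (by omega))
    simpa using this
  set R := univ.filter (fun r => (N : ℝ) / 4 ^ (3 * i) < ‖ft f r‖) with hR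
  have hRc : R.card ≤ 32 ^ (3 * i) := by
    have := H.large_spec hθ hJ
    rw [← hR] at this
    exact_mod_cast this
  obtain ⟨B, hBne, hBc, hB⟩ := hT N R
  have hBQ : (N : ℝ) / B.card ≤ Q := hBc.trans (pow_le_pow_right₀ hT1' hRc)
  have hclose := H.cnt_close hθ h2 hJ B (fun r hr => one_sub_sig_le B hBne r
    (hB r (by simpa [hR] using hr)))
  obtain ⟨ν, hν1, hν2⟩ := H.maj 0 (Nat.zero_le _)
  have hle : ∀ x, sm B f x ≤ 1 := by
    intro x
    have a1 := sm_mono B hν1 x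
    have a2 := sm_le B hBne ν hν2 (by positivity) x
    simp only [pow_zero, div_one] at a2
    have a3 : 1 / (4 * Q) * ((N : ℝ) / B.card) ≤ 1 / (4 * Q) * Q := by gcongr
    have a4 : 1 / (4 * Q) * Q = 1 / 4 := by field_simp
    linarith
  have hnn : ∀ x, 0 ≤ sm B f x := sm_nonneg B H.nonneg
  set A := univ.filter (fun x => δ / 2 ≤ sm B f x) with hA
  have hAc : δ / 2 * N ≤ A.card := by
    have a1 : ∑ x, sm B f x ≤ ∑ x : ZMod N, ((if x ∈ A then (1 : ℝ) else 0) + δ / 2) := by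
      refine Finset.sum_le_sum fun x _ => ?_
      split_ifs with h
      · have := hle x; linarith
      · simp only [hA, Finset.mem_filter, Finset.mem_univ, true_and, not_le] at h
        linarith
    rw [sum_sm B hBne, Finset.sum_add_distrib] at a1
    simp only [Finset.sum_ite_mem, Finset.univ_inter, Finset.sum_const, nsmul_eq_mul, mul_one,
      Finset.card_univ, ZMod.card] at a1
    linarith
  have hV := hM N hN (by omega) A hAc
  have hcnt : (δ / 2) ^ 3 * (c₁ * (N : ℝ) ^ 2) ≤ cnt (sm B f) := by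
    refine (mul_le_mul_of_nonneg_left hV (by positivity)).trans ?_
    unfold cnt
    rw [← Fintype.sum_prod_type', mul_comm, ← nsmul_eq_mul, ← Finset.sum_const, Finset.sum_filter]
    refine Finset.sum_le_sum fun t _ => ?_
    split_ifs with h
    · simp only [hA, Finset.mem_filter, Finset.mem_univ, true_and] at h
      obtain ⟨b1, b2, b3⟩ := h
      have : (δ / 2) ^ 3 = δ / 2 * (δ / 2) * (δ / 2) := by ring
      rw [this]
      have := hnn t.1
      have := hnn t.2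
      gcongr
    · exact mul_nonneg (mul_nonneg (hnn _) (hnn _)) (hnn _)
  have h768 : 768 * (N : ℝ) ^ 2 / 2 ^ i ≤ c * (N : ℝ) ^ 2 := by
    rw [div_lt_iff₀ hc0] at hi
    rw [div_le_iff₀ (by positivity)]
    nlinarith [pow_pos hNp 2]
  have : (δ / 2) ^ 3 * (c₁ * (N : ℝ) ^ 2) = 2 * (c * (N : ℝ) ^ 2) := by rw [hc]; ring
  linarith

end Pool.Agent.Lib.helper22.AP3
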