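import Pool.Agent.Lib.helper22.PrimeSums
import Pool.Agent.Lib.helper22.Transference

set_option autoImplicit false

open Finset ZMod

namespace Pool.Agent.Lib.helper22.AP3

/-- weighted indicator of primes in a progression -/
noncomputable def primeFn (N W b R : ℕ) (L : ℝ) (x : ZMod N) : ℝ :=
  if x.val < N / 2 ∧ (W * x.val + b).Prime ∧ R < W * x.val + b then L else 0

lemma ft_val {N : ℕ} [NeZero N] (g : ℕ → ℝ) (r : ZMod N) :
    ft (fun x => g x.val) r = ∑ n ∈ range N, (g n : ℂ) * (stdAddChar r) ^ n := by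
  rw [← sum_val (fun n => (g n : ℂ) * (stdAddChar r) ^ n)]
  unfold ft
  refine Finset.sum_congr rfl fun x _ => ?_
  rw [← AddChar.map_nsmul_eq_pow, nsmul_eq_mul, ZMod.natCast_zmod_val, mul_comm x r]

lemma majorised_primeFn {y₀ : ℕ} (hy : ∀ y, y₀ ≤ y → PI (1024 * y) ≤ 2 * PI y)
    {s₀ J R N b : ℕ} [NeZero N] {θ : ℝ} (hs0 : 0 < s₀) (hs : y₀ ≤ s₀ ^ 2) (hθ : 2 / s₀ ≤ θ)
    (hR : 1 ≤ R) (hL : Real.log (R + 1) ≤ 2 ^ J)
    (hN : 4 * (s₀ : ℝ) * 32 ^ J * (R : ℝ) ^ 6 ≤ N) :
    Majorised (primeFn N (primorial (s₀ ^ 2)) b R (Real.log (R + 1) / (4 * PI (s₀ ^ 2)))) θ J := by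
  obtain ⟨w, hw⟩ : ∃ w, w = s₀ ^ 2 := ⟨_, rfl⟩
  rw [← hw] at hs ⊢
  obtain ⟨W, hW⟩ : ∃ W, W = primorial w := ⟨_, rfl⟩
  rw [← hW]
  obtain ⟨L, hLdef⟩ : ∃ L, L = Real.log (R + 1) / (4 * PI w) := ⟨_, rfl⟩
  rw [← hLdef]
  have hR' : (1 : ℝ) ≤ R := by exact_mod_cast hR
  have hlog : 0 < Real.log (R + 1) := Real.log_pos (by linarith)
  have hPI := one_le_PI w
  have hL0 : 0 < L := by rw [hLdef]; positivity
  have hL1 : L ≤ 2 ^ J := by
    refine le_trans ?_ hL
    rw [hLdef, div_le_iff₀ (by positivity)]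
    nlinarith
  have hs0' : (0 : ℝ) < s₀ := by exact_mod_cast hs0
  have hNp := Npos (N := N)
  refine ⟨fun x => ?_, fun x => ?_, fun j hj => ?_⟩
  · unfold primeFn; split_ifs <;> positivity
  · unfold primeFn; split_ifs
    · exact hL1
    · positivity
  · obtain ⟨z, hz⟩ : ∃ z, z = 1024 ^ j * w := ⟨_, rfl⟩
    let p : PP z R → ℕ := Subtype.val
    have hG := G_lower z R
    have hPz := PI_iter hy hs j
    rw [← hz] at hPz
    obtain ⟨G, hGdef⟩ : ∃ G, G = GG p R := ⟨_, rfl⟩
    rw [← hGdef] at hG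
    have hG0 : 0 < G := by
      by_contra h
      have h1 : G ≤ 0 := not_lt.mp h
      have := one_le_PI z
      nlinarith
    have hLG : L / G ≤ 2 ^ j / 2 := by
      rw [hLdef, div_div, div_le_div_iff₀ (by positivity) (by norm_num)]
      have : 2 * PI z * G ≤ 2 * (2 ^ j * PI w) * G := by gcongr
      nlinarith
    have hpz : ∀ i : PP z R, z < p i := fun i =>
      (Finset.mem_Ioc.mp (Finset.mem_filter.mp i.2).1).1
    have hpR : ∀ i : PP z R, p i ≤ R := fun i =>
      (Finset.mem_Ioc.mp (Finset.mem_filter.mp i.2).1).2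
    have hwz : w ≤ z := hz ▸ Nat.le_mul_of_pos_left _ (by positivity)
    refine ⟨fun x => L / G ^ 2 * ‖AA p R (W * x.val + b)‖ ^ 2, fun x => ?_, fun r => ?_⟩
    · unfold primeFn
      split_ifs with h
      · simp only
        rw [AA_eq, ← hGdef, Complex.norm_real, Real.norm_of_nonneg hG0.le]
        · field_simp
          exact le_rfl
        · intro i hi
          have := (Nat.prime_dvd_prime_iff_eq (PP_prime z R i).out h.2.1).mp hi
          have h2 := hpR i
          have h3 := h.2.2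
          simp only [p] at h2
          omega
      · positivity
    · rw [ft_val (fun n => L / G ^ 2 * ‖AA p R (W * n + b)‖ ^ 2)]
      have hω : (stdAddChar r) ^ N = 1 := by
        rw [← AddChar.map_nsmul_eq_pow, nsmul_eq_mul, ZMod.natCast_self, zero_mul,
          AddChar.map_zero_eq_one]
      have hb := majorant_bound p Subtype.val_injective R W b N (by omega)
        (fun i hi => by
          rw [hW] at hi
          have := ((PP_prime z R i).out.dvd_primorial_iff).mp hi
          have h2 := hpz i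
          simp only [p] at h2
          omega)
        (s := s₀ * 32 ^ j) (by positivity)
        (fun i => by
          have h2 : ((z + 1 : ℕ) : ℝ) ≤ p i := by exact_mod_cast hpz i
          have h3 : ((s₀ : ℝ) * 32 ^ j) ^ 2 = z := by
            rw [hz, hw, mul_pow, ← pow_mul, mul_comm j 2, pow_mul]
            push_cast
            norm_num [mul_comm]
          push_cast at h2
          linarith)
        (norm_std r) hω
      simp_rw [Complex.ofReal_mul, mul_assoc]
      rw [← Finset.mul_sum, norm_mul, Complex.norm_real, Real.norm_of_nonneg (by positivity)]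
      refine (mul_le_mul_of_nonneg_left hb (by positivity)).trans ?_
      rw [← hGdef]
      have hiff : (stdAddChar r = 1) ↔ r = 0 := by
        constructor
        · intro h
          apply injective_stdAddChar
          rw [h, AddChar.map_zero_eq_one]
        · rintro rfl; exact AddChar.map_zero_eq_one _
      have h32 : (32 : ℝ) ^ j = 2 ^ j * 16 ^ j := by rw [← mul_pow]; norm_num
      have h32J : (32 : ℝ) ^ J = 2 ^ J * 16 ^ J := by rw [← mul_pow]; norm_num
      have a1 : L / G ^ 2 * (N * ((if stdAddChar r = 1 then G else 0) + 2 * G / (s₀ * 32 ^ j)) +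
          4 * (R : ℝ) ^ 6 * G ^ 2) = N * (if r = 0 then L / G else 0) +
            N * (L / G * (2 / (s₀ * 32 ^ j))) + 4 * (R : ℝ) ^ 6 * L := by
        simp only [hiff]
        split_ifs <;> field_simp <;> ring
      rw [a1]
      have a2 : (if r = 0 then L / G else 0) ≤ (if r = 0 then (2 : ℝ) ^ j / 2 else 0) := by
        split_ifs
        · exact hLG
        · exact le_rfl
      have a3 : L / G * (2 / (s₀ * 32 ^ j)) ≤ 1 / s₀ / 16 ^ j := by
        calc L / G * (2 / (s₀ * 32 ^ j)) ≤ 2 ^ j / 2 * (2 / (s₀ * 32 ^ j)) := by gcongr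
          _ = _ := by rw [h32]; field_simp
      have a4 : 4 * (R : ℝ) ^ 6 * L ≤ N * (1 / s₀ / 16 ^ j) := by
        have b1 : (16 : ℝ) ^ j ≤ 16 ^ J := pow_le_pow_right₀ (by norm_num) hj
        rw [div_div, mul_one_div, le_div_iff₀ (by positivity)]
        calc 4 * (R : ℝ) ^ 6 * L * (s₀ * 16 ^ j) ≤ 4 * (R : ℝ) ^ 6 * 2 ^ J * (s₀ * 16 ^ J) := by
              gcongr
          _ = 4 * (s₀ : ℝ) * 32 ^ J * (R : ℝ) ^ 6 := by rw [h32J]; ring
          _ ≤ N := hN
      have a5 : 2 * (1 / (s₀ : ℝ) / 16 ^ j) ≤ θ / 16 ^ j := by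
        rw [← mul_div_assoc, ← mul_div_assoc, mul_one]
        gcongr
      have a6 := mul_le_mul_of_nonneg_left a2 hNp.le
      have a7 := mul_le_mul_of_nonneg_left a3 hNp.le
      have a8 := mul_le_mul_of_nonneg_left a5 hNp.le
      linarith

lemma exists_class {w R N : ℕ} [NeZero N] (hR : 16 ≤ R) (hwR : w ≤ R) (hW : primorial w ≤ R)
    (h1 : R ^ 8 < N) (h2 : N ≤ 2 * R ^ 8) :
    ∃ b, 1 / 432 * (N : ℝ) ≤
      ∑ x, primeFn N (primorial w) b R (Real.log (R + 1) / (4 * PI w)) x := by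
  set W := primorial w with hWdef
  set H := N / 2 with hH
  have hW0 : 0 < W := primorial_pos w
  have hR8 : 2 * R ^ 4 ≤ R ^ 8 := by
    have : 2 ≤ R ^ 4 := le_trans (by omega) (Nat.le_self_pow (by norm_num) R)
    calc 2 * R ^ 4 ≤ R ^ 4 * R ^ 4 := by gcongr
      _ = _ := by ring
  have hR4 : 16 ≤ R ^ 4 := le_trans hR (Nat.le_self_pow (by norm_num) R)
  have hH1 : R ^ 4 ≤ W * H := le_trans (by omega) (Nat.le_mul_of_pos_left H hW0)
  have hH2 : W * H ≤ R ^ 9 := by
    calc W * H ≤ R * R ^ 8 := Nat.mul_le_mul hW (by omega)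
      _ = _ := by ring
  have hm := many_primes hR hH1 hH2
  set P := (range (W * H)).filter (fun q => q.Prime ∧ R < q) with hP
  let C := (range W).filter (fun b => W.Coprime b)
  have hC : C.card = W.totient := (Nat.totient_eq_card_coprime W).symm
  have hφ : 0 < W.totient := Nat.totient_pos.mpr hW0
  have hφ' : (0 : ℝ) < W.totient := by exact_mod_cast hφ
  obtain ⟨b, hbC, hb⟩ := Finset.exists_le_card_fiber_of_nsmul_le_card_of_maps_to
    (s := P) (t := C) (f := fun q => q % W) (b := (P.card : ℝ) / W.totient)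
    (fun q hq => by
      simp only [hP, Finset.mem_filter, Finset.mem_range] at hq
      simp only [C, Finset.mem_filter, Finset.mem_range]
      refine ⟨Nat.mod_lt _ hW0, ?_⟩
      rw [Nat.coprime_comm, Nat.Coprime, ← Nat.gcd_rec]
      apply Nat.Coprime.symm
      rw [Nat.Prime.coprime_iff_not_dvd hq.2.1, hWdef, hq.2.1.dvd_primorial_iff]
      omega)
    (Finset.card_pos.mp (by omega))
    (by rw [hC, nsmul_eq_mul]; field_simp; exact le_rfl)
  refine ⟨b, ?_⟩
  set L := Real.log (R + 1) / (4 * PI w) with hLdef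
  have hR' : (16 : ℝ) ≤ R := by exact_mod_cast hR
  have hlogR : 0 < Real.log R := Real.log_pos (by linarith)
  have hlog : Real.log R ≤ Real.log (R + 1) := Real.log_le_log (by linarith) (by linarith)
  have hPI := one_le_PI w
  have hL0 : 0 < L := div_pos (by linarith) (by linarith)
  have e1 : ∑ x, primeFn N W b R L x =
      L * ((range N).filter (fun n => n < H ∧ (W * n + b).Prime ∧ R < W * n + b)).card := by
    unfold primeFn
    rw [sum_val (fun n => if n < N / 2 ∧ (W * n + b).Prime ∧ R < W * n + b then L else 0),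
      ← Finset.sum_filter, Finset.sum_const, nsmul_eq_mul, mul_comm]
  have e2 : (P.filter (fun q => q % W = b)).card ≤
      ((range N).filter (fun n => n < H ∧ (W * n + b).Prime ∧ R < W * n + b)).card := by
    refine Finset.card_le_card_of_injOn (fun q => q / W) ?_ ?_
    · intro q hq
      simp only [hP, Finset.coe_filter, Finset.mem_filter, Finset.mem_range,
        Set.mem_ofPred_eq] at hq ⊢
      have a1 : q / W < H := Nat.div_lt_of_lt_mul hq.1.1
      have a2 : W * (q / W) + b = q := by rw [← hq.2]; exact Nat.div_add_mod q W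
      rw [a2]
      exact ⟨by omega, a1, hq.1.2⟩
    · intro q hq q' hq' h
      simp only [Finset.coe_filter, Set.mem_ofPred_eq] at hq hq' h
      rw [← Nat.div_add_mod q W, ← Nat.div_add_mod q' W, h, hq.2, hq'.2]
  have e2' : ((P.filter (fun q => q % W = b)).card : ℝ) ≤
      ((range N).filter (fun n => n < H ∧ (W * n + b).Prime ∧ R < W * n + b)).card := by
    exact_mod_cast e2
  rw [e1]
  have e3 := totient_mul_PI w
  rw [← hWdef] at e3
  have e4 : (N : ℝ) ≤ 3 * H := by exact_mod_cast (by omega : N ≤ 3 * H)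
  have hH0 : (0 : ℝ) ≤ H := by positivity
  calc 1 / 432 * (N : ℝ) ≤ H / 144 := by linarith
    _ = Real.log R / (4 * PI w) * ((W.totient * PI w * H / (36 * Real.log R)) / W.totient) := by
        field_simp; ring
    _ ≤ L * ((((W * H : ℕ) : ℝ) / (36 * Real.log R)) / W.totient) := by
        rw [hLdef]
        push_cast
        gcongr
    _ ≤ L * ((P.card : ℝ) / W.totient) := by gcongr
    _ ≤ _ := by gcongr; exact hb.trans e2'

lemma cnt_le_of_noAP {N W b R : ℕ} [NeZero N] {L : ℝ} (hL : 0 ≤ L) (hW : 0 < W)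
    (h : ¬ ∃ p q r : ℕ, p.Prime ∧ q.Prime ∧ r.Prime ∧ R < p ∧ p < q ∧ q < r ∧ p + r = 2 * q) :
    cnt (primeFn N W b R L) ≤ N * L ^ 3 := by
  classical
  unfold cnt
  have h0 : ∀ x, 0 ≤ primeFn N W b R L x := fun x => by unfold primeFn; split_ifs <;> positivity
  have h1 : ∀ x, primeFn N W b R L x ≤ L := fun x => by
    unfold primeFn; split_ifs
    · exact le_rfl
    · exact hL
  have h2 : ∀ x y : ZMod N, primeFn N W b R L x * primeFn N W b R L y *
      primeFn N W b R L (2 * y - x) ≤ if x = y then L ^ 3 else 0 := by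
    intro x y
    split_ifs with hxy
    · have : L ^ 3 = L * L * L := by ring
      rw [this]
      have := h0 x; have := h0 y; have := h0 (2 * y - x)
      have := h1 x; have := h1 y; have := h1 (2 * y - x)
      gcongr
    · apply le_of_eq
      unfold primeFn
      split_ifs with a1 a2 a3 <;> try simp
      exfalso
      apply h
      have hne : x.val ≠ y.val := fun h => hxy (ZMod.val_injective N h)
      have hs : x.val + (2 * y - x).val = 2 * y.val := by
        have : ((x.val + (2 * y - x).val : ℕ) : ZMod N) = ((2 * y.val : ℕ) : ZMod N) := by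
          push_cast
          simp only [ZMod.natCast_zmod_val]
          ring
        have := (ZMod.natCast_eq_natCast_iff' _ _ _).mp this
        rwa [Nat.mod_eq_of_lt (by omega), Nat.mod_eq_of_lt (by omega)] at this
      obtain ⟨u, hu⟩ : ∃ u, u = (2 * y - x).val := ⟨_, rfl⟩
      rw [← hu] at hs a3
      have hs' : W * x.val + W * u = 2 * (W * y.val) := by rw [← mul_add, hs]; ring
      rcases Nat.lt_or_gt_of_ne hne with hlt | hlt
      · have := Nat.mul_lt_mul_of_pos_left hlt hW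
        exact ⟨_, _, _, a1.2.1, a2.2.1, a3.2.1, a1.2.2, by omega, by omega, by omega⟩
      · have := Nat.mul_lt_mul_of_pos_left hlt hW
        exact ⟨_, _, _, a3.2.1, a2.2.1, a1.2.1, a3.2.2, by omega, by omega, by omega⟩
  refine (Finset.sum_le_sum fun x _ => Finset.sum_le_sum fun y _ => h2 x y).trans (le_of_eq ?_)
  simp [ZMod.card]

lemma six_mul_le {J : ℕ} (hJ : 5 ≤ J) : 6 * J ≤ 2 ^ J := by
  induction J, hJ using Nat.le_induction with
  | base => norm_num
  | succ n hn ih => rw [pow_succ]; omega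

/-- There are three-term arithmetic progressions of arbitrarily large primes. -/
theorem exists_primes_threeAP (M₀ : ℕ) :
    ∃ p q r : ℕ, p.Prime ∧ q.Prime ∧ r.Prime ∧ M₀ < p ∧ p < q ∧ q < r ∧ p + r = 2 * q := by
  obtain ⟨c, θ, hc, hθ, J₀, M, hT⟩ := transference (δ := 1 / 432) (by norm_num)
  obtain ⟨y₀, hy⟩ := PI_step
  obtain ⟨s₀, hs1, hs2⟩ : ∃ s₀ : ℕ, 2 / θ ≤ s₀ ∧ y₀ < s₀ :=
    ⟨⌈2 / θ⌉₊ + y₀ + 1, by push_cast; linarith [Nat.le_ceil (2 / θ), Nat.cast_nonneg (α := ℝ) y₀],
      by omega⟩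
  have hs0 : 0 < s₀ := by omega
  have hs0' : (0 : ℝ) < s₀ := by exact_mod_cast hs0
  obtain ⟨C, hC⟩ : ∃ C : ℕ, C = 16 + M₀ + M + J₀ + s₀ ^ 2 + primorial (s₀ ^ 2) + 4 * s₀ +
    ⌈1 / c⌉₊ := ⟨_, rfl⟩
  obtain ⟨R, hRdef⟩ : ∃ R : ℕ, R = 2 ^ (2 ^ C) := ⟨_, rfl⟩
  have hCR : C * 32 ^ C ≤ R := by
    calc C * 32 ^ C ≤ 2 ^ C * 32 ^ C := by gcongr; exact Nat.lt_two_pow_self.le
      _ = 2 ^ (6 * C) := by rw [← mul_pow, pow_mul]; norm_num
      _ ≤ R := by rw [hRdef]; exact Nat.pow_le_pow_right (by norm_num) (six_mul_le (by omega))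
  have hCR' : C ≤ R := le_trans (Nat.le_mul_of_pos_right _ (by positivity)) hCR
  obtain ⟨N, hN, hN1, hN2⟩ := Nat.exists_prime_lt_and_le_two_mul (R ^ 8) (by
    have : 0 < R := by omega
    positivity)
  have : NeZero N := ⟨hN.ne_zero⟩
  have hRN : R ≤ R ^ 8 := Nat.le_self_pow (by norm_num) R
  obtain ⟨b, hb⟩ := exists_class (w := s₀ ^ 2) (R := R) (N := N) (by omega) (by omega) (by omega)
    hN1 hN2
  have hR1 : (1 : ℝ) ≤ R := by exact_mod_cast (by omega : 1 ≤ R)
  have hlog : Real.log (R + 1) ≤ 2 ^ C := by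
    have a1 : Real.log (R + 1) ≤ Real.log (2 * R) := Real.log_le_log (by linarith) (by linarith)
    have a2 : Real.log (2 * R) = (2 ^ C + 1) * Real.log 2 := by
      rw [hRdef]
      push_cast
      rw [← pow_succ', Real.log_pow]
      push_cast
      ring
    have a3 := Real.log_two_lt_d9
    have a4 : (16 : ℝ) ≤ 2 ^ C := by
      have : 16 ≤ 2 ^ C := le_trans (by omega) (Nat.lt_two_pow_self (n := C)).le
      exact_mod_cast this
    nlinarith
  have hCRr : (C : ℝ) * 32 ^ C ≤ R := by exact_mod_cast hCR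
  have hN1r : (R : ℝ) ^ 8 ≤ N := by exact_mod_cast hN1.le
  have hmaj := majorised_primeFn hy (s₀ := s₀) (J := C) (R := R) (N := N) (b := b) (θ := θ) hs0
    (le_trans hs2.le (Nat.le_self_pow (by norm_num) _))
    (by rw [div_le_iff₀ hθ] at hs1; rw [div_le_iff₀ hs0']; linarith) (by omega) hlog
    (by
      have a1 : 4 * (s₀ : ℝ) ≤ C := by exact_mod_cast (by omega : 4 * s₀ ≤ C)
      calc 4 * (s₀ : ℝ) * 32 ^ C * (R : ℝ) ^ 6 ≤ C * 32 ^ C * (R : ℝ) ^ 6 := by gcongr
        _ ≤ R * (R : ℝ) ^ 6 := by gcongr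
        _ = (R : ℝ) ^ 7 := by ring
        _ ≤ (R : ℝ) ^ 8 := pow_le_pow_right₀ hR1 (by norm_num)
        _ ≤ N := hN1r)
  have hcnt := hT N hN (by omega) C (by omega) _ hmaj hb
  by_contra hno
  have hPI := one_le_PI (s₀ ^ 2)
  have hlog0 : 0 ≤ Real.log (R + 1) := Real.log_nonneg (by linarith)
  have hle := cnt_le_of_noAP (N := N) (W := primorial (s₀ ^ 2)) (b := b) (R := R)
    (L := Real.log (R + 1) / (4 * PI (s₀ ^ 2))) (by positivity) (primorial_pos _) (by
      rintro ⟨p, q, r, h1, h2, h3, h4, h5⟩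
      exact hno ⟨p, q, r, h1, h2, h3, by omega, h5⟩)
  have hL1 : Real.log (R + 1) / (4 * PI (s₀ ^ 2)) ≤ 2 ^ C := by
    refine le_trans ?_ hlog
    rw [div_le_iff₀ (by positivity)]
    nlinarith
  have hNp := Npos (N := N)
  have b1 : c * (N : ℝ) ^ 2 ≤ N * ((2 : ℝ) ^ C) ^ 3 := hcnt.trans (hle.trans (by gcongr))
  have b2 : c * N ≤ ((2 : ℝ) ^ C) ^ 3 := by
    apply le_of_mul_le_mul_left _ hNp
    linarith
  have b3 : ((2 : ℝ) ^ C) ^ 3 ≤ 32 ^ C := by
    rw [← pow_mul, mul_comm, pow_mul]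
    gcongr
    norm_num
  have b4 : 1 / c ≤ C := (Nat.le_ceil _).trans (by exact_mod_cast (by omega))
  have b5 : (R : ℝ) < N := by exact_mod_cast lt_of_le_of_lt hRN hN1
  rw [div_le_iff₀ hc] at b4
  have b6 : (0 : ℝ) < 32 ^ C := by positivity
  nlinarith

end Pool.Agent.Lib.helper22.AP3
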