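import Pool.Agent.Lib.helper22.Pade

set_option autoImplicit false

open Polynomial NumberField Height Real Filter

namespace Pool.Agent.Lib.helper22.Unit

variable {K : Type*} [Field K] [NumberField K]

omit [NumberField K] in
lemma inf_aeval_le (v : InfinitePlace K) {P : ℤ[X]} {B : ℝ} {D : ℕ} (hD : P.natDegree ≤ D)
    (hB : Bd P B) (A : K) : v (aeval A P) ≤ (D + 1) * B * max (v A) 1 ^ D := by
  rw [aeval_eq_sum_range' (Nat.lt_succ_of_le hD)]
  refine (v.1.sum_le _ _).trans ?_
  calc _ ≤ ∑ _i ∈ Finset.range (D + 1), B * max (v A) 1 ^ D := by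
        refine Finset.sum_le_sum fun i hi => ?_
        rw [zsmul_eq_mul, map_mul, map_pow]
        refine mul_le_mul ?_ ?_ (by positivity) hB.nonneg
        · have := v.map_intCast (P.coeff i)
          rw [InfinitePlace.coe_apply] at this
          rw [this, Int.norm_eq_abs]; exact hB i
        · exact (pow_le_pow_left₀ (v.1.nonneg _) (le_max_left _ _) _).trans
            (pow_le_pow_right₀ (le_max_right _ _) (by simpa [Nat.lt_succ_iff] using hi))
    _ = _ := by simp; ring

lemma fin_sum_le (v : FinitePlace K) {ι : Type*} (s : Finset ι) (f : ι → K) {B : ℝ} (hB : 0 ≤ B)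
    (h : ∀ i ∈ s, v (f i) ≤ B) : v (∑ i ∈ s, f i) ≤ B := by
  classical
  induction s using Finset.induction_on with
  | empty => simpa using hB
  | insert j s hj ih =>
    rw [Finset.sum_insert hj]
    exact (v.add_le _ _).trans (max_le (h j (Finset.mem_insert_self _ _))
      (ih fun i hi => h i (Finset.mem_insert_of_mem hi)))

lemma fin_int_le (v : FinitePlace K) (z : ℤ) : v z ≤ 1 :=
  IsNonarchimedean.apply_intCast_le_one (f := v.1) v.add_le

lemma fin_aeval_le (v : FinitePlace K) {P : ℤ[X]} {D : ℕ} (hD : P.natDegree ≤ D) (A : K) :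
    v (aeval A P) ≤ max (v A) 1 ^ D := by
  rw [aeval_eq_sum_range' (Nat.lt_succ_of_le hD)]
  refine fin_sum_le v _ _ (by positivity) fun i hi => ?_
  rw [zsmul_eq_mul, map_mul, map_pow]
  refine (mul_le_of_le_one_left (by positivity) (fin_int_le v _)).trans ?_
  exact (pow_le_pow_left₀ (apply_nonneg _ _) (le_max_left _ _) _).trans
    (pow_le_pow_right₀ (le_max_right _ _) (by simpa [Nat.lt_succ_iff] using hi))

lemma fin_supp_max (x : K) : (fun v : FinitePlace K => max (v x) 1).HasFiniteMulSupport := by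
  rcases eq_or_ne x 0 with rfl | hx
  · simp [Function.HasFiniteMulSupport]
  · exact (FinitePlace.hasFiniteMulSupport hx).max Function.hasFiniteMulSupport_one

lemma height_div_le {p q a b A : K} (hp : p ≠ 0) (hq : q ≠ 0) {C : ℝ} (hC : 0 < C) (D : ℕ)
    (h1 : ∀ v : InfinitePlace K, max (v p) (v q) ≤ C * (max (v a) 1 * max (v b) 1 * max (v A) 1 ^ D))
    (h2 : ∀ v : FinitePlace K, max (v p) (v q) ≤ max (v a) 1 * max (v b) 1 * max (v A) 1 ^ D) :
    logHeight₁ (p / q) ≤ totalWeight K * log C + logHeight₁ a + logHeight₁ b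
      + D * logHeight₁ A := by
  have key : mulHeight₁ (p / q) ≤ C ^ totalWeight K * mulHeight₁ a * mulHeight₁ b
      * mulHeight₁ A ^ D := by
    have hs : ∀ f : K → ℝ, ⨆ i, f (![p, q] i) = max (f p) (f q) := fun f =>
      eq_of_forall_ge_iff <| by simp [ciSup_le_iff, Fin.forall_fin_two]
    rw [mulHeight₁_div_eq_mulHeight, NumberField.mulHeight_eq (by simp [hp])]
    simp only [hs, NumberField.mulHeight₁_eq]
    have e1 : ∏ v : InfinitePlace K, max (v p) (v q) ^ v.mult ≤ C ^ totalWeight K *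
        ((∏ v : InfinitePlace K, max (v a) 1 ^ v.mult) * (∏ v : InfinitePlace K, max (v b) 1 ^ v.mult)
          * (∏ v : InfinitePlace K, max (v A) 1 ^ v.mult) ^ D) := by
      rw [totalWeight_eq_sum_mult, ← Finset.prod_pow_eq_pow_sum, ← Finset.prod_pow,
        ← Finset.prod_mul_distrib, ← Finset.prod_mul_distrib, ← Finset.prod_mul_distrib]
      refine Finset.prod_le_prod (fun v _ => by positivity) fun v _ => ?_
      rw [← pow_mul, mul_comm v.mult D, pow_mul, ← mul_pow, ← mul_pow, ← mul_pow]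
      exact pow_le_pow_left₀ (by positivity) (h1 v) _
    have e2 : ∏ᶠ v : FinitePlace K, max (v p) (v q) ≤ (∏ᶠ v : FinitePlace K, max (v a) 1) *
        (∏ᶠ v : FinitePlace K, max (v b) 1) * (∏ᶠ v : FinitePlace K, max (v A) 1) ^ D := by
      rw [finprod_pow (fin_supp_max A), ← finprod_mul_distrib (fin_supp_max a) (fin_supp_max b),
        ← finprod_mul_distrib (f := fun v : FinitePlace K => max (v a) 1 * max (v b) 1)
          (g := fun v : FinitePlace K => max (v A) 1 ^ D)
          ((fin_supp_max a).mul (fin_supp_max b)) ((fin_supp_max A).pow D)]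
      exact finprod_le_finprod ((FinitePlace.hasFiniteMulSupport hp).max
        (FinitePlace.hasFiniteMulSupport hq)) (fun v => by positivity)
        (((fin_supp_max a).mul (fin_supp_max b)).mul ((fin_supp_max A).pow D)) h2
    refine (mul_le_mul e1 e2 (finprod_nonneg fun v => by positivity) (by positivity)).trans
      (le_of_eq ?_)
    ring
  simp only [logHeight₁_eq_log_mulHeight₁]
  rw [← log_pow, ← log_pow, ← log_mul (by positivity) (by positivity),
    ← log_mul (by positivity) (by positivity), ← log_mul (by positivity) (by positivity)]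
  exact log_le_log (by positivity) key

variable (K) in
/-- The key inequality of Beukers and Schlickewei. -/
theorem key_ineq : ∃ C : ℝ, 0 ≤ C ∧ ∀ (ρ : ℕ) (a b A : K), A ≠ 0 →
    a * A ^ (2 * ρ + 1) + b * (1 - A) ^ (2 * ρ + 1) = 1 →
      ρ * logHeight₁ A ≤ logHeight₁ a + logHeight₁ b + C * (ρ + 1) := by
  obtain ⟨C₀, hC₀, h⟩ := pade
  refine ⟨totalWeight K * (C₀ + 4), by positivity, fun ρ a b A hA hab => ?_⟩
  obtain ⟨E, V, W, c, hc, h1, h2⟩ := h ρ
  have hid : ∀ i, A ^ (2 * ρ + 1) * aeval A (E i) + (1 - A) ^ (2 * ρ + 1) * aeval A (V i)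
      = aeval A (W i) := by
    intro i
    have := congrArg (aeval A) (h1 i).2.2.2.2.2.2
    simpa using this
  have hdet : aeval A (E 0) * aeval A (V 1) - aeval A (V 0) * aeval A (E 1) = c := by
    have := congrArg (aeval A) h2
    simpa using this
  have hc' : (c : K) ≠ 0 := Int.cast_ne_zero.mpr hc
  obtain ⟨i, hi⟩ : ∃ i, a * aeval A (V i) - b * aeval A (E i) ≠ 0 := by
    by_contra! hcon
    have ha : a * c = 0 := by
      rw [← hdet]; linear_combination aeval A (E 0) * hcon 1 - aeval A (E 1) * hcon 0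
    have hb : b * c = 0 := by
      rw [← hdet]; linear_combination aeval A (V 0) * hcon 1 - aeval A (V 1) * hcon 0
    rw [(mul_eq_zero.mp ha).resolve_right hc', (mul_eq_zero.mp hb).resolve_right hc'] at hab
    simp at hab
  obtain ⟨dE, dV, dW, bE, bV, bW, -⟩ := h1 i
  have hpq : A ^ (2 * ρ + 1) * (a * aeval A (V i) - b * aeval A (E i))
      = aeval A (V i) - b * aeval A (W i) := by
    linear_combination aeval A (V i) * hab - b * hid i
  have hp : aeval A (V i) - b * aeval A (W i) ≠ 0 := by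
    rw [← hpq]; exact mul_ne_zero (pow_ne_zero _ hA) hi
  set B := exp (C₀ * (ρ + 1)) with hB
  have hB0 : 0 < B := exp_pos _
  have h3 := height_div_le (a := a) (b := b) (A := A) hp hi
    (C := 2 * ((((ρ + 1 : ℕ) : ℝ) + 1) * B)) (by positivity) (ρ + 1) (by
      intro v
      have e1 := inf_aeval_le v dE bE A
      have e2 := inf_aeval_le v dV bV A
      have e3 := inf_aeval_le v dW bW A
      set T := (((ρ + 1 : ℕ) : ℝ) + 1) * B * max (v A) 1 ^ (ρ + 1) with hT
      have hT0 : 0 ≤ T := by positivity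
      have ma1 := le_max_left (v a) 1
      have ma2 := le_max_right (v a) 1
      have mb1 := le_max_left (v b) 1
      have mb2 := le_max_right (v b) 1
      have g : 2 * ((((ρ + 1 : ℕ) : ℝ) + 1) * B) * (max (v a) 1 * max (v b) 1
        * max (v A) 1 ^ (ρ + 1)) = (max (v a) 1 * max (v b) 1) * T
          + (max (v a) 1 * max (v b) 1) * T := by rw [hT]; ring
      have m1 : 1 ≤ max (v a) 1 * max (v b) 1 := one_le_mul_of_one_le_of_one_le ma2 mb2
      have m2 : v a ≤ max (v a) 1 * max (v b) 1 :=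
        ma1.trans (le_mul_of_one_le_right (by positivity) mb2)
      have m3 : v b ≤ max (v a) 1 * max (v b) 1 :=
        mb1.trans (le_mul_of_one_le_left (by positivity) ma2)
      rw [g]
      refine max_le ((v.1.sub_le_add _ _).trans (add_le_add ?_ ?_))
        ((v.1.sub_le_add _ _).trans (add_le_add ?_ ?_))
      · exact e2.trans (le_mul_of_one_le_left hT0 m1)
      · rw [map_mul]; exact mul_le_mul m3 e3 (v.1.nonneg _) (by positivity)
      · rw [map_mul]; exact mul_le_mul m2 e2 (v.1.nonneg _) (by positivity)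
      · rw [map_mul]; exact mul_le_mul m3 e1 (v.1.nonneg _) (by positivity)) (by
      intro v
      have e1 := fin_aeval_le v dE A
      have e2 := fin_aeval_le v dV A
      have e3 := fin_aeval_le v dW A
      have ma1 := le_max_left (v a) 1
      have ma2 := le_max_right (v a) 1
      have mb1 := le_max_left (v b) 1
      have mb2 := le_max_right (v b) 1
      have m1 : 1 ≤ max (v a) 1 * max (v b) 1 := one_le_mul_of_one_le_of_one_le ma2 mb2
      have m2 : v a ≤ max (v a) 1 * max (v b) 1 :=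
        ma1.trans (le_mul_of_one_le_right (by positivity) mb2)
      have m3 : v b ≤ max (v a) 1 * max (v b) 1 :=
        mb1.trans (le_mul_of_one_le_left (by positivity) ma2)
      have hs : ∀ x y : K, v (x - y) ≤ max (v x) (v y) := fun x y => by
        have := v.add_le x (-y)
        rwa [← sub_eq_add_neg, show v (-y) = v y from v.1.map_neg y] at this
      refine max_le ((hs _ _).trans (max_le ?_ ?_)) ((hs _ _).trans (max_le ?_ ?_))
      · exact e2.trans (le_mul_of_one_le_left (by positivity) m1)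
      · rw [map_mul]; exact mul_le_mul m3 e3 (apply_nonneg _ _) (by positivity)
      · rw [map_mul]; exact mul_le_mul m2 e2 (apply_nonneg _ _) (by positivity)
      · rw [map_mul]; exact mul_le_mul m3 e1 (apply_nonneg _ _) (by positivity))
  rw [← hpq, mul_div_cancel_right₀ _ hi, logHeight₁_pow] at h3
  have h4 : log (2 * ((((ρ + 1 : ℕ) : ℝ) + 1) * B)) ≤ (C₀ + 4) * (ρ + 1) := by
    rw [← mul_assoc, log_mul (by positivity) hB0.ne', hB, log_exp]
    have := log_le_sub_one_of_pos (show (0 : ℝ) < 2 * (((ρ + 1 : ℕ) : ℝ) + 1) by positivity)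
    push_cast at this ⊢
    have : (0 : ℝ) ≤ ρ := Nat.cast_nonneg _
    nlinarith
  have h5 := mul_le_mul_of_nonneg_left h4 (Nat.cast_nonneg (totalWeight K))
  push_cast at h3 h5
  nlinarith

lemma posLog_le_inf (v : InfinitePlace K) (x : K) : log⁺ (v x) ≤ logHeight₁ x := by
  rw [NumberField.logHeight₁_eq]
  have h1 : 0 ≤ ∑ᶠ v : FinitePlace K, log⁺ (v x) := finsum_nonneg fun _ => posLog_nonneg
  have h2 := Finset.single_le_sum (f := fun w : InfinitePlace K => (w.mult : ℝ) * log⁺ (w x))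
    (fun w _ => mul_nonneg (Nat.cast_nonneg _) posLog_nonneg) (Finset.mem_univ v)
  have h3 : (1 : ℝ) ≤ v.mult := Nat.one_le_cast.mpr InfinitePlace.mult_pos
  have h4 : log⁺ (v x) ≤ v.mult * log⁺ (v x) := le_mul_of_one_le_left posLog_nonneg h3
  linarith

lemma posLog_le_fin (v : FinitePlace K) {x : K} (hx : x ≠ 0) : log⁺ (v x) ≤ logHeight₁ x := by
  rw [NumberField.logHeight₁_eq]
  have h1 : 0 ≤ ∑ w : InfinitePlace K, (w.mult : ℝ) * log⁺ (w x) :=
    Finset.sum_nonneg fun w _ => mul_nonneg (Nat.cast_nonneg _) posLog_nonneg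
  have h2 := single_le_finsum (f := fun w : FinitePlace K => log⁺ (w x)) v
    ((FinitePlace.hasFiniteMulSupport hx).subset fun w hw h => hw (by
      simp only at h; simp [h])) fun _ => posLog_nonneg
  linarith

lemma abs_log_le_of_posLog {t h : ℝ} (h1 : log⁺ t ≤ h) (h2 : log⁺ t⁻¹ ≤ h) : |log t| ≤ h := by
  rw [posLog_apply] at h1 h2
  rw [log_inv] at h2
  rw [abs_le]
  constructor <;> linarith [le_max_right 0 (log t), le_max_right 0 (-log t)]

/-- logarithmic embedding at the places in `S` and at infinity -/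
noncomputable def lv (S : Finset (FinitePlace K)) (x : K) : InfinitePlace K ⊕ S → ℝ :=
  Sum.elim (fun v => log (v x)) fun v => log (v.1 x)

lemma lv_mul (S : Finset (FinitePlace K)) {x y : K} (hx : x ≠ 0) (hy : y ≠ 0) :
    lv S (x * y) = lv S x + lv S y := by
  funext j
  rcases j with v | v
  · simp only [lv, Sum.elim_inl, map_mul, Pi.add_apply]
    exact log_mul (by simpa using hx) (by simpa using hy)
  · simp only [lv, Sum.elim_inr, map_mul, Pi.add_apply]
    exact log_mul (by simpa using hx) (by simpa using hy)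

lemma lv_pow (S : Finset (FinitePlace K)) (x : K) (n : ℕ) : lv S (x ^ n) = (n : ℝ) • lv S x := by
  funext j
  rcases j with v | v <;> simp [lv]

lemma norm_lv_le (S : Finset (FinitePlace K)) {x : K} (hx : x ≠ 0) : ‖lv S x‖ ≤ logHeight₁ x := by
  refine (pi_norm_le_iff_of_nonneg (zero_le_logHeight₁ x)).mpr fun j => ?_
  rcases j with v | v
  · refine abs_log_le_of_posLog (posLog_le_inf v x) ?_
    rw [← map_inv₀, ← logHeight₁_inv]; exact posLog_le_inf v _
  · refine abs_log_le_of_posLog (posLog_le_fin v.1 hx) ?_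
    rw [← map_inv₀, ← logHeight₁_inv]; exact posLog_le_fin v.1 (inv_ne_zero hx)

lemma height_le_lv (S : Finset (FinitePlace K)) {x : K} (hx : ∀ v ∉ S, v x = 1) :
    logHeight₁ x ≤ (totalWeight K + S.card) * ‖lv S x‖ := by
  have hp : ∀ t : ℝ, log⁺ t ≤ |log t| := fun t => max_le (abs_nonneg _) (le_abs_self _)
  rw [NumberField.logHeight₁_eq, add_mul, totalWeight_eq_sum_mult, Nat.cast_sum, Finset.sum_mul]
  refine add_le_add (Finset.sum_le_sum fun v _ => mul_le_mul_of_nonneg_left
    ((hp _).trans (norm_le_pi_norm (lv S x) (Sum.inl v))) (Nat.cast_nonneg _)) ?_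
  rw [finsum_eq_sum_of_support_subset (s := S) _ fun v hv => by
    by_contra h
    exact hv (by simp [hx v h])]
  rw [← nsmul_eq_mul, ← Finset.sum_const]
  exact Finset.sum_le_sum fun v hv => (hp _).trans (norm_le_pi_norm (lv S x) (Sum.inr ⟨v, hv⟩))

/-- Finiteness of the number of solutions of the `S`-unit equation. -/
theorem unit_equation_finite (S : Finset (FinitePlace K)) :
    {x : K | x ≠ 0 ∧ 1 - x ≠ 0 ∧ (∀ v ∉ S, v x = 1) ∧ ∀ v ∉ S, v (1 - x) = 1}.Finite := by
  classical
  by_contra hinf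
  set Sol := {x : K | x ≠ 0 ∧ 1 - x ≠ 0 ∧ (∀ v ∉ S, v x = 1) ∧ ∀ v ∉ S, v (1 - x) = 1} with hSol
  obtain ⟨C, hC0, hC⟩ := key_ineq K
  set c : ℝ := totalWeight K + S.card + 1 with hc
  have hc0 : 0 < c := by positivity
  set κ : ℝ := totalWeight K * log 2 with hκ
  have hκ0 : 0 ≤ κ := mul_nonneg (Nat.cast_nonneg _) (log_nonneg one_le_two)
  set μ : K → (InfinitePlace K ⊕ S → ℝ) × (InfinitePlace K ⊕ S → ℝ) :=
    fun x => (lv S x, lv S (1 - x)) with hμ
  have hh : ∀ x : K, (∀ v ∉ S, v x = 1) → logHeight₁ x ≤ c * ‖lv S x‖ := fun x hx =>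
    (height_le_lv S hx).trans (mul_le_mul_of_nonneg_right (by linarith) (norm_nonneg _))
  set ε : ℝ := 1 / (40 * c) with hε
  have hε0 : 0 < ε := by positivity
  obtain ⟨t, -, htf, hcov⟩ := (isCompact_closedBall
    (0 : (InfinitePlace K ⊕ S → ℝ) × (InfinitePlace K ⊕ S → ℝ)) 1).finite_cover_balls hε0
  set dir := fun x : K => ‖μ x‖⁻¹ • μ x with hdir
  have hdirn : ∀ x, ‖dir x‖ ≤ 1 := by
    intro x
    rw [hdir]; simp only
    rw [norm_smul, norm_inv, norm_norm]
    exact inv_mul_le_one_of_le₀ le_rfl (norm_nonneg _)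
  obtain ⟨y, hy⟩ : ∃ y, {x ∈ Sol | dir x ∈ Metric.ball y ε}.Infinite := by
    by_contra! hfin
    refine hinf ((htf.biUnion fun y _ => hfin y).subset fun x hx => ?_)
    have := hcov (mem_closedBall_zero_iff.mpr (hdirn x))
    simp only [Set.mem_iUnion] at this ⊢
    obtain ⟨y, hy, hxy⟩ := this
    exact ⟨y, hy, hx, hxy⟩
  have hbig : ∀ T : ℝ, ∃ x ∈ Sol, dir x ∈ Metric.ball y ε ∧ T ≤ ‖μ x‖ := by
    intro T
    by_contra! hcon
    refine hy ((finite_setOfPred_logHeight₁_le K (c * T)).subset fun x hx => ?_)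
    exact (hh x hx.1.2.2.1).trans (mul_le_mul_of_nonneg_left
      ((norm_fst_le (μ x)).trans (hcon x hx.1 hx.2).le) hc0.le)
  obtain ⟨A, ⟨hA0, hA1, hA2, hA3⟩, hAy, hAn⟩ := hbig (4 * (κ + 2 * C) + 1)
  set nA := ‖μ A‖ with hnA
  have hnA0 : 0 < nA := by linarith
  obtain ⟨x, ⟨hx0, hx1, hx2, hx3⟩, hxy, hxn⟩ := hbig ((32 * c + 5) * nA)
  set nx := ‖μ x‖ with hnx
  have hnx0 : 0 < nx := lt_of_lt_of_le (by positivity) hxn
  set ρ : ℕ := ⌊(nx / nA - 1) / 2⌋₊ with hρ
  have hq : 32 * c + 5 ≤ nx / nA := by rwa [le_div_iff₀ hnA0]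
  have hρ1 : (ρ : ℝ) ≤ (nx / nA - 1) / 2 := Nat.floor_le (by linarith)
  have hρ2 : (nx / nA - 1) / 2 < ρ + 1 := Nat.lt_floor_add_one _
  have hρ3 : (2 * ρ + 1) * nA ≤ nx := by rw [← le_div_iff₀ hnA0]; linarith
  have hρ4 : nx ≤ (2 * ρ + 3) * nA := by rw [← div_le_iff₀ hnA0]; linarith
  have hρ5 : 16 * c + 1 < ρ := by linarith
  set N := 2 * ρ + 1 with hN
  have hNR : (N : ℝ) = 2 * ρ + 1 := by rw [hN]; push_cast; ring
  set a := x / A ^ N with ha
  set b := (1 - x) / (1 - A) ^ N with hb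
  have ha0 : a ≠ 0 := div_ne_zero hx0 (pow_ne_zero _ hA0)
  have hb0 : b ≠ 0 := div_ne_zero hx1 (pow_ne_zero _ hA1)
  have hxa : a * A ^ N = x := div_mul_cancel₀ _ (pow_ne_zero _ hA0)
  have hxb : b * (1 - A) ^ N = 1 - x := div_mul_cancel₀ _ (pow_ne_zero _ hA1)
  have h1 := hC ρ a b A hA0 (by rw [hxa, hxb]; ring)
  have hab : (lv S a, lv S b) = μ x - (N : ℝ) • μ A := by
    have e1 := lv_mul S ha0 (pow_ne_zero N hA0)
    have e2 := lv_mul S hb0 (pow_ne_zero N hA1)
    rw [hxa, lv_pow] at e1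
    rw [hxb, lv_pow] at e2
    simp only [hμ, e1, e2, Prod.smul_mk, Prod.mk_sub_mk, add_sub_cancel_right]
  have hnorm : ‖μ x - (N : ℝ) • μ A‖ ≤ 2 * ε * nx + 2 * nA := by
    have e1 : μ x - (N : ℝ) • μ A = nx • (dir x - dir A) + (nx - N * nA) • dir A := by
      have f1 : nx • dir x = μ x := smul_inv_smul₀ hnx0.ne' _
      have f2 : nA • dir A = μ A := smul_inv_smul₀ hnA0.ne' _
      rw [smul_sub, sub_smul, mul_smul, f1, f2]
      abel
    have e2 : ‖dir x - dir A‖ ≤ 2 * ε := by
      rw [← dist_eq_norm]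
      have := dist_triangle_right (dir x) (dir A) y
      linarith [Metric.mem_ball.mp hxy, Metric.mem_ball.mp hAy]
    rw [e1]
    refine (norm_add_le _ _).trans (add_le_add ?_ ?_)
    · rw [norm_smul, Real.norm_of_nonneg hnx0.le, mul_comm]
      exact mul_le_mul_of_nonneg_right e2 hnx0.le
    · rw [norm_smul, Real.norm_of_nonneg (by rw [hNR]; linarith)]
      refine (mul_le_of_le_one_right (by rw [hNR]; linarith) (hdirn A)).trans ?_
      rw [hNR]; linarith
  rw [← hab] at hnorm
  have h2 : logHeight₁ a ≤ c * (2 * ε * nx + 2 * nA) := by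
    refine (hh a fun v hv => ?_).trans (mul_le_mul_of_nonneg_left
      ((norm_fst_le (lv S a, lv S b)).trans hnorm) hc0.le)
    rw [ha, map_div₀, map_pow, hx2 v hv, hA2 v hv]; simp
  have h3 : logHeight₁ b ≤ c * (2 * ε * nx + 2 * nA) := by
    refine (hh b fun v hv => ?_).trans (mul_le_mul_of_nonneg_left
      ((norm_snd_le (lv S a, lv S b)).trans hnorm) hc0.le)
    rw [hb, map_div₀, map_pow, hx3 v hv, hA3 v hv]; simp
  have h4 : nA ≤ logHeight₁ A + κ := by
    rw [hnA, hμ, Prod.norm_def]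
    refine max_le ((norm_lv_le S hA0).trans (by linarith)) ((norm_lv_le S hA1).trans ?_)
    have := logHeight₁_sub_le 1 A
    rw [logHeight₁_one] at this
    linarith
  have h5 : c * (2 * ε * nx) = nx / 20 := by rw [hε]; field_simp; norm_num
  have hρ0 : (1 : ℝ) ≤ ρ := by linarith
  have h6 : ρ * (nA - κ) ≤ ρ * logHeight₁ A := mul_le_mul_of_nonneg_left (by linarith) (by linarith)
  have h7 : nx / 10 ≤ ρ * nA / 2 := by nlinarith
  have h8 : C * (ρ + 1) ≤ ρ * (2 * C) := by nlinarith
  have h9 : ρ * (κ + 2 * C) ≤ ρ * (nA / 4) := mul_le_mul_of_nonneg_left (by linarith) (by linarith)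
  have h10 : ρ * nA ≤ 16 * c * nA := by nlinarith
  nlinarith

end Pool.Agent.Lib.helper22.Unit
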