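import Pool.Agent.Lib.helper22.Inertia
import Pool.Agent.Lib.helper22.UnitEq

set_option autoImplicit false

open NumberField IsDedekindDomain WithZero Polynomial

namespace Pool.Agent.Lib.helper22.Val

lemma unit_eq_finite {M : Type*} [Field M] [NumberField M] (T : Set (HeightOneSpectrum (𝓞 M)))
    (hT : T.Finite) : {x : M | x ≠ 0 ∧ 1 - x ≠ 0 ∧ (∀ v ∉ T, v.valuation M x = 1) ∧
      ∀ v ∉ T, v.valuation M (1 - x) = 1}.Finite := by
  have h : {v : FinitePlace M | v.maximalIdeal ∈ T}.Finite :=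
    hT.preimage FinitePlace.maximalIdeal_injective.injOn
  refine (Unit.unit_equation_finite h.toFinset).subset fun x hx => ⟨hx.1, hx.2.1, fun v hv => ?_,
    fun v hv => ?_⟩
  · rw [finitePlace_eq_one_iff]
    exact hx.2.2.1 _ (by simpa using hv)
  · rw [finitePlace_eq_one_iff]
    exact hx.2.2.2 _ (by simpa using hv)

lemma val_sub_eq_one {M Γ : Type*} [Field M] [LinearOrderedCommGroupWithZero Γ] (v : Valuation M Γ)
    {a b : M} {l : ℕ} (ha : v a ≤ 1) (hb : v b ≤ 1) (h : v (a ^ l - b ^ l) = 1) :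
    v (a - b) = 1 := by
  refine le_antisymm (v.map_sub_le ha hb) ?_
  rw [← (Commute.all a b).geom_sum₂_mul, map_mul] at h
  have : v (∑ i ∈ Finset.range l, a ^ i * b ^ (l - 1 - i)) ≤ 1 := by
    refine v.map_sum_le fun i _ => ?_
    rw [map_mul, map_pow, map_pow]
    exact mul_le_one' (pow_le_one' ha _) (pow_le_one' hb _)
  by_contra hlt
  exact (mul_lt_one_of_nonneg_of_lt_one_right this zero_le (not_le.mp hlt)).ne h

lemma finite_of_roots {M : Type*} [Field M] [NumberField M] (T : Set (HeightOneSpectrum (𝓞 M)))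
    (hT : T.Finite) {l : ℕ} (hl : l ≠ 0) {ζ : M} (hζ : ζ ^ l = 1) (hζ1 : ζ ≠ 1) {a b c : M}
    (hab : a ≠ b) (hac : a ≠ c) (hbc : b ≠ c) :
    {x : M | (∀ v ∉ T, v.valuation M x ≤ 1) ∧ (∃ y, y ^ l = x - a) ∧ (∃ y, y ^ l = x - b) ∧
      ∃ y, y ^ l = x - c}.Finite := by
  set T' : Set (HeightOneSpectrum (𝓞 M)) := T ∪ {v | ¬ v.valuation M a ≤ 1} ∪
    {v | ¬ v.valuation M b ≤ 1} ∪ {v | ¬ v.valuation M c ≤ 1} ∪ {v | v.valuation M (b - a) ≠ 1}
    ∪ {v | v.valuation M (c - a) ≠ 1} ∪ {v | v.valuation M (c - b) ≠ 1} with hT'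
  have hfin : T'.Finite := (((((hT.union (finite_val_gt_one a)).union (finite_val_gt_one b)).union
    (finite_val_gt_one c)).union (finite_val_ne_one (sub_ne_zero.mpr hab.symm))).union
    (finite_val_ne_one (sub_ne_zero.mpr hac.symm))).union
    (finite_val_ne_one (sub_ne_zero.mpr hbc.symm))
  have hU := unit_eq_finite T' hfin
  refine ((hU.prod hU).image fun z => (b * (z.2 - ζ * z.1) ^ l - a * (z.2 - z.1) ^ l)
    / ((z.2 - ζ * z.1) ^ l - (z.2 - z.1) ^ l)).subset ?_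
  rintro x ⟨hx, ⟨y1, h1⟩, ⟨y2, h2⟩, y3, h3⟩
  have h2' : (ζ * y2) ^ l = x - b := by rw [mul_pow, hζ, one_mul, h2]
  have key : ∀ {s t : M} {u v : M}, u ^ l = x - s → v ^ l = x - t → s ≠ t → u - v ≠ 0 := by
    intro s t u v hu hv hst h
    rw [sub_eq_zero] at h
    rw [h, hv] at hu
    exact hst (sub_right_injective hu).symm
  have key2 : ∀ w ∉ T', ∀ {s t : M} {u v : M}, u ^ l = x - s → v ^ l = x - t →
      w.valuation M s ≤ 1 → w.valuation M t ≤ 1 → w.valuation M (t - s) = 1 →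
      w.valuation M (u - v) = 1 := by
    intro w hw s t u v hu hv hs ht hst
    have hw' : w ∉ T := fun h => hw (by simp [hT', h])
    refine val_sub_eq_one (l := l) _ ?_ ?_ (by rw [hu, hv, ← hst]; congr 1; ring)
    · rw [← pow_le_one_iff hl, ← map_pow, hu]
      exact Valuation.map_sub_le _ (hx w hw') hs
    · rw [← pow_le_one_iff hl, ← map_pow, hv]
      exact Valuation.map_sub_le _ (hx w hw') ht
  have h13 := key h1 h3 hac
  have key3 : ∀ y, y ^ l = x - b → (y1 - y) / (y1 - y3) ∈ {x : M | x ≠ 0 ∧ 1 - x ≠ 0 ∧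
      (∀ v ∉ T', v.valuation M x = 1) ∧ ∀ v ∉ T', v.valuation M (1 - x) = 1} := by
    intro y hy
    have e : 1 - (y1 - y) / (y1 - y3) = (y - y3) / (y1 - y3) := by field_simp; ring
    refine ⟨div_ne_zero (key h1 hy hab) h13, by rw [e]; exact div_ne_zero (key hy h3 hbc) h13,
      fun w hw => ?_, fun w hw => ?_⟩
    all_goals
      have hw' := hw
      simp only [hT', Set.mem_union, Set.mem_ofPred_eq, not_or, not_not] at hw'
      obtain ⟨⟨⟨⟨⟨⟨-, e1⟩, e2⟩, e3⟩, e4⟩, e5⟩, e6⟩ := hw'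
    · rw [map_div₀, key2 w hw h1 hy e1 e2 e4, key2 w hw h1 h3 e1 e3 e5, div_one]
    · rw [e, map_div₀, key2 w hw hy h3 e2 e3 e6, key2 w hw h1 h3 e1 e3 e5, div_one]
  refine ⟨((y1 - y2) / (y1 - y3), (y1 - ζ * y2) / (y1 - y3)), ⟨key3 _ h2, key3 _ h2'⟩, ?_⟩
  have e1 : (y1 - ζ * y2) / (y1 - y3) - ζ * ((y1 - y2) / (y1 - y3))
      = y1 * ((1 - ζ) / (y1 - y3)) := by field_simp; ring
  have e2 : (y1 - ζ * y2) / (y1 - y3) - (y1 - y2) / (y1 - y3) = y2 * ((1 - ζ) / (y1 - y3)) := by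
    field_simp; ring
  have e3 : ((1 - ζ) / (y1 - y3)) ^ l ≠ 0 :=
    pow_ne_zero _ (div_ne_zero (sub_ne_zero.mpr hζ1.symm) h13)
  simp only [e1, e2, mul_pow, h1, h2]
  have e4 : b - a ≠ 0 := sub_ne_zero.mpr hab.symm
  rw [div_eq_iff]
  · ring
  · rw [← sub_mul]
    refine mul_ne_zero ?_ e3
    rwa [sub_sub_sub_cancel_left]

/-- Siegel's theorem for superelliptic conditions at three points. -/
theorem siegel_three {K : Type} [Field K] [NumberField K] (S : Set (HeightOneSpectrum (𝓞 K)))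
    (hS : S.Finite) {l : ℕ} (hl : 2 ≤ l) {a b c : K} (hab : a ≠ b) (hac : a ≠ c) (hbc : b ≠ c) :
    {x : K | (∀ v ∉ S, v.valuation K x ≤ 1) ∧ ∀ t ∈ ({a, b, c} : Set K),
      ∀ v ∉ S, (l : ℤ) ∣ log (v.valuation K (x - t))}.Finite := by
  classical
  obtain ⟨R, hR, hsel⟩ := selmer_finite S hS (l := l) (by omega)
  set P : K[X] := ∏ r ∈ insert 1 hR.toFinset, (X ^ l - C r) with hP
  have hP0 : P ≠ 0 := Finset.prod_ne_zero_iff.mpr fun r _ => X_pow_sub_C_ne_zero (by omega) r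
  let M := P.SplittingField
  have : NumberField M := NumberField.of_module_finite K M
  let φ := algebraMap K M
  have hsp : ∀ r ∈ insert 1 hR.toFinset, (X ^ l - C (φ r) : M[X]).Splits := by
    intro r hr
    have h1 : (P.map φ).Splits := SplittingField.splits P
    have h2 : (X ^ l - C r : K[X]).map φ ∣ P.map φ :=
      Polynomial.map_dvd _ (Finset.dvd_prod_of_mem _ hr)
    rw [Polynomial.map_sub, Polynomial.map_pow, map_X, map_C] at h2
    exact h1.of_dvd (Polynomial.map_ne_zero hP0) h2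
  have hroot : ∀ r ∈ R, ∃ y : M, y ^ l = φ r := by
    intro r hr
    obtain ⟨y, hy⟩ := (hsp r (by simp [hr])).exists_eval_eq_zero
      (by rw [degree_X_pow_sub_C (by omega)]; exact_mod_cast (by omega))
    exact ⟨y, by simpa [sub_eq_zero] using hy⟩
  obtain ⟨ζ, hζ, hζ1⟩ : ∃ ζ : M, ζ ^ l = 1 ∧ ζ ≠ 1 := by
    have h1 := hsp 1 (by simp)
    rw [map_one] at h1
    have h2 : (X ^ l - C 1 : M[X]).Separable :=
      separable_X_pow_sub_C 1 (Nat.cast_ne_zero.mpr (by omega)) one_ne_zero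
    have h3 : 1 < (X ^ l - C 1 : M[X]).roots.toFinset.card := by
      rw [Multiset.toFinset_card_of_nodup (nodup_roots h2), ← h1.natDegree_eq_card_roots,
        natDegree_X_pow_sub_C]
      omega
    obtain ⟨ζ, h4, h5⟩ := Finset.exists_mem_ne h3 1
    rw [Multiset.mem_toFinset, mem_roots h2.ne_zero] at h4
    exact ⟨ζ, by simpa [sub_eq_zero] using h4, h5⟩
  choose u e he hu using fun w : HeightOneSpectrum (𝓞 M) => exists_under φ w
  have hT : (u ⁻¹' S).Finite := by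
    choose q hq using fun v : HeightOneSpectrum (𝓞 K) => exists_prime_mem v
    refine (hS.biUnion fun v _ => finite_val_ne_one (L := M) (a := q v)
      (Nat.cast_ne_zero.mpr (hq v).1.ne_zero)).subset fun w hw => ?_
    refine Set.mem_biUnion hw ?_
    change w.valuation M _ ≠ 1
    rw [← map_natCast φ, hu]
    exact (pow_lt_one₀ zero_le ((val_natCast_lt_iff _ _).mpr (hq _).2) (he w).ne').ne
  have hφ : Function.Injective φ := φ.injective
  refine ((finite_of_roots _ hT (show l ≠ 0 by omega) hζ hζ1 (hφ.ne hab) (hφ.ne hac)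
    (hφ.ne hbc)).preimage hφ.injOn).subset fun x hx => ?_
  have key : ∀ t ∈ ({a, b, c} : Set K), ∃ y, y ^ l = φ x - φ t := by
    intro t ht
    rcases eq_or_ne (x - t) 0 with h | h
    · exact ⟨0, by rw [← map_sub, h, map_zero, zero_pow (by omega)]⟩
    obtain ⟨r, hr, s, hs⟩ := hsel _ h (hx.2 t ht)
    obtain ⟨y, hy⟩ := hroot r hr
    exact ⟨y * φ s, by rw [← map_sub, hs, mul_pow, hy, map_mul, map_pow]⟩
  refine ⟨fun w hw => ?_, key a (by simp), key b (by simp), key c (by simp)⟩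
  rw [hu]
  exact pow_le_one' (hx.1 _ hw) _

end Pool.Agent.Lib.helper22.Val
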