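import Mathlib

set_option autoImplicit false

open Polynomial

namespace Pool.Agent.Lib.helper22.Val

variable {L Γ : Type*} [Field L] [LinearOrderedCommGroupWithZero Γ] {v : Valuation L Γ}

/-- integral coefficients -/
def IntP (v : Valuation L Γ) (P : L[X]) : Prop := ∀ i, v (P.coeff i) ≤ 1

lemma val_nat_le (n : ℕ) : v n ≤ 1 := by
  induction n with
  | zero => simp
  | succ n ih => rw [Nat.cast_succ]; exact v.map_add_le ih v.map_one.le

lemma IntP.C {a : L} (ha : v a ≤ 1) : IntP v (C a) := fun i => by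
  rw [coeff_C]; split_ifs <;> simp [ha]

lemma IntP.X : IntP v (X : L[X]) := fun i => by
  rw [coeff_X]; split_ifs <;> simp

lemma IntP.add {P Q : L[X]} (hP : IntP v P) (hQ : IntP v Q) : IntP v (P + Q) := fun i => by
  rw [coeff_add]; exact v.map_add_le (hP i) (hQ i)

lemma IntP.sub {P Q : L[X]} (hP : IntP v P) (hQ : IntP v Q) : IntP v (P - Q) := fun i => by
  rw [coeff_sub]; exact v.map_sub_le (hP i) (hQ i)

lemma IntP.mul {P Q : L[X]} (hP : IntP v P) (hQ : IntP v Q) : IntP v (P * Q) := fun i => by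
  rw [coeff_mul]
  refine v.map_sum_le fun j _ => ?_
  rw [map_mul]
  exact mul_le_one' (hP _) (hQ _)

lemma IntP.derivative {P : L[X]} (hP : IntP v P) : IntP v P.derivative := fun i => by
  rw [coeff_derivative, map_mul]
  exact mul_le_one' (hP _) (by exact_mod_cast val_nat_le (v := v) (i + 1))

lemma IntP.eval {P : L[X]} (hP : IntP v P) {x : L} (hx : v x ≤ 1) : v (P.eval x) ≤ 1 := by
  rw [eval_eq_sum_range]
  refine v.map_sum_le fun j _ => ?_
  rw [map_mul, map_pow]
  exact mul_le_one' (hP _) (pow_le_one' hx _)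

lemma IntP.divX {P : L[X]} (hP : IntP v P) {x : L} (hx : v x ≤ 1) :
    IntP v (P /ₘ (Polynomial.X - Polynomial.C x)) := fun i => by
  rw [coeff_divByMonic_X_sub_C]
  refine v.map_sum_le fun j _ => ?_
  rw [map_mul, map_pow]
  exact mul_le_one' (pow_le_one' hx _) (hP _)

lemma IntP.exists_factor {P : L[X]} (hP : IntP v P) {x : L} (hx : v x ≤ 1) :
    ∃ R, IntP v R ∧ P = Polynomial.C (P.eval x) + (Polynomial.X - Polynomial.C x) * R :=
  ⟨_, hP.divX hx, by
    rw [← modByMonic_X_sub_C_eq_C_eval]; exact (modByMonic_add_div P _).symm⟩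

lemma IntP.eval_sub_le {P : L[X]} (hP : IntP v P) {x y : L} (hx : v x ≤ 1) (hy : v y ≤ 1) :
    v (P.eval x - P.eval y) ≤ v (x - y) := by
  obtain ⟨R, hR, e⟩ := hP.exists_factor hy
  have : P.eval x - P.eval y = (x - y) * R.eval x := by
    conv_lhs => arg 1; rw [e]
    simp
  rw [this, map_mul]
  exact mul_le_of_le_one_right' (hR.eval hx)

lemma IntP.eval_sub_lt {P : L[X]} (hP : IntP v P) {x y : L} (hx : v x ≤ 1) (hy : v y ≤ 1)
    (h : v (x - y) < 1) : v (P.eval x - P.eval y) < 1 := (hP.eval_sub_le hx hy).trans_lt h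

lemma val_eq_one_of_sub_lt {a b : L} (hb : v b = 1) (h : v (a - b) < 1) : v a = 1 := by
  rw [← hb] at h ⊢
  exact v.map_eq_of_sub_lt h

lemma val_lt_of_sub_lt {a b : L} (hb : v b < 1) (h : v (a - b) < 1) : v a < 1 := by
  have := v.map_add_lt h hb
  rwa [sub_add_cancel] at this

lemma val_le_of_sub_lt {a b : L} (hb : v b ≤ 1) (h : v (a - b) < 1) : v a ≤ 1 := by
  have := v.map_add_le h.le hb
  rwa [sub_add_cancel] at this

lemma IntP.derivative_lt {P : L[X]} (hP : IntP v P) {x y : L} (hx : v x ≤ 1) (hy : v y ≤ 1)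
    (hne : x ≠ y) (h : v (x - y) < 1) (he : P.eval x = P.eval y) :
    v (P.derivative.eval y) < 1 := by
  obtain ⟨R, hR, e⟩ := hP.exists_factor hy
  have h1 : R.eval x = 0 := by
    have := congrArg (Polynomial.eval x) e
    simp only [eval_add, eval_C, eval_mul, eval_sub, eval_X, he, left_eq_add, mul_eq_zero,
      sub_eq_zero, hne, false_or] at this
    exact this
  have h2 : P.derivative.eval y = R.eval y := by
    conv_lhs => rw [e]
    simp
  have h3 := hR.eval_sub_lt hx hy h
  rwa [h1, zero_sub, Valuation.map_neg, ← h2] at h3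

lemma IntP.derivative_two_lt {P : L[X]} (hP : IntP v P) {x y z : L} (hx : v x ≤ 1) (hy : v y ≤ 1)
    (hz : v z ≤ 1) (hxy : x ≠ y) (hxz : x ≠ z) (hzy : z ≠ y) (h : v (x - y) < 1)
    (h' : v (z - y) < 1) (he : P.eval x = P.eval y) (he' : P.eval z = P.eval y) :
    v (P.derivative.derivative.eval y) < 1 := by
  obtain ⟨R, hR, e⟩ := hP.exists_factor hy
  have h1 : ∀ u, u ≠ y → P.eval u = P.eval y → R.eval u = 0 := by
    intro u hne he
    have := congrArg (Polynomial.eval u) e
    simp only [eval_add, eval_C, eval_mul, eval_sub, eval_X, he, left_eq_add, mul_eq_zero,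
      sub_eq_zero, hne, false_or] at this
    exact this
  have hxz' : v (x - z) < 1 := by
    have := v.map_sub_lt h h'
    rwa [sub_sub_sub_cancel_right] at this
  have h2 := hR.derivative_lt hx hz hxz hxz' (by rw [h1 x hxy he, h1 z hzy he'])
  have h3 : P.derivative.derivative.eval y = (2 : ℕ) * R.derivative.eval y := by
    conv_lhs => rw [e]
    simp; ring
  rw [h3, map_mul]
  refine mul_lt_one_of_nonneg_of_lt_one_right (val_nat_le 2) zero_le (val_lt_of_sub_lt h2 ?_)
  exact hR.derivative.eval_sub_lt hy hz (by rwa [Valuation.map_sub_swap])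

lemma IntP.val_sub_eq_sq {P : L[X]} (hP : IntP v P) {c y : L} (hc : v c ≤ 1)
    (h1 : P.derivative.eval c = 0) (h2 : v (P.derivative.derivative.eval c) = 1)
    (h : v (y - c) < 1) : v (P.eval y - P.eval c) = v (y - c) ^ 2 := by
  obtain ⟨R, hR, e⟩ := hP.exists_factor hc
  have h3 : R.eval c = 0 := by
    rw [← h1]
    conv_rhs => rw [e]
    simp
  obtain ⟨T, hT, e'⟩ := hR.exists_factor hc
  rw [h3] at e'
  have h4 : P.derivative.derivative.eval c = (2 : ℕ) * T.eval c := by
    conv_lhs => rw [e, e']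
    simp; ring
  have h5 : v (T.eval c) = 1 := by
    rw [h4, map_mul] at h2
    exact eq_one_of_one_le_mul_right (val_nat_le 2) (hT.eval hc) h2.ge
  have h6 : P.eval y - P.eval c = (y - c) ^ 2 * T.eval y := by
    conv_lhs => arg 1; rw [e, e']
    simp; ring
  rw [h6, map_mul, map_pow, val_eq_one_of_sub_lt h5
    (hT.eval_sub_lt (val_le_of_sub_lt hc h) hc h), mul_one]

lemma exists_root_close {P : L[X]} (hP : P.Splits) (h1 : v P.leadingCoeff = 1) {a : L}
    (h : v (P.eval a) < 1) : ∃ y, P.eval y = 0 ∧ v (a - y) < 1 := by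
  by_contra hcon
  push Not at hcon
  rw [hP.eval_eq_prod_roots, map_mul, h1, one_mul, map_multiset_prod] at h
  refine not_le.mpr h (Multiset.one_le_prod_of_one_le fun x hx => ?_)
  simp only [Multiset.mem_map] at hx
  obtain ⟨_, ⟨y, hy, rfl⟩, rfl⟩ := hx
  exact hcon y (isRoot_of_mem_roots hy)

lemma val_eval_eq {P : L[X]} {x : L}
    (h : ∀ i < P.natDegree, v (P.coeff i * x ^ i) < v (P.leadingCoeff * x ^ P.natDegree))
    (h0 : v (P.leadingCoeff * x ^ P.natDegree) ≠ 0) :
    v (P.eval x) = v (P.leadingCoeff * x ^ P.natDegree) := by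
  rw [eval_eq_sum_range, Finset.sum_range_succ]
  exact v.map_add_eq_of_lt_right (v.map_sum_lt h0 fun i hi => h i (Finset.mem_range.mp hi))

lemma IntP.val_eval_of_gt {P : L[X]} (hP : IntP v P) (h1 : v P.leadingCoeff = 1) {x : L}
    (hx : 1 < v x) : v (P.eval x) = v x ^ P.natDegree := by
  rw [val_eval_eq, map_mul, h1, one_mul, map_pow]
  · intro i hi
    rw [map_mul, map_mul, h1, one_mul, map_pow, map_pow]
    exact (mul_le_of_le_one_left' (hP i)).trans_lt (pow_lt_pow_right₀ hx hi)
  · rw [map_mul, h1, one_mul, map_pow]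
    exact pow_ne_zero _ (zero_lt_one.trans hx).ne'

lemma IntP.le_one_of_eval {P : L[X]} (hP : IntP v P) (h1 : v P.leadingCoeff = 1)
    (hd : P.natDegree ≠ 0) {x : L} (hx : v (P.eval x) ≤ 1) : v x ≤ 1 := by
  by_contra h
  rw [not_le] at h
  rw [hP.val_eval_of_gt h1 h] at hx
  exact not_le.mpr (one_lt_pow₀ h hd) hx

end Pool.Agent.Lib.helper22.Val
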