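import Pool.Agent.Lib.helper22.PIT

set_option autoImplicit false

open Filter Topology NumberField Ideal Polynomial
open scoped Pointwise

namespace Pool.Agent.Lib.helper22.PIT

lemma card_le_of_pow_eq {R : Type*} [CommRing R] [IsDomain R] [Finite R] {q : ℕ} (hq : 1 < q)
    (h : ∀ x : R, x ^ q = x) : Nat.card R ≤ q := by
  classical
  have : Fintype R := Fintype.ofFinite R
  have hd : (X ^ q - X : R[X]).natDegree = q := by
    have h1 : (X : R[X]).degree < (X ^ q : R[X]).degree := by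
      rw [degree_X_pow, degree_X]
      exact mod_cast hq
    rw [natDegree_eq_of_degree_eq (degree_sub_eq_left_of_degree_lt h1), natDegree_X_pow]
  have hne : (X ^ q - X : R[X]) ≠ 0 := ne_zero_of_natDegree_gt (n := 0) (by omega)
  have := card_le_degree_of_subset_roots (p := (X ^ q - X : R[X])) (Z := Finset.univ)
    fun x _ => by simp [hne, h]
  rwa [hd, Finset.card_univ, ← Nat.card_eq_fintype_card] at this

lemma absNorm_le_of_pow {K : Type*} [Field K] [NumberField K] {P : Ideal (𝓞 K)} [P.IsPrime]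
    (hP : P ≠ ⊥) {q : ℕ} (hq : 1 < q) (h : ∀ x : 𝓞 K, x ^ q - x ∈ P) : absNorm P ≤ q := by
  have : Finite (𝓞 K ⧸ P) := (absNorm_ne_zero_iff P).mp (by rwa [Ne, absNorm_eq_zero_iff])
  rw [absNorm_apply, Submodule.cardQuot_apply]
  refine card_le_of_pow_eq hq fun x => ?_
  obtain ⟨x, rfl⟩ := Ideal.Quotient.mk_surjective x
  rw [← map_pow, Ideal.Quotient.eq]
  exact h x

lemma ne_bot_of_prime_mem {K : Type*} [Field K] [NumberField K] {P : Ideal (𝓞 K)} {p : ℕ}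
    (hp : p.Prime) (h : (p : 𝓞 K) ∈ P) : P ≠ ⊥ := by
  rintro rfl
  exact hp.ne_zero (by simpa using h)

lemma prime_eq_of_mem {R : Type*} [CommRing R] {P : Ideal R} (hP : P ≠ ⊤) {p q : ℕ}
    (hp : p.Prime) (hq : q.Prime) (h1 : (p : R) ∈ P) (h2 : (q : R) ∈ P) : p = q := by
  by_contra hne
  have hc : IsCoprime (p : R) (q : R) := Nat.Coprime.cast ((Nat.coprime_primes hp hq).mpr hne)
  obtain ⟨a, b, hab⟩ := hc
  exact hP ((eq_top_iff_one _).mpr (hab ▸ add_mem (mul_mem_left _ _ h1) (mul_mem_left _ _ h2)))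

/-- a nonzero algebraic integer lies only in primes above finitely many rational primes -/
lemma exists_bound_of_ne_zero {K : Type*} [Field K] [NumberField K] {y : 𝓞 K} (hy : y ≠ 0) :
    ∃ N : ℕ, ∀ p : ℕ, p.Prime → N < p → ∀ Q : Ideal (𝓞 K), Q ≠ ⊤ → (p : 𝓞 K) ∈ Q → y ∉ Q := by
  refine ⟨absNorm (span {y}), fun p hp hN Q hQ hpQ hyQ => ?_⟩
  have h0 : absNorm (span {y}) ≠ 0 := by
    rwa [Ne, absNorm_eq_zero_iff, span_singleton_eq_bot]
  have h1 : ((absNorm (span {y}) : ℕ) : 𝓞 K) ∈ Q :=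
    (span_singleton_le_iff_mem _).mpr hyQ (absNorm_mem _)
  have hc : IsCoprime (p : 𝓞 K) ((absNorm (span {y}) : ℕ) : 𝓞 K) :=
    Nat.Coprime.cast ((Nat.coprime_of_lt_prime h0 hN hp))
  obtain ⟨a, b, hab⟩ := hc
  exact hQ ((eq_top_iff_one _).mpr (hab ▸ add_mem (mul_mem_left _ _ hpQ) (mul_mem_left _ _ h1)))

variable (L : Type*) [Field L] [NumberField L] (G : Type*) [Group G] [Finite G]
  [MulSemiringAction G L] [IsGaloisGroup G ℚ L]

omit [Finite G] in
lemma galInt : IsGaloisGroup G ℤ (𝓞 L) := IsGaloisGroup.of_isFractionRing G ℤ (𝓞 L) ℚ L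

lemma exists_unram_bound : ∃ N : ℕ, ∀ p : ℕ, p.Prime → N < p → ∀ Q : Ideal (𝓞 L), Q ≠ ⊤ →
    (p : 𝓞 L) ∈ Q → Q.inertia G = ⊥ := by
  have := (galInt L G).faithful
  have h : ∀ σ : G, ∃ N : ℕ, σ ≠ 1 → ∀ p : ℕ, p.Prime → N < p → ∀ Q : Ideal (𝓞 L), Q ≠ ⊤ →
      (p : 𝓞 L) ∈ Q → σ ∉ Q.inertia G := by
    intro σ
    by_cases hσ : σ = 1
    · exact ⟨0, fun h => absurd hσ h⟩
    have : ∃ y : 𝓞 L, σ • y - y ≠ 0 := by
      by_contra! h
      exact hσ (eq_of_smul_eq_smul (α := 𝓞 L) fun y => by rw [one_smul, ← sub_eq_zero, h])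
    obtain ⟨y, hy⟩ := this
    obtain ⟨N, hN⟩ := exists_bound_of_ne_zero hy
    exact ⟨N, fun _ p hp hNp Q hQ hpQ hσQ => hN p hp hNp Q hQ hpQ (hσQ y)⟩
  choose N hN using h
  obtain ⟨M, hM⟩ := (Set.finite_range N).bddAbove
  refine ⟨M, fun p hp hMp Q hQ hpQ => ?_⟩
  rw [Subgroup.eq_bot_iff_forall]
  intro σ hσ
  by_contra hne
  exact hN σ hne p hp ((hM ⟨σ, rfl⟩).trans_lt hMp) Q hQ hpQ hσ

variable {L} in
lemma exists_frob {p : ℕ} (hp : p.Prime) (Q : Ideal (𝓞 L)) [Q.IsPrime] (hQ : (p : 𝓞 L) ∈ Q) :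
    ∃ σ : G, (∀ y : 𝓞 L, σ • y - y ^ p ∈ Q) ∧ σ • Q = Q := by
  have := galInt L G
  have : Finite (𝓞 L ⧸ Q) := (absNorm_ne_zero_iff Q).mp (by
    rw [Ne, absNorm_eq_zero_iff]; exact ne_bot_of_prime_mem hp hQ)
  obtain ⟨σ, hσ⟩ := IsArithFrobAt.exists_of_isInvariant ℤ G Q
  have h1 : Q.LiesOver (span {(p : ℤ)}) :=
    (liesOver_span_iff IsPrime.ne_top' (Nat.prime_iff_prime_int.mp hp)).mpr (by simpa using hQ)
  refine ⟨σ, fun y => ?_, hσ.mem_stabilizer⟩
  have h2 := hσ y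
  rw [← h1.over, Int.card_ideal_quot] at h2
  exact h2

omit [NumberField L] [Finite G] [IsGaloisGroup G ℚ L] in
lemma pow_frob {σ : G} {p : ℕ} {Q : Ideal (𝓞 L)} (h : ∀ y : 𝓞 L, σ • y - y ^ p ∈ Q) (k : ℕ)
    (y : 𝓞 L) : σ ^ k • y - y ^ p ^ k ∈ Q := by
  induction k generalizing y with
  | zero => simp
  | succ k ih =>
    rw [pow_succ, mul_smul, pow_succ', pow_mul]
    have h1 := ih (σ • y)
    have h2 : (σ • y) ^ p ^ k - (y ^ p) ^ p ^ k ∈ Q :=
      Q.mem_of_dvd (sub_dvd_pow_sub_pow _ _ _) (h y)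
    simpa using add_mem h1 h2

lemma card_le_sum_order {p : ℕ} (hp : p.Prime) (hI : ∀ Q : Ideal (𝓞 L), Q ≠ ⊤ →
    (p : 𝓞 L) ∈ Q → Q.inertia G = ⊥) (T : Finset (Ideal (𝓞 L)))
    (hT : ∀ Q, Q ∈ T ↔ Q.IsPrime ∧ (p : 𝓞 L) ∈ Q) (σ : Ideal (𝓞 L) → G)
    (hσ : ∀ Q ∈ T, ∀ y : 𝓞 L, σ Q • y - y ^ p ∈ Q) :
    Nat.card G ≤ ∑ Q ∈ T, orderOf (σ Q) := by
  have := galInt L G
  have hp' := Nat.prime_iff_prime_int.mp hp
  have hmax : (span {(p : ℤ)}).IsMaximal := hp'.isMaximal_span_singleton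
  have hTe : (T : Set (Ideal (𝓞 L))) = (span {(p : ℤ)}).primesOver (𝓞 L) := by
    ext Q
    rw [Finset.mem_coe, hT]
    constructor
    · rintro ⟨h1, h2⟩
      exact ⟨h1, (liesOver_span_iff h1.ne_top hp').mpr (by simpa using h2)⟩
    · rintro ⟨h1, h2⟩
      exact ⟨h1, by simpa using (liesOver_span_iff h1.ne_top hp').mp h2⟩
  have key : ∀ Q ∈ T, Nat.card G ≤ T.card * orderOf (σ Q) := by
    intro Q hQ
    obtain ⟨h1, h2⟩ := (hT Q).mp hQ
    have h3 : Q.LiesOver (span {(p : ℤ)}) := (liesOver_span_iff h1.ne_top hp').mpr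
      (by simpa using h2)
    have h4 := ncard_primesOver_mul_card_inertia_mul_finrank (G := G) (span {(p : ℤ)}) Q
    rw [hI Q h1.ne_top h2, Subgroup.card_bot, mul_one, ← hTe, Set.ncard_coe_finset] at h4
    rw [← h4]
    refine Nat.mul_le_mul_left _ ?_
    have h5 := absNorm_le_of_pow (ne_bot_of_prime_mem hp h2)
      (Nat.one_lt_pow (orderOf_pos (σ Q)).ne' hp.one_lt) fun y => by
        have := pow_frob L G (hσ Q hQ) (orderOf (σ Q)) y
        rw [pow_orderOf_eq_one, one_smul] at this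
        simpa using neg_mem this
    rw [← pow_inertiaDeg p Q] at h5
    exact (Nat.pow_le_pow_iff_right hp.one_lt).mp h5
  have hne : T.Nonempty := by
    obtain ⟨⟨Q, hQ⟩⟩ := (inferInstance : Nonempty ((span {(p : ℤ)}).primesOver (𝓞 L)))
    exact ⟨Q, by rw [← Finset.mem_coe, hTe]; exact hQ⟩
  have h6 := Finset.sum_le_sum key
  rw [Finset.sum_const, smul_eq_mul, ← Finset.mul_sum] at h6
  exact Nat.le_of_mul_le_mul_left h6 hne.card_pos

omit [Finite G] in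
lemma totient_le_card_gen [Fintype G] [DecidableEq (Subgroup G)] (σ : G) (A : Finset G)
    (hA : ∀ τ, Subgroup.zpowers τ = Subgroup.zpowers σ → τ ∈ A) :
    (orderOf σ).totient ≤ (A.filter fun τ => Subgroup.zpowers τ = Subgroup.zpowers σ).card := by
  rw [Nat.totient_eq_card_coprime]
  refine Finset.card_le_card_of_injOn (fun k => σ ^ k) (fun k hk => ?_) fun k hk j hj h => ?_
  · simp only [Finset.coe_filter, Finset.mem_range, Set.mem_ofPred_eq] at hk ⊢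
    have : Subgroup.zpowers (σ ^ k) = Subgroup.zpowers σ := by
      apply le_antisymm
      · exact Subgroup.zpowers_le.mpr (Subgroup.npow_mem_zpowers σ k)
      · obtain ⟨m, hm⟩ := exists_pow_eq_self_of_coprime hk.2.symm
        rw [Subgroup.zpowers_le]
        conv_rhs => rw [← hm]
        exact Subgroup.npow_mem_zpowers _ m
    exact ⟨hA _ this, this⟩
  · simp only [Finset.coe_filter, Finset.mem_range, Set.mem_ofPred_eq] at hk hj
    exact pow_injOn_Iio_orderOf hk.1 hj.1 h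

lemma sum_le_of_subgroup (H : Subgroup G) {ε : ℝ} (hε : 0 < ε) : ∀ᶠ x : ℝ in atTop,
    ∀ s : Finset (Σ _ : ℕ, Ideal (𝓞 L)), (∀ z ∈ s, z.1.Prime ∧ (z.1 : ℝ) ≤ x ∧ z.2.IsPrime ∧
      (z.1 : 𝓞 L) ∈ z.2 ∧ ∃ σ : G, Subgroup.zpowers σ = H ∧
        (∀ y : 𝓞 L, σ • y - y ^ z.1 ∈ z.2) ∧ σ • z.2 = z.2) →
      ∑ z ∈ s, Real.log z.1 ≤ (1 + ε) * x := by
  classical
  let F : IntermediateField ℚ L := FixedPoints.intermediateField H
  have hF : IsGaloisGroup H F L := IsGaloisGroup.subgroup G ℚ L H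
  have hO : IsGaloisGroup H (𝓞 F) (𝓞 L) := IsGaloisGroup.of_isFractionRing H (𝓞 F) (𝓞 L) F L
  filter_upwards [pit_upper F hε] with x hx s hs
  have hmem : ∀ z ∈ s, (z.1 : 𝓞 F) ∈ z.2.under (𝓞 F) := by
    intro z hz
    rw [under_def, Ideal.mem_comap, map_natCast]
    exact (hs z hz).2.2.2.1
  have hnorm : ∀ z ∈ s, absNorm (z.2.under (𝓞 F)) = z.1 := by
    intro z hz
    obtain ⟨h1, -, h3, h4, σ, h5, h6, -⟩ := hs z hz
    have hP : (z.2.under (𝓞 F)).IsPrime := IsPrime.under _ _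
    have hne := ne_bot_of_prime_mem h1 (hmem z hz)
    have h7 := absNorm_le_of_pow hne h1.one_lt fun y => by
      rw [under_def, Ideal.mem_comap, map_sub, map_pow]
      have h8 := h6 (algebraMap _ _ y)
      have h9 : (⟨σ, h5 ▸ Subgroup.mem_zpowers σ⟩ : H) • algebraMap (𝓞 F) (𝓞 L) y
          = algebraMap _ _ y := smul_algebraMap _ y
      rw [Subgroup.mk_smul] at h9
      rw [h9] at h8
      simpa using neg_mem h8
    have := hP.isMaximal hne
    obtain ⟨q, f, hf, hq1, hq2, hq3⟩ := exists_prime_and_absNorm_eq_pow (z.2.under (𝓞 F))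
    have := prime_eq_of_mem hP.ne_top hq2 h1 hq1 (hmem z hz)
    rw [this] at hq3
    refine le_antisymm h7 ?_
    rw [hq3]
    exact Nat.le_self_pow hf.ne' _
  have hinj : Set.InjOn (fun z : (Σ _ : ℕ, Ideal (𝓞 L)) => z.2.under (𝓞 F)) s := by
    rintro ⟨p, Q⟩ hz ⟨p', Q'⟩ hz' h
    have h1 : p = p' := (hnorm _ hz).symm.trans ((congrArg absNorm h).trans (hnorm _ hz'))
    subst h1
    obtain ⟨-, -, h3, -, σ, h5, -, h7⟩ := hs _ hz
    have h3' := (hs _ hz').2.2.1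
    obtain ⟨g, hg⟩ := Algebra.IsInvariant.exists_smul_of_under_eq (𝓞 F) (𝓞 L) H Q Q' h
    have h8 : H ≤ MulAction.stabilizer G Q := by
      rw [← h5, Subgroup.zpowers_le]; exact h7
    have h9 : Q' = Q := hg.trans (h8 g.2)
    rw [h9]
  have := hx (s.image fun z => z.2.under (𝓞 F)) (by
    intro P hP
    obtain ⟨z, hz, rfl⟩ := Finset.mem_image.mp hP
    have h3 := (hs z hz).2.2.1
    refine ⟨IsPrime.under _ _, ne_bot_of_prime_mem (hs z hz).1 (hmem z hz), ?_⟩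
    rw [hnorm z hz]; exact (hs z hz).2.1)
  rw [Finset.sum_image hinj] at this
  refine le_trans (le_of_eq ?_) this
  exact Finset.sum_congr rfl fun z hz => by rw [hnorm z hz]

open scoped Classical in
/-- Upper bound for the weighted count of primes whose Frobenius elements lie in `A`. -/
theorem frob_theta_bound (A : Finset G) (D : ℝ) (hD0 : 0 ≤ D)
    (hA : ∀ σ ∈ A, ∀ τ, Subgroup.zpowers τ = Subgroup.zpowers σ → τ ∈ A)
    (hD : ∀ σ : G, (orderOf σ : ℝ) ≤ D * (orderOf σ).totient) (S : Set ℕ) (N₀ : ℕ)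
    (hS : ∀ p ∈ S, p.Prime ∧ (N₀ < p → ∀ Q : Ideal (𝓞 L), Q.IsPrime → (p : 𝓞 L) ∈ Q →
      ∀ σ : G, (∀ y : 𝓞 L, σ • y - y ^ p ∈ Q) → σ ∈ A)) {ε : ℝ} (hε : 0 < ε) :
    ∀ᶠ x : ℝ in atTop, ∑ p ∈ (Finset.Icc 1 ⌊x⌋₊).filter (· ∈ S), Real.log p
      ≤ (2 * D * A.card / Nat.card G + ε) * x := by
  have : Fintype G := Fintype.ofFinite G
  obtain ⟨N₁, hN₁⟩ := exists_unram_bound L G
  set N := max N₀ N₁ with hN
  have hG : (0 : ℝ) < Nat.card G := Nat.cast_pos.mpr Nat.card_pos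
  have hall : ∀ᶠ x : ℝ in atTop, ∀ τ : G, _ := eventually_all.mpr fun τ : G =>
    sum_le_of_subgroup L G (Subgroup.zpowers τ) one_pos
  have hσ : ∀ (p : ℕ) (Q : Ideal (𝓞 L)), ∃ σ : G, p.Prime → Q.IsPrime → (p : 𝓞 L) ∈ Q →
      (∀ y : 𝓞 L, σ • y - y ^ p ∈ Q) ∧ σ • Q = Q := by
    intro p Q
    by_cases h : p.Prime ∧ Q.IsPrime ∧ (p : 𝓞 L) ∈ Q
    · have := h.2.1
      obtain ⟨σ, hσ⟩ := exists_frob G h.1 Q h.2.2
      exact ⟨σ, fun _ _ _ => hσ⟩
    · exact ⟨1, fun h1 h2 h3 => absurd ⟨h1, h2, h3⟩ h⟩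
  choose σ hσ using hσ
  have hT : ∀ p : ℕ, ∃ T : Finset (Ideal (𝓞 L)), p.Prime →
      ∀ Q, Q ∈ T ↔ Q.IsPrime ∧ (p : 𝓞 L) ∈ Q := by
    intro p
    by_cases hp : p.Prime
    · have hne : span {(p : 𝓞 L)} ≠ ⊥ := by
        rw [Ne, span_singleton_eq_bot]; exact_mod_cast hp.ne_zero
      refine ⟨(UniqueFactorizationMonoid.normalizedFactors (span {(p : 𝓞 L)})).toFinset,
        fun _ Q => ?_⟩
      rw [Multiset.mem_toFinset, Ideal.mem_normalizedFactors_iff hne, span_singleton_le_iff_mem]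
    · exact ⟨∅, fun h => absurd h hp⟩
  choose T hT using hT
  filter_upwards [hall, eventually_ge_atTop (N * Real.log N / ε), eventually_ge_atTop 0]
    with x hx hxN hx0
  rw [← Finset.sum_filter_add_sum_filter_not _ (fun p => N < p), add_mul]
  refine add_le_add ?_ ?_
  · set s := ((Finset.Icc 1 ⌊x⌋₊).filter (· ∈ S)).filter (fun p => N < p) with hs
    have hs' : ∀ p ∈ s, p.Prime ∧ (p : ℝ) ≤ x ∧ p ∈ S ∧ N₀ < p ∧ N₁ < p := by
      intro p hp
      simp only [hs, Finset.mem_filter, Finset.mem_Icc, hN, max_lt_iff] at hp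
      exact ⟨(hS p hp.1.2).1, (Nat.le_floor_iff hx0).mp hp.1.1.2, hp.1.2, hp.2⟩
    rw [div_mul_eq_mul_div, le_div_iff₀ hG, Finset.sum_mul]
    calc ∑ p ∈ s, Real.log p * Nat.card G
        ≤ ∑ p ∈ s, ∑ Q ∈ T p, ∑ τ ∈ A, if Subgroup.zpowers τ = Subgroup.zpowers (σ p Q)
            then D * Real.log p else 0 := by
          refine Finset.sum_le_sum fun p hp => ?_
          obtain ⟨h1, -, h3, h4, h5⟩ := hs' p hp
          have hfr := fun Q (hQ : Q ∈ T p) => hσ p Q h1 ((hT p h1 Q).mp hQ).1 ((hT p h1 Q).mp hQ).2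
          have h6 := card_le_sum_order L G h1 (hN₁ p h1 h5) (T p) (hT p h1) (σ p)
            fun Q hQ => (hfr Q hQ).1
          have hl := Real.log_natCast_nonneg p
          refine (mul_le_mul_of_nonneg_left (Nat.cast_le.mpr h6) hl).trans ?_
          rw [Nat.cast_sum, Finset.mul_sum]
          refine Finset.sum_le_sum fun Q hQ => ?_
          have h7 := (hS p h3).2 h4 Q ((hT p h1 Q).mp hQ).1 ((hT p h1 Q).mp hQ).2 _ (hfr Q hQ).1
          have h8 := totient_le_card_gen G (σ p Q) A (hA _ h7)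
          rw [← Finset.sum_filter, Finset.sum_const, nsmul_eq_mul]
          have h9 : ((orderOf (σ p Q)).totient : ℝ) ≤ _ := Nat.cast_le.mpr h8
          have h10 := (hD (σ p Q)).trans (mul_le_mul_of_nonneg_left h9 hD0)
          nlinarith
      _ = ∑ τ ∈ A, D * ∑ z ∈ (s.sigma T).filter
            (fun z => Subgroup.zpowers τ = Subgroup.zpowers (σ z.1 z.2)), Real.log z.1 := by
          rw [Finset.sum_sigma', Finset.sum_comm]
          refine Finset.sum_congr rfl fun τ _ => ?_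
          rw [Finset.mul_sum, Finset.sum_filter]
      _ ≤ ∑ _τ ∈ A, D * ((1 + 1) * x) := by
          refine Finset.sum_le_sum fun τ _ => mul_le_mul_of_nonneg_left (hx τ _ ?_) hD0
          intro z hz
          rw [Finset.mem_filter, Finset.mem_sigma] at hz
          obtain ⟨h1, h2, -⟩ := hs' _ hz.1.1
          obtain ⟨h3, h4⟩ := (hT _ h1 _).mp hz.1.2
          exact ⟨h1, h2, h3, h4, _, hz.2.symm, hσ _ _ h1 h3 h4⟩
      _ = _ := by rw [Finset.sum_const, nsmul_eq_mul]; ring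
  · rw [div_le_iff₀ hε, mul_comm x] at hxN
    refine le_trans ?_ hxN
    calc _ ≤ ∑ p ∈ Finset.Icc 1 N, Real.log p := by
          refine Finset.sum_le_sum_of_subset_of_nonneg (fun p hp => ?_)
            fun _ _ _ => Real.log_natCast_nonneg _
          simp only [Finset.mem_filter, Finset.mem_Icc, not_lt] at hp ⊢
          exact ⟨hp.1.1.1, hp.2⟩
      _ ≤ ∑ _p ∈ Finset.Icc 1 N, Real.log N := by
          refine Finset.sum_le_sum fun p hp => ?_
          rw [Finset.mem_Icc] at hp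
          exact Real.log_le_log (by exact_mod_cast hp.1) (by exact_mod_cast hp.2)
      _ = _ := by simp

end Pool.Agent.Lib.helper22.PIT
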