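import Pool.Agent.Lib.helper22.Val
import Pool.Agent.Lib.helper22.FrobBound

set_option autoImplicit false

open NumberField IsDedekindDomain WithZero Polynomial
open scoped Pointwise

namespace Pool.Agent.Lib.helper22.Val

variable {L : Type*} [Field L] [NumberField L]

/-- restriction of a place along an embedding of number fields -/
lemma exists_under {K : Type*} [Field K] [NumberField K] (φ : K →+* L)
    (w : HeightOneSpectrum (𝓞 L)) : ∃ (v : HeightOneSpectrum (𝓞 K)) (e : ℕ), 0 < e ∧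
      ∀ x, w.valuation L (φ x) = v.valuation K x ^ e := by
  let := φ.toAlgebra
  have : w.asIdeal.LiesOver (w.under (𝓞 K)).asIdeal := ⟨rfl⟩
  refine ⟨w.under (𝓞 K), _, Nat.pos_of_ne_zero
    (Ideal.IsDedekindDomain.ramificationIdx'_ne_zero_of_liesOver w.asIdeal (w.under (𝓞 K)).ne_bot),
    fun x => (HeightOneSpectrum.valuation_liesOver L (w.under (𝓞 K)) w x).symm⟩

/-- extension of a place along an embedding of number fields -/
lemma exists_above {K : Type*} [Field K] [NumberField K] (φ : K →+* L)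
    (v : HeightOneSpectrum (𝓞 K)) : ∃ (w : HeightOneSpectrum (𝓞 L)) (e : ℕ), 0 < e ∧
      ∀ x, w.valuation L (φ x) = v.valuation K x ^ e := by
  let := φ.toAlgebra
  have := v.isMaximal
  obtain ⟨⟨P, h1, h2⟩⟩ := (inferInstance : Nonempty (v.asIdeal.primesOver (𝓞 L)))
  let w : HeightOneSpectrum (𝓞 L) := ⟨P, h1, Ideal.ne_bot_of_liesOver_of_ne_bot v.ne_bot P⟩
  have : w.asIdeal.LiesOver v.asIdeal := h2
  exact ⟨w, _, Nat.pos_of_ne_zero
    (Ideal.IsDedekindDomain.ramificationIdx'_ne_zero_of_liesOver w.asIdeal v.ne_bot),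
    fun x => (HeightOneSpectrum.valuation_liesOver L v w x).symm⟩

/-- a nonzero element is a unit above all large primes, in every extension -/
lemma exists_bound_unit {K : Type*} [Field K] [NumberField K] {a : K} (ha : a ≠ 0) :
    ∃ N : ℕ, ∀ (L : Type) [Field L] [NumberField L] (φ : K →+* L) (p : ℕ), p.Prime → N < p →
      ∀ w : HeightOneSpectrum (𝓞 L), (p : 𝓞 L) ∈ w.asIdeal → w.valuation L (φ a) = 1 := by
  obtain ⟨N, hN⟩ := exists_bound_val_eq_one ha
  refine ⟨N, fun L _ _ φ p hp hNp w hw => ?_⟩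
  obtain ⟨v, e, he, h⟩ := exists_under φ w
  rw [h, hN p hp hNp v, one_pow]
  rw [← val_natCast_lt_iff] at hw ⊢
  rw [← map_natCast φ, h] at hw
  exact lt_of_pow_lt_pow_left₀ e zero_le (by rwa [one_pow])

variable {G : Type*} [Group G] [MulSemiringAction G L] {w : HeightOneSpectrum (𝓞 L)}

omit [NumberField L] in
lemma coe_smul_int (σ : G) (x : 𝓞 L) : ((σ • x : 𝓞 L) : L) = σ • (x : L) := rfl

lemma val_smul_le_int {σ : G} (hσ : σ ∈ w.asIdeal.inertia G) (x : 𝓞 L) :
    w.valuation L (σ • (x : L)) ≤ w.valuation L (x : L) := by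
  rcases eq_or_ne x 0 with rfl | hx
  · simp
  have h1 : σ • w.asIdeal = w.asIdeal := Ideal.inertia_le_stabilizer _ hσ
  rw [← coe_smul_int, HeightOneSpectrum.valuation_of_algebraMap,
    HeightOneSpectrum.valuation_of_algebraMap, w.intValuation_eq_exp_neg_multiplicity hx,
    HeightOneSpectrum.intValuation_le_pow_iff_mem, ← h1, ← smul_pow']
  refine Ideal.smul_mem_pointwise_smul _ _ _ ?_
  rw [h1, ← HeightOneSpectrum.intValuation_le_pow_iff_mem,
    w.intValuation_eq_exp_neg_multiplicity hx]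

lemma val_smul {σ : G} (hσ : σ ∈ w.asIdeal.inertia G) (x : L) :
    w.valuation L (σ • x) = w.valuation L x := by
  have h : ∀ y : 𝓞 L, w.valuation L (σ • (y : L)) = w.valuation L (y : L) := fun y => by
    refine le_antisymm (val_smul_le_int hσ y) ?_
    have := val_smul_le_int (inv_mem hσ) (σ • y)
    rwa [coe_smul_int, inv_smul_smul] at this
  obtain ⟨n, d, hd, rfl⟩ := IsFractionRing.div_surjective (A := 𝓞 L) x
  rw [smul_div₀', map_div₀, map_div₀]
  exact congrArg₂ _ (h n) (h d)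

lemma val_smul_sub_lt {σ : G} (hσ : σ ∈ w.asIdeal.inertia G) {x : L} (hx : w.valuation L x ≤ 1) :
    w.valuation L (σ • x - x) < 1 := by
  obtain ⟨a, ha⟩ := w.exists_valuation_sub_lt_of_integer hx 1
  rw [Units.val_one] at ha
  have h1 : w.valuation L (σ • (a : L) - a) < 1 := by
    have := (w.valuation_lt_one_iff_mem (K := L) (σ • a - a)).mpr (hσ a)
    rwa [Algebra.cast, map_sub] at this
  have h2 := val_smul hσ (algebraMap (𝓞 L) L a - x)
  have e : σ • x - x = (σ • (a : L) - a) - σ • (algebraMap (𝓞 L) L a - x)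
      + (algebraMap (𝓞 L) L a - x) := by
    rw [smul_sub]; simp
  rw [e]
  exact Valuation.map_add_lt _ (Valuation.map_sub_lt _ h1 (h2 ▸ ha)) ha

variable [Finite G] [IsGaloisGroup G ℚ L]

lemma card_dvd_log_val (J : Subgroup G) (hJ : J ≤ w.asIdeal.inertia G) {x : L}
    (hx : ∀ σ ∈ J, σ • x = x) : (Nat.card J : ℤ) ∣ log (w.valuation L x) := by
  let F : IntermediateField ℚ L := FixedPoints.intermediateField J
  have hF : IsGaloisGroup J F L := IsGaloisGroup.subgroup G ℚ L J
  have hO : IsGaloisGroup J (𝓞 F) (𝓞 L) := IsGaloisGroup.of_isFractionRing J (𝓞 F) (𝓞 L) F L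
  let v := w.under (𝓞 F)
  have : w.asIdeal.LiesOver v.asIdeal := ⟨rfl⟩
  have := w.isPrime
  have := v.isMaximal
  have h1 := Ideal.card_inertia_eq_ramificationIdxIn (G := J) v.asIdeal w.asIdeal
  have h2 : w.asIdeal.inertia J = ⊤ := by
    rw [eq_top_iff]
    exact fun σ _ => Ideal.coe_mem_inertia.mp (hJ σ.2)
  rw [h2, Subgroup.card_top, Ideal.ramificationIdxIn_eq_ramificationIdx v.asIdeal w.asIdeal J,
    ← Ideal.ramificationIdx'_eq_ramificationIdx v.asIdeal w.asIdeal v.ne_bot] at h1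
  have h3 := HeightOneSpectrum.valuation_liesOver L v w (⟨x, fun σ => hx σ σ.2⟩ : F)
  rw [← h1] at h3
  rw [show x = algebraMap F L (⟨x, fun σ => hx σ σ.2⟩ : F) from rfl, ← h3, log_pow, nsmul_eq_mul]
  exact dvd_mul_right _ _

lemma log_val_prime {p : ℕ} (hp : p.Prime) (hw : (p : 𝓞 L) ∈ w.asIdeal) :
    log (w.valuation L p) = -(Nat.card (w.asIdeal.inertia G) : ℤ) := by
  have := PIT.galInt L G
  have hp' := Nat.prime_iff_prime_int.mp hp
  have hmax : (Ideal.span {(p : ℤ)}).IsMaximal := hp'.isMaximal_span_singleton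
  let v : HeightOneSpectrum ℤ := ⟨Ideal.span {(p : ℤ)}, hmax.isPrime, by simpa using hp.ne_zero⟩
  have := w.isPrime
  have : w.asIdeal.LiesOver v.asIdeal :=
    (Ideal.liesOver_span_iff w.isPrime.ne_top hp').mpr (by simpa using hw)
  have := v.isMaximal
  have h1 := Ideal.card_inertia_eq_ramificationIdxIn (G := G) v.asIdeal w.asIdeal
  rw [Ideal.ramificationIdxIn_eq_ramificationIdx v.asIdeal w.asIdeal G,
    ← Ideal.ramificationIdx'_eq_ramificationIdx v.asIdeal w.asIdeal v.ne_bot] at h1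
  have h3 := HeightOneSpectrum.valuation_liesOver L v w (p : ℚ)
  have h4 : v.valuation ℚ (p : ℚ) = exp (-1) := by
    rw [← v.intValuation_singleton hp'.ne_zero rfl, ← HeightOneSpectrum.valuation_of_algebraMap
      (K := ℚ)]
    simp
  rw [← h1, h4, map_natCast] at h3
  rw [← h3, log_pow, log_exp]
  simp

lemma log_prime_dvd_log_val {p : ℕ} (hp : p.Prime) (hw : (p : 𝓞 L) ∈ w.asIdeal) {x : L}
    (hx : ∀ σ ∈ w.asIdeal.inertia G, σ • x = x) :
    log (w.valuation L p) ∣ log (w.valuation L x) := by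
  rw [log_val_prime (G := G) hp hw, neg_dvd]
  exact card_dvd_log_val _ le_rfl hx

end Pool.Agent.Lib.helper22.Val
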