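import Mathlib

set_option autoImplicit false

open NumberField IsDedekindDomain WithZero Polynomial

namespace Pool.Agent.Lib.helper22.Val

variable {L : Type*} [Field L] [NumberField L] (w : HeightOneSpectrum (𝓞 L))

lemma val_natCast_le (n : ℕ) : w.valuation L n ≤ 1 := by
  have := w.valuation_le_one (K := L) (n : 𝓞 L)
  simpa using this

lemma val_intCast_le (n : ℤ) : w.valuation L n ≤ 1 := by
  have := w.valuation_le_one (K := L) (n : 𝓞 L)
  simpa using this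

lemma val_natCast_lt_iff (n : ℕ) : w.valuation L n < 1 ↔ (n : 𝓞 L) ∈ w.asIdeal := by
  have := w.valuation_lt_one_iff_mem (K := L) (n : 𝓞 L)
  simpa using this

variable {w}

lemma val_nat_eq_one {p n : ℕ} (hp : (p : 𝓞 L) ∈ w.asIdeal) (h : p.Coprime n) :
    w.valuation L n = 1 := by
  refine le_antisymm (val_natCast_le w n) (not_lt.mp fun hlt => ?_)
  rw [val_natCast_lt_iff] at hlt
  obtain ⟨a, b, hab⟩ : IsCoprime (p : 𝓞 L) (n : 𝓞 L) := Nat.Coprime.cast h
  exact w.isPrime.ne_top ((Ideal.eq_top_iff_one _).mpr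
    (hab ▸ add_mem (Ideal.mul_mem_left _ _ hp) (Ideal.mul_mem_left _ _ hlt)))

lemma log_val_nat {p : ℕ} (hp : p.Prime) (hw : (p : 𝓞 L) ∈ w.asIdeal) {n : ℕ} (hn : n ≠ 0) :
    log (w.valuation L n) = padicValNat p n * log (w.valuation L p) := by
  conv_lhs => rw [← Nat.ordProj_mul_ordCompl_eq_self n p]
  rw [Nat.cast_mul, map_mul, val_nat_eq_one hw (Nat.coprime_ordCompl hp hn), mul_one,
    Nat.cast_pow, map_pow, log_pow, Nat.factorization_def _ hp, nsmul_eq_mul]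

lemma val_ne_zero {x : L} (hx : x ≠ 0) : w.valuation L x ≠ 0 := (Valuation.ne_zero_iff _).mpr hx

lemma log_val_rat {p : ℕ} (hp : p.Prime) (hw : (p : 𝓞 L) ∈ w.asIdeal) {q : ℚ} (hq : q ≠ 0) :
    log (w.valuation L q) = padicValRat p q * log (w.valuation L p) := by
  have h1 : q.num.natAbs ≠ 0 := by simpa using hq
  have h2 : w.valuation L q.num = w.valuation L q.num.natAbs := by
    rcases Int.natAbs_eq q.num with h | h
    · conv_lhs => rw [h]
      simp
    · conv_lhs => rw [h]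
      simp
  rw [Rat.cast_def, map_div₀, h2, log_div (val_ne_zero (Nat.cast_ne_zero.mpr h1))
    (val_ne_zero (Nat.cast_ne_zero.mpr q.den_nz)), log_val_nat hp hw h1, log_val_nat hp hw q.den_nz,
    padicValRat_def, padicValInt]
  ring

lemma log_val_prime_neg {p : ℕ} (hp : p.Prime) (hw : (p : 𝓞 L) ∈ w.asIdeal) :
    log (w.valuation L p) < 0 := by
  rw [log_lt_iff_lt_exp (val_ne_zero (Nat.cast_ne_zero.mpr hp.ne_zero)), exp_zero,
    val_natCast_lt_iff]
  exact hw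

lemma val_rat_lt_one_iff {p : ℕ} (hp : p.Prime) (hw : (p : 𝓞 L) ∈ w.asIdeal) {q : ℚ} (hq : q ≠ 0) :
    w.valuation L q < 1 ↔ 0 < padicValRat p q := by
  rw [← exp_zero, ← log_lt_iff_lt_exp (val_ne_zero (Rat.cast_ne_zero.mpr hq)), log_val_rat hp hw hq]
  have := log_val_prime_neg hp hw
  constructor
  · intro h; by_contra h'; nlinarith
  · intro h; nlinarith

lemma val_rat_le_one_iff {p : ℕ} (hp : p.Prime) (hw : (p : 𝓞 L) ∈ w.asIdeal) (q : ℚ) :
    w.valuation L q ≤ 1 ↔ 0 ≤ padicValRat p q := by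
  rcases eq_or_ne q 0 with rfl | hq
  · simp
  rw [← exp_zero, ← log_le_iff_le_exp (val_ne_zero (Rat.cast_ne_zero.mpr hq)), log_val_rat hp hw hq]
  have := log_val_prime_neg hp hw
  constructor
  · intro h; by_contra h'; nlinarith
  · intro h; nlinarith

lemma val_rat_eq_one_iff {p : ℕ} (hp : p.Prime) (hw : (p : 𝓞 L) ∈ w.asIdeal) {q : ℚ} (hq : q ≠ 0) :
    w.valuation L q = 1 ↔ padicValRat p q = 0 := by
  rw [le_antisymm_iff, val_rat_le_one_iff hp hw, ← not_lt (b := 1), val_rat_lt_one_iff hp hw hq]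
  omega

variable (w) in
lemma exists_prime_mem : ∃ p : ℕ, p.Prime ∧ (p : 𝓞 L) ∈ w.asIdeal := by
  have := w.isMaximal
  obtain ⟨p, -, -, h1, h2, -⟩ := Ideal.exists_prime_and_absNorm_eq_pow w.asIdeal
  exact ⟨p, h2, h1⟩

variable (L) in
lemma exists_over {p : ℕ} (hp : p.Prime) : ∃ w : HeightOneSpectrum (𝓞 L), (p : 𝓞 L) ∈ w.asIdeal := by
  obtain ⟨P, h1, h2, -⟩ := Ideal.exists_isMaximal_dvd_of_dvd_absNorm' hp
    (Ideal.span {(p : 𝓞 L)}) (by
      rw [Ideal.absNorm_span_natCast]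
      exact dvd_pow_self _ (by rw [RingOfIntegers.rank]; exact Module.finrank_pos.ne'))
  have h3 : (p : 𝓞 L) ∈ P := by
    have : (p : ℤ) ∈ P.under ℤ := h2 ▸ Ideal.mem_span_singleton_self _
    simpa [Ideal.under_def] using this
  refine ⟨⟨P, h1.isPrime, ?_⟩, h3⟩
  rintro rfl
  exact hp.ne_zero (by simpa using h3)

lemma finite_val_ne_one {a : L} (ha : a ≠ 0) :
    {w : HeightOneSpectrum (𝓞 L) | w.valuation L a ≠ 1}.Finite := by
  refine ((HeightOneSpectrum.Support.finite (𝓞 L) a).union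
    (HeightOneSpectrum.Support.finite (𝓞 L) a⁻¹)).subset fun w hw => ?_
  rcases lt_or_gt_of_ne hw with h | h
  · right
    change 1 < w.valuation L a⁻¹
    rw [map_inv₀]
    exact (one_lt_inv₀ (zero_lt_iff.mpr (val_ne_zero ha))).mpr h
  · left; exact h

lemma finite_val_gt_one (a : L) :
    {w : HeightOneSpectrum (𝓞 L) | ¬ w.valuation L a ≤ 1}.Finite :=
  (HeightOneSpectrum.Support.finite (𝓞 L) a).subset fun _ hw => not_le.mp hw

/-- for all large primes, `a` is a unit at every place above `p` -/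
lemma exists_bound_val_eq_one {a : L} (ha : a ≠ 0) : ∃ N : ℕ, ∀ p : ℕ, p.Prime → N < p →
    ∀ w : HeightOneSpectrum (𝓞 L), (p : 𝓞 L) ∈ w.asIdeal → w.valuation L a = 1 := by
  choose q hq using fun w : HeightOneSpectrum (𝓞 L) => exists_prime_mem w
  obtain ⟨N, hN⟩ := ((finite_val_ne_one ha).image q).bddAbove
  refine ⟨N, fun p hp hNp w hw => ?_⟩
  by_contra hne
  have h1 := hN ⟨w, hne, rfl⟩
  have h2 := val_nat_eq_one hw ((Nat.coprime_primes hp (hq w).1).mpr (by omega))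
  exact ((val_natCast_lt_iff w _).mpr (hq w).2).ne h2

lemma finitePlace_eq_one_iff (v : FinitePlace L) (x : L) :
    v x = 1 ↔ v.maximalIdeal.valuation L x = 1 := by
  rw [← v.norm_embedding_eq, FinitePlace.norm_embedding, HeightOneSpectrum.adicAbv_def,
    ← NNReal.coe_one, NNReal.coe_inj, WithZeroMulInt.toNNReal_eq_one_iff _ _
      (HeightOneSpectrum.one_lt_absNorm_nnreal _).ne']

open UniqueFactorizationMonoid in
lemma exists_ideal_decomp (S : Set (HeightOneSpectrum (𝓞 L))) (hS : S.Finite) {l : ℕ}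
    (hl : 0 < l) : ∃ T : Set (Ideal (𝓞 L)), T.Finite ∧ ∀ a : 𝓞 L, a ≠ 0 →
      (∀ v ∉ S, (l : ℤ) ∣ log (v.valuation L a)) → ∃ s ∈ T, ∃ b : Ideal (𝓞 L),
        Ideal.span {a} = s * b ^ l := by
  classical
  set J : Ideal (𝓞 L) := (∏ v ∈ hS.toFinset, v.asIdeal) ^ l with hJ
  have hJ0 : J ≠ 0 := pow_ne_zero _ (Finset.prod_ne_zero_iff.mpr fun v _ => v.ne_bot)
  refine ⟨{s | Ideal.absNorm s ≤ Ideal.absNorm J}, Ideal.finite_setOfPred_absNorm_le _,
    fun a ha h => ?_⟩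
  have ha0 : Ideal.span {a} ≠ ⊥ := by simpa using ha
  set F := normalizedFactors (Ideal.span {a}) with hF
  refine ⟨∏ P ∈ F.toFinset, P ^ (F.count P % l), ?_, ∏ P ∈ F.toFinset, P ^ (F.count P / l), ?_⟩
  · refine Nat.le_of_dvd (Nat.pos_of_ne_zero (by rwa [Ne, Ideal.absNorm_eq_zero_iff]))
      (map_dvd _ ?_)
    rw [hJ, ← Finset.prod_image (f := fun P : Ideal (𝓞 L) => P)
      (HeightOneSpectrum.asIdeal_injective.injOn), ← Finset.prod_pow,
      ← Finset.prod_filter_of_ne (p := fun P => P ∈ hS.toFinset.image (·.asIdeal))]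
    · refine (Finset.prod_dvd_prod_of_dvd _ (fun P => P ^ l) fun P _ =>
        pow_dvd_pow _ (Nat.mod_lt _ hl).le).trans (Finset.prod_dvd_prod_of_subset _ _ _ ?_)
      exact fun P hP => (Finset.mem_filter.mp hP).2
    · intro P hP hne
      rw [Multiset.mem_toFinset, hF, Ideal.mem_normalizedFactors_iff ha0] at hP
      let v : HeightOneSpectrum (𝓞 L) := ⟨P, hP.1, ne_bot_of_le_ne_bot ha0 hP.2⟩
      by_contra hv
      have hvS : v ∉ S := fun h => hv (Finset.mem_image.mpr ⟨v, hS.mem_toFinset.mpr h, rfl⟩)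
      have h1 := h v hvS
      rw [HeightOneSpectrum.valuation_of_algebraMap, v.intValuation_eq_exp_neg_multiplicity ha,
        log_exp, dvd_neg, ← HeightOneSpectrum.count_normalizedFactors_eq_multiplicity ha0,
        Int.natCast_dvd_natCast] at h1
      apply hne
      rw [Nat.mod_eq_zero_of_dvd h1, pow_zero]
  · rw [← Finset.prod_pow, ← Finset.prod_mul_distrib]
    conv_lhs => rw [← Ideal.prod_normalizedFactors_eq_self ha0, Finset.prod_multiset_count]
    refine Finset.prod_congr rfl fun P _ => ?_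
    rw [← pow_mul, ← pow_add, Nat.mod_add_div']

open scoped nonZeroDivisors in
/-- Finiteness of the Selmer group of a number field. -/
theorem selmer_finite (S : Set (HeightOneSpectrum (𝓞 L))) (hS : S.Finite) {l : ℕ}
    (hl : 0 < l) : ∃ R : Set L, R.Finite ∧ ∀ a : L, a ≠ 0 →
      (∀ v ∉ S, (l : ℤ) ∣ log (v.valuation L a)) → ∃ r ∈ R, ∃ b : L, a = r * b ^ l := by
  classical
  obtain ⟨T, hT, hdec⟩ := exists_ideal_decomp S hS hl
  have : Group.FG (𝓞 L)ˣ := Group.fg_iff_monoid_fg.mpr inferInstance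
  have hfi := Subgroup.finiteIndex_range_powMonoidHom_of_fg (𝓞 L)ˣ hl.ne'
  have hrep : ∀ (s : Ideal (𝓞 L)) (C : ClassGroup (𝓞 L)), ∃ a0 : 𝓞 L, ∀ (a : 𝓞 L)
      (b : (Ideal (𝓞 L))⁰), Ideal.span {a} = s * (b : Ideal (𝓞 L)) ^ l → ClassGroup.mk0 b = C →
        ∃ (u : (𝓞 L)ˣ) (c : L), (a : L) = a0 * (u : 𝓞 L) * c ^ l := by
    intro s C
    by_cases h : ∃ (a : 𝓞 L) (b : (Ideal (𝓞 L))⁰),
        Ideal.span {a} = s * (b : Ideal (𝓞 L)) ^ l ∧ ClassGroup.mk0 b = C
    · obtain ⟨a0, b0, h1, h2⟩ := h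
      refine ⟨a0, fun a b h3 h4 => ?_⟩
      obtain ⟨x, y, hx, hy, hxy⟩ := ClassGroup.mk0_eq_mk0_iff.mp (h4.trans h2.symm)
      have h5 : Ideal.span {y ^ l * a0} = Ideal.span {x ^ l * a} := by
        rw [← Ideal.span_singleton_mul_span_singleton, ← Ideal.span_singleton_mul_span_singleton,
          h1, h3, ← Ideal.span_singleton_pow, ← Ideal.span_singleton_pow, mul_left_comm, ← mul_pow,
          ← hxy, mul_pow, mul_left_comm]
      obtain ⟨u, hu⟩ := Ideal.span_singleton_eq_span_singleton.mp h5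
      refine ⟨u, y / x, ?_⟩
      have h6 := congrArg (algebraMap (𝓞 L) L) hu
      simp only [map_mul, map_pow] at h6
      have hx' : algebraMap (𝓞 L) L x ≠ 0 := by simpa using hx
      rw [div_pow, ← mul_div_assoc, eq_div_iff (pow_ne_zero _ hx')]
      simp only [RingOfIntegers.coe_eq_algebraMap]
      linear_combination -h6
    · exact ⟨0, fun a b h3 h4 => absurd ⟨a, b, h3, h4⟩ h⟩
  choose a0 ha0 using hrep
  refine ⟨(fun z : Ideal (𝓞 L) × ClassGroup (𝓞 L) × ((𝓞 L)ˣ ⧸ (powMonoidHom l).range) =>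
    (a0 z.1 z.2.1 : L) * ((z.2.2.out : (𝓞 L)ˣ) : 𝓞 L)) '' (T ×ˢ Set.univ),
    (hT.prod Set.finite_univ).image _, fun a ha h => ?_⟩
  obtain ⟨n, d, hd, rfl⟩ := IsFractionRing.div_surjective (A := 𝓞 L) a
  have hd0 : d ≠ 0 := nonZeroDivisors.ne_zero hd
  have hd' : algebraMap (𝓞 L) L d ≠ 0 := by simpa using hd0
  have hn' : algebraMap (𝓞 L) L n ≠ 0 := fun h => ha (by rw [h, zero_div])
  have hn0 : n ≠ 0 := by simpa using hn'
  obtain ⟨k, rfl⟩ := Nat.exists_eq_add_one.mpr hl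
  have e : ((n * d ^ k : 𝓞 L) : L) = algebraMap _ _ n / algebraMap _ _ d
      * algebraMap (𝓞 L) L d ^ (k + 1) := by
    simp only [RingOfIntegers.coe_eq_algebraMap, map_mul, map_pow]
    rw [pow_succ]
    field_simp
  obtain ⟨s, hs, b, hb⟩ := hdec (n * d ^ k) (mul_ne_zero hn0 (pow_ne_zero _ hd0)) fun v hv => by
    rw [e, map_mul, log_mul (val_ne_zero ha) (val_ne_zero (pow_ne_zero _ hd')), map_pow, log_pow,
      nsmul_eq_mul]
    exact dvd_add (h v hv) (dvd_mul_right _ _)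
  have hb0 : b ∈ (Ideal (𝓞 L))⁰ := by
    refine mem_nonZeroDivisors_of_ne_zero ?_
    rintro rfl
    rw [zero_pow (by omega), mul_zero, Ideal.zero_eq_bot, Ideal.span_singleton_eq_bot] at hb
    exact mul_ne_zero hn0 (pow_ne_zero _ hd0) hb
  obtain ⟨u, c, huc⟩ := ha0 s _ _ ⟨b, hb0⟩ hb rfl
  obtain ⟨⟨_, u', rfl⟩, hu'⟩ := QuotientGroup.mk_out_eq_mul (powMonoidHom (k + 1)).range u
  refine ⟨_, ⟨(s, ClassGroup.mk0 ⟨b, hb0⟩, (u : (𝓞 L)ˣ ⧸ (powMonoidHom (k + 1)).range)),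
    ⟨hs, trivial⟩, rfl⟩,
    c / (algebraMap _ _ d * ((u' : 𝓞 L) : L)), ?_⟩
  have hu0 : ((u' : 𝓞 L) : L) ≠ 0 := by simp
  simp only [hu', powMonoidHom_apply, Units.val_mul, Units.val_pow_eq_pow_val]
  rw [e] at huc
  rw [div_pow, mul_pow, ← mul_div_assoc, eq_div_iff (mul_ne_zero (pow_ne_zero _ hd') (pow_ne_zero _ hu0)), ← mul_assoc, huc]
  push_cast
  ring

end Pool.Agent.Lib.helper22.Val
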