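import Mathlib

set_option autoImplicit false

open Finset ZMod

namespace Pool.Agent.Lib.helper22.AP3

variable {N : ℕ} [NeZero N]

/-- unnormalised Fourier transform of a real function on `ZMod N` -/
noncomputable def ft (f : ZMod N → ℝ) (r : ZMod N) : ℂ :=
  ∑ x, (f x : ℂ) * stdAddChar (r * x)

lemma orth (b : ZMod N) : ∑ r : ZMod N, stdAddChar (r * b) = if b = 0 then (N : ℂ) else 0 := by
  rw [AddChar.sum_mulShift b (isPrimitive_stdAddChar N), ZMod.card]
  split_ifs <;> simp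

lemma norm_std (y : ZMod N) : ‖stdAddChar y‖ = 1 := by
  rw [stdAddChar_apply]; exact Circle.norm_coe _

lemma conj_std (y : ZMod N) : (starRingEnd ℂ) (stdAddChar y) = stdAddChar (-y) := by
  rw [AddChar.map_neg_eq_conj]

lemma ft_zero (f : ZMod N → ℝ) : ft f 0 = ((∑ x, f x : ℝ) : ℂ) := by
  simp [ft]

lemma norm_ft_le (f : ZMod N → ℝ) (hf : ∀ x, 0 ≤ f x) (r : ZMod N) : ‖ft f r‖ ≤ ∑ x, f x := by
  unfold ft
  refine (norm_sum_le _ _).trans (le_of_eq ?_)
  refine Finset.sum_congr rfl fun x _ => ?_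
  rw [norm_mul, norm_std, mul_one, Complex.norm_real, Real.norm_of_nonneg (hf x)]

lemma parseval_c (g : ZMod N → ℂ) :
    ∑ r : ZMod N, ‖∑ x, g x * stdAddChar (r * x)‖ ^ 2 = N * ∑ x, ‖g x‖ ^ 2 := by
  apply Complex.ofReal_injective
  push_cast
  have h1 : ∀ r : ZMod N, ((‖∑ x, g x * stdAddChar (r * x)‖ : ℝ) : ℂ) ^ 2 =
      ∑ x, ∑ y, g x * (starRingEnd ℂ) (g y) * stdAddChar (r * (x - y)) := by
    intro r
    rw [← Complex.mul_conj', map_sum, Finset.sum_mul_sum]
    refine Finset.sum_congr rfl fun x _ => Finset.sum_congr rfl fun y _ => ?_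
    rw [map_mul (starRingEnd ℂ), conj_std, mul_sub, sub_eq_add_neg, AddChar.map_add_eq_mul]
    ring
  simp_rw [h1]
  rw [Finset.sum_comm, Finset.mul_sum]
  refine Finset.sum_congr rfl fun x _ => ?_
  rw [Finset.sum_comm]
  simp_rw [← Finset.mul_sum, orth, sub_eq_zero]
  simp only [mul_ite, mul_zero, Finset.sum_ite_eq, Finset.mem_univ, if_true]
  rw [Complex.mul_conj']
  ring

lemma parseval (f : ZMod N → ℝ) : ∑ r, ‖ft f r‖ ^ 2 = N * ∑ x, f x ^ 2 := by
  unfold ft
  rw [parseval_c]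
  simp

lemma count3 (f : ZMod N → ℝ) :
    ∑ r, ft f r ^ 2 * ft f (-2 * r) = ((N * ∑ x, ∑ y, f x * f y * f (2 * y - x) : ℝ) : ℂ) := by
  have h1 : ∀ r : ZMod N, ft f r ^ 2 * ft f (-2 * r) =
      ∑ x, ∑ y, ∑ z, ((f x * f y * f z : ℝ) : ℂ) * stdAddChar (r * (z - (2 * y - x))) := by
    intro r
    rw [sq, mul_assoc, mul_comm (ft f r) (ft f (-2 * r))]
    unfold ft
    rw [Finset.sum_mul_sum, Finset.sum_mul]
    refine Finset.sum_congr rfl fun x _ => ?_
    rw [Finset.mul_sum]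
    refine Finset.sum_congr rfl fun y _ => ?_
    rw [Finset.mul_sum]
    refine Finset.sum_congr rfl fun z _ => ?_
    have : r * (z - (2 * y - x)) = r * x + (-2 * r * y + r * z) := by ring
    rw [this, AddChar.map_add_eq_mul, AddChar.map_add_eq_mul]
    push_cast
    ring
  simp_rw [h1]
  push_cast
  rw [Finset.sum_comm, Finset.mul_sum]
  refine Finset.sum_congr rfl fun x _ => ?_
  rw [Finset.sum_comm, Finset.mul_sum]
  refine Finset.sum_congr rfl fun y _ => ?_
  rw [Finset.sum_comm]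
  simp_rw [← Finset.mul_sum, orth, sub_eq_zero]
  simp only [mul_ite, mul_zero, Finset.sum_ite_eq', Finset.mem_univ, if_true]
  ring

lemma inversion (f : ZMod N → ℝ) (x : ZMod N) :
    ∑ r, ft f r * stdAddChar (-(r * x)) = ((N * f x : ℝ) : ℂ) := by
  unfold ft
  simp_rw [Finset.sum_mul]
  rw [Finset.sum_comm]
  have : ∀ y : ZMod N, ∑ r : ZMod N, (f y : ℂ) * stdAddChar (r * y) * stdAddChar (-(r * x)) =
      (f y : ℂ) * if y = x then (N : ℂ) else 0 := by
    intro y
    have e : (if y = x then (N : ℂ) else 0) = if y - x = 0 then (N : ℂ) else 0 := by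
      simp only [sub_eq_zero]
    rw [e, ← orth, Finset.mul_sum]
    refine Finset.sum_congr rfl fun r _ => ?_
    rw [mul_assoc, ← AddChar.map_add_eq_mul]
    congr 2
    ring
  simp_rw [this]
  simp only [mul_ite, mul_zero, Finset.sum_ite_eq', Finset.mem_univ, if_true]
  push_cast
  ring

/-- smoothing by differences of `B` -/
noncomputable def sm (B : Finset (ZMod N)) (f : ZMod N → ℝ) (x : ZMod N) : ℝ :=
  (∑ b ∈ B, ∑ b' ∈ B, f (x + b - b')) / (B.card : ℝ) ^ 2

/-- the Fourier multiplier of the smoothing -/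
noncomputable def sig (B : Finset (ZMod N)) (r : ZMod N) : ℝ :=
  ‖∑ b ∈ B, stdAddChar (r * b)‖ ^ 2 / (B.card : ℝ) ^ 2

lemma normsq_sum (B : Finset (ZMod N)) (r : ZMod N) :
    ((‖∑ b ∈ B, stdAddChar (r * b)‖ ^ 2 : ℝ) : ℂ) =
      ∑ b ∈ B, ∑ b' ∈ B, stdAddChar (r * (b' - b)) := by
  push_cast
  rw [← Complex.mul_conj', map_sum, mul_comm, Finset.sum_mul_sum]
  refine Finset.sum_congr rfl fun x _ => Finset.sum_congr rfl fun y _ => ?_
  rw [conj_std, ← AddChar.map_add_eq_mul]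
  congr 1
  ring

lemma ft_shift (f : ZMod N → ℝ) (t r : ZMod N) :
    ∑ x, (f (x + t) : ℂ) * stdAddChar (r * x) = ft f r * stdAddChar (-(r * t)) := by
  unfold ft
  rw [Finset.sum_mul, ← Equiv.sum_comp (Equiv.addRight t)
    (fun x => (f x : ℂ) * stdAddChar (r * x) * stdAddChar (-(r * t)))]
  refine Finset.sum_congr rfl fun x _ => ?_
  rw [mul_assoc, ← AddChar.map_add_eq_mul]
  congr 2
  simp only [Equiv.coe_addRight]
  ring

lemma ft_sm (B : Finset (ZMod N)) (f : ZMod N → ℝ) (r : ZMod N) :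
    ft (sm B f) r = ft f r * (sig B r : ℂ) := by
  unfold sig
  rw [Complex.ofReal_div, normsq_sum, ← mul_div_assoc, Finset.mul_sum]
  conv_lhs => unfold ft sm
  simp_rw [Complex.ofReal_div, div_mul_eq_mul_div]
  rw [← Finset.sum_div]
  congr 1
  simp_rw [Complex.ofReal_sum, Finset.sum_mul]
  rw [Finset.sum_comm]
  refine Finset.sum_congr rfl fun b _ => ?_
  rw [Finset.sum_comm, Finset.mul_sum]
  refine Finset.sum_congr rfl fun b' _ => ?_
  simp_rw [add_sub_assoc]
  rw [ft_shift]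
  congr 2
  ring

lemma sig_nonneg (B : Finset (ZMod N)) (r : ZMod N) : 0 ≤ sig B r := by
  unfold sig; positivity

lemma sig_le_one (B : Finset (ZMod N)) (r : ZMod N) : sig B r ≤ 1 := by
  unfold sig
  apply div_le_one_of_le₀ _ (by positivity)
  gcongr
  refine (norm_sum_le _ _).trans (le_of_eq ?_)
  simp

lemma sum_sig (B : Finset (ZMod N)) (hB : B.Nonempty) : ∑ r, sig B r = N / B.card := by
  classical
  unfold sig
  rw [← Finset.sum_div]
  have h := parseval_c (N := N) (fun x => if x ∈ B then 1 else 0)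
  simp only [ite_mul, one_mul, zero_mul, Finset.sum_ite_mem, Finset.univ_inter] at h
  rw [h]
  have h2 : ∑ x : ZMod N, ‖(if x ∈ B then (1 : ℂ) else 0)‖ ^ 2 = B.card := by
    have : ∀ x : ZMod N, ‖(if x ∈ B then (1 : ℂ) else 0)‖ ^ 2 = if x ∈ B then (1 : ℝ) else 0 := by
      intro x; split_ifs <;> simp
    simp [this]
  rw [h2]
  have : (B.card : ℝ) ≠ 0 := by exact_mod_cast hB.card_pos.ne'
  field_simp

lemma one_sub_sig_le (B : Finset (ZMod N)) (hB : B.Nonempty) (r : ZMod N) {ε : ℝ}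
    (h : ∀ b ∈ B, ∀ b' ∈ B, ‖stdAddChar (r * b) - stdAddChar (r * b')‖ ≤ ε) :
    1 - sig B r ≤ ε := by
  have hc : (0 : ℝ) < B.card := by exact_mod_cast hB.card_pos
  have h1 : ((1 - sig B r : ℝ) : ℂ) =
      (∑ b ∈ B, ∑ b' ∈ B, (1 - stdAddChar (r * (b' - b)))) / (B.card : ℂ) ^ 2 := by
    unfold sig
    rw [Complex.ofReal_sub, Complex.ofReal_div, normsq_sum]
    have : (B.card : ℂ) ≠ 0 := by exact_mod_cast hB.card_pos.ne'
    simp only [Finset.sum_sub_distrib, Finset.sum_const, nsmul_eq_mul]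
    push_cast
    field_simp
  have h2 : ‖((1 - sig B r : ℝ) : ℂ)‖ ≤ ε := by
    rw [h1, norm_div, norm_pow, Complex.norm_natCast, div_le_iff₀ (by positivity)]
    refine (norm_sum_le _ _).trans ?_
    have : ∀ b ∈ B, ‖∑ b' ∈ B, (1 - stdAddChar (r * (b' - b)))‖ ≤ B.card * ε := by
      intro b hb
      refine (norm_sum_le _ _).trans ?_
      have : ∀ b' ∈ B, ‖1 - stdAddChar (r * (b' - b))‖ ≤ ε := by
        intro b' hb'
        have e : 1 - stdAddChar (r * (b' - b)) =
            (stdAddChar (r * b) - stdAddChar (r * b')) * stdAddChar (-(r * b)) := by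
          rw [sub_mul, ← AddChar.map_add_eq_mul, ← AddChar.map_add_eq_mul, add_neg_cancel,
            AddChar.map_zero_eq_one]
          congr 2
          ring
        rw [e, norm_mul, norm_std, mul_one]
        exact h b hb b' hb'
      refine (Finset.sum_le_sum this).trans (le_of_eq ?_)
      simp
    refine (Finset.sum_le_sum this).trans (le_of_eq ?_)
    simp
    ring
  rw [Complex.norm_real] at h2
  exact (le_abs_self _).trans h2

lemma sum_sm (B : Finset (ZMod N)) (hB : B.Nonempty) (f : ZMod N → ℝ) :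
    ∑ x, sm B f x = ∑ x, f x := by
  have h := ft_sm B f 0
  rw [ft_zero, ft_zero] at h
  have h1 : sig B 0 = 1 := by
    unfold sig
    have : (B.card : ℝ) ≠ 0 := by exact_mod_cast hB.card_pos.ne'
    simp [this]
  rw [h1, Complex.ofReal_one, mul_one] at h
  exact Complex.ofReal_injective h

omit [NeZero N] in
lemma sm_mono (B : Finset (ZMod N)) {f g : ZMod N → ℝ} (h : ∀ x, f x ≤ g x) (x : ZMod N) :
    sm B f x ≤ sm B g x := by
  unfold sm
  gcongr
  exact h _

omit [NeZero N] in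
lemma sm_nonneg (B : Finset (ZMod N)) {f : ZMod N → ℝ} (h : ∀ x, 0 ≤ f x) (x : ZMod N) :
    0 ≤ sm B f x := by
  unfold sm
  exact div_nonneg (Finset.sum_nonneg fun _ _ => Finset.sum_nonneg fun _ _ => h _) (by positivity)

lemma sm_le (B : Finset (ZMod N)) (hB : B.Nonempty) (ν : ZMod N → ℝ) {a θ : ℝ}
    (h : ∀ r, ‖ft ν r‖ ≤ N * ((if r = 0 then a else 0) + θ)) (ha : 0 ≤ a) (x : ZMod N) :
    sm B ν x ≤ a + θ * (N / B.card) := by
  have hN : (0 : ℝ) < N := by exact_mod_cast Nat.pos_of_ne_zero (NeZero.ne N)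
  have h1 := inversion (sm B ν) x
  have h2 : N * sm B ν x ≤ ∑ r, N * ((if r = 0 then a else 0) + θ) * sig B r := by
    refine (le_abs_self _).trans ?_
    rw [← Real.norm_eq_abs, ← Complex.norm_real, ← h1]
    refine (norm_sum_le _ _).trans (Finset.sum_le_sum fun r _ => ?_)
    rw [norm_mul, norm_std, mul_one, ft_sm, norm_mul, Complex.norm_real,
      Real.norm_of_nonneg (sig_nonneg B r)]
    exact mul_le_mul_of_nonneg_right (h r) (sig_nonneg B r)
  have h3 : ∑ r, N * ((if r = 0 then a else 0) + θ) * sig B r =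
      N * (a * sig B 0 + θ * (N / B.card)) := by
    rw [← sum_sig B hB]
    simp_rw [mul_assoc, ← Finset.mul_sum, add_mul, Finset.sum_add_distrib, ← Finset.mul_sum]
    simp
  rw [h3] at h2
  have h4 := le_of_mul_le_mul_left h2 hN
  have h5 : a * sig B 0 ≤ a := mul_le_of_le_one_right ha (sig_le_one B 0)
  linarith

lemma dual (ν : ZMod N → ℝ) (X : Finset (ZMod N)) (c : ZMod N → ℂ) (hc : ∀ r, ‖c r‖ ≤ 1) :
    ∑ x, ν x * ‖∑ r ∈ X, c r * stdAddChar (r * x)‖ ^ 2 ≤
      ∑ r ∈ X, ∑ s ∈ X, ‖ft ν (r - s)‖ := by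
  have h1 : ((∑ x, ν x * ‖∑ r ∈ X, c r * stdAddChar (r * x)‖ ^ 2 : ℝ) : ℂ) =
      ∑ r ∈ X, ∑ s ∈ X, c r * (starRingEnd ℂ) (c s) * ft ν (r - s) := by
    push_cast
    have : ∀ x : ZMod N, (ν x : ℂ) * ((‖∑ r ∈ X, c r * stdAddChar (r * x)‖ : ℝ) : ℂ) ^ 2 =
        ∑ r ∈ X, ∑ s ∈ X, c r * (starRingEnd ℂ) (c s) * (ν x * stdAddChar ((r - s) * x)) := by
      intro x
      rw [← Complex.mul_conj', map_sum, Finset.sum_mul_sum, Finset.mul_sum]
      refine Finset.sum_congr rfl fun r _ => ?_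
      rw [Finset.mul_sum]
      refine Finset.sum_congr rfl fun s _ => ?_
      rw [map_mul (starRingEnd ℂ), conj_std, sub_mul, sub_eq_add_neg, AddChar.map_add_eq_mul]
      ring
    simp_rw [this]
    rw [Finset.sum_comm]
    refine Finset.sum_congr rfl fun r _ => ?_
    rw [Finset.sum_comm]
    refine Finset.sum_congr rfl fun s _ => ?_
    rw [← Finset.mul_sum]
    rfl
  refine (le_abs_self _).trans ?_
  rw [← Real.norm_eq_abs, ← Complex.norm_real, h1]
  refine (norm_sum_le _ _).trans (Finset.sum_le_sum fun r _ => ?_)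
  refine (norm_sum_le _ _).trans (Finset.sum_le_sum fun s _ => ?_)
  rw [norm_mul, norm_mul, Complex.norm_conj]
  have := hc r
  have := hc s
  have : ‖c r‖ * ‖c s‖ ≤ 1 := mul_le_one₀ (hc r) (norm_nonneg _) (hc s)
  exact mul_le_of_le_one_left (norm_nonneg _) this

end Pool.Agent.Lib.helper22.AP3
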