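import Pool.Agent.Lib.helper22.Weight

set_option autoImplicit false

open MeasureTheory Module Submodule Metric NumberField NumberField.InfinitePlace
  NumberField.mixedEmbedding NumberField.Units NumberField.Units.dirichletUnitTheorem
open scoped NNReal nonZeroDivisors

namespace Pool.Agent.Lib.helper22.PIT

variable (K : Type*) [Field K] [NumberField K]

/-- weight of a natural number at scale `X` -/
noncomputable def wt (X : ℝ) (m : ℕ) : ℝ := if m = 0 then 0 else tent (Real.log (m / X))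

open scoped Classical in
theorem hasSum_class {h : mixedSpace K → ℝ} {R : ℝ} (hR : ∀ y, h y ≠ 0 → ‖y‖ ≤ R) (h0 : h 0 = 0)
    (hh : ∀ y, mixedEmbedding.norm y ≠ 0 →
      h y = tent (Real.log (mixedEmbedding.norm y)) * ∏ i, tent ((uB K).repr (logMap y) i))
    (J : (Ideal (𝓞 K))⁰) (t X : ℝ) (ht : 0 < t) (hX : 0 < X)
    (htX : t ^ finrank ℚ K = X * Ideal.absNorm (J : Ideal (𝓞 K))) :
    HasSum (fun I : Ideal (𝓞 K) => if ((J : Ideal (𝓞 K)) * I).IsPrincipal then
        (torsionOrder K : ℝ) * wt X (Ideal.absNorm I) else 0)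
      (∑' l : span ℤ (Set.range (fractionalIdealLatticeBasis K (FractionalIdeal.mk0 K J))),
        h (t⁻¹ • (l : mixedSpace K))) := by
  set b := fractionalIdealLatticeBasis K (FractionalIdeal.mk0 K J) with hb
  have hJ0 : (J : Ideal (𝓞 K)) ≠ 0 := nonZeroDivisors.coe_ne_zero J
  have hmem : ∀ a : (J : Ideal (𝓞 K)), mixedEmbedding K ((a : 𝓞 K) : K) ∈ span ℤ (Set.range b) := by
    intro a
    rw [hb, mem_span_fractionalIdealLatticeBasis]
    refine ⟨((a : 𝓞 K) : K), ?_, rfl⟩
    simp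
  let e : (J : Ideal (𝓞 K)) ≃ span ℤ (Set.range b) := Equiv.ofBijective
    (fun a => ⟨_, hmem a⟩) (by
      constructor
      · intro a a' haa
        have := mixedEmbedding_injective K (congrArg Subtype.val haa)
        exact Subtype.ext (RingOfIntegers.ext this)
      · rintro ⟨x, hx⟩
        rw [hb, mem_span_fractionalIdealLatticeBasis] at hx
        obtain ⟨y, hy, rfl⟩ := hx
        simp only [FractionalIdeal.coe_mk0, SetLike.mem_coe, FractionalIdeal.mem_coeIdeal] at hy
        obtain ⟨a, ha, rfl⟩ := hy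
        exact ⟨⟨a, ha⟩, rfl⟩)
  have hsum : Summable (fun l : span ℤ (Set.range b) => h (t⁻¹ • (l : mixedSpace K))) := by
    refine summable_of_hasFiniteSupport ?_
    have hfin := ZSpan.setFinite_inter b (isBounded_closedBall (x := (0 : mixedSpace K))
      (r := t * R))
    refine Set.Finite.of_finite_image (f := Subtype.val) (hfin.subset ?_)
      Subtype.val_injective.injOn
    rintro _ ⟨l, hl, rfl⟩
    refine ⟨?_, l.2⟩
    have := hR _ hl
    rw [_root_.norm_smul, Real.norm_eq_abs, abs_of_pos (inv_pos.mpr ht), inv_mul_le_iff₀ ht] at this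
    simpa using this
  have hs2 : HasSum (fun a : (J : Ideal (𝓞 K)) => h (t⁻¹ • mixedEmbedding K ((a : 𝓞 K) : K)))
      (∑' l : span ℤ (Set.range b), h (t⁻¹ • (l : mixedSpace K))) :=
    e.hasSum_iff.mpr hsum.hasSum
  have hex : ∀ a : (J : Ideal (𝓞 K)), ∃ I : Ideal (𝓞 K), Ideal.span {(a : 𝓞 K)} = J * I :=
    fun a => Ideal.dvd_span_singleton.mpr a.2
  choose π hπ using hex
  have hπ' : ∀ a I, π a = I ↔ Ideal.span {(a : 𝓞 K)} = J * I := by
    intro a I
    constructor
    · rintro rfl; exact hπ a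
    · intro hI; rw [hπ a] at hI; exact mul_left_cancel₀ hJ0 hI
  refine (hs2.tsum_fiberwise π).congr_fun fun I => ?_
  split_ifs with hp
  · obtain ⟨a0, ha0⟩ := hp
    change (J : Ideal (𝓞 K)) * I = Ideal.span {a0} at ha0
    by_cases ha : a0 = 0
    · have hI : I = 0 := by
        rw [ha, Ideal.span_singleton_zero] at ha0
        exact (mul_eq_zero.mp ha0).resolve_left hJ0
      have : ∀ a : π ⁻¹' {I}, h (t⁻¹ • mixedEmbedding K (((a : (J : Ideal (𝓞 K))) : 𝓞 K) : K))
          = 0 := by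
        rintro ⟨a, haI⟩
        have h1 := (hπ' a I).mp haI
        rw [hI, mul_zero, Ideal.zero_eq_bot, Ideal.span_singleton_eq_bot] at h1
        simp [h1, h0]
      simp only [this, tsum_zero]
      simp [hI, wt]
    · have hI : I ≠ 0 := by
        rintro rfl
        rw [mul_zero, Ideal.zero_eq_bot, eq_comm, Ideal.span_singleton_eq_bot] at ha0
        exact ha ha0
      have hm : ∀ u : (𝓞 K)ˣ, (u : 𝓞 K) * a0 ∈ (J : Ideal (𝓞 K)) := fun u =>
        Ideal.mul_mem_left _ _ (Ideal.dvd_span_singleton.mp ⟨I, ha0.symm⟩)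
      have hm2 : ∀ u : (𝓞 K)ˣ, (⟨_, hm u⟩ : (J : Ideal (𝓞 K))) ∈ π ⁻¹' {I} := by
        intro u
        refine (hπ' _ I).mpr ?_
        rw [ha0, Ideal.span_singleton_eq_span_singleton]
        exact associated_unit_mul_left a0 u u.isUnit
      let e2 : (𝓞 K)ˣ ≃ π ⁻¹' {I} := Equiv.ofBijective (fun u => ⟨_, hm2 u⟩) (by
        constructor
        · intro u v huv
          have := congrArg (fun x : π ⁻¹' {I} => ((x : (J : Ideal (𝓞 K))) : 𝓞 K)) huv
          exact Units.ext (mul_right_cancel₀ ha this)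
        · rintro ⟨a, haI⟩
          have h1 := (hπ' a I).mp haI
          rw [ha0, eq_comm, Ideal.span_singleton_eq_span_singleton] at h1
          obtain ⟨u, hu⟩ := h1
          exact ⟨u, Subtype.ext (Subtype.ext (by simp [← hu, mul_comm]))⟩)
      rw [← e2.tsum_eq]
      set y := t⁻¹ • mixedEmbedding K (a0 : K) with hy
      have hN : ((Ideal.absNorm (J : Ideal (𝓞 K)) : ℝ)) * Ideal.absNorm I
          = mixedEmbedding.norm (mixedEmbedding K (a0 : K)) := by
        rw [← Nat.cast_mul, ← map_mul, ha0, Ideal.absNorm_span_singleton, norm_eq_norm,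
          ← Algebra.coe_norm_int]
        simp
      have hJp : (0 : ℝ) < Ideal.absNorm (J : Ideal (𝓞 K)) :=
        Nat.cast_pos.mpr (Ideal.absNorm_pos_of_nonZeroDivisors J)
      have hI0 : Ideal.absNorm I ≠ 0 := by rwa [Ne, Ideal.absNorm_eq_zero_iff]
      have hny : mixedEmbedding.norm y = Ideal.absNorm I / X := by
        rw [hy, mixedEmbedding.norm_smul, ← hN, abs_of_pos (inv_pos.mpr ht), inv_pow, htX]
        field_simp
      have hy0 : mixedEmbedding.norm y ≠ 0 := by
        rw [hny]; exact div_ne_zero (Nat.cast_ne_zero.mpr hI0) hX.ne'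
      have h3 := (hasSum_units K hh y hy0).tsum_eq
      rw [hny] at h3
      rw [wt, if_neg hI0, ← h3]
      refine tsum_congr fun u => ?_
      congr 1
      change mixedEmbedding K ((u : 𝓞 K) : K) * (t⁻¹ • mixedEmbedding K (a0 : K))
        = t⁻¹ • mixedEmbedding K (((u : 𝓞 K) * a0 : 𝓞 K) : K)
      rw [mul_smul_comm]
      simp
  · have : IsEmpty (π ⁻¹' {I}) := ⟨fun a => hp ⟨⟨_, ((hπ' a I).mp a.2).symm⟩⟩⟩
    simp

/-- number of integral ideals of norm `n` -/
noncomputable def aK (n : ℕ) : ℕ := Nat.card {I : Ideal (𝓞 K) // Ideal.absNorm I = n}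

theorem smooth_count : ∃ c C θ : ℝ, θ < 1 ∧ ∀ X : ℝ, 1 ≤ X →
    |∑' m : ℕ, (aK K m : ℝ) * wt X m - c * X| ≤ C * X ^ θ := by
  classical
  obtain ⟨h, L, R, hL, hR0, hR, h0, hh⟩ := exists_weight K
  choose J hJ using fun C : ClassGroup (𝓞 K) => ClassGroup.mk0_surjective C⁻¹
  choose c C hc using fun D : ClassGroup (𝓞 K) => riemann_sum volume
    (fractionalIdealLatticeBasis K (FractionalIdeal.mk0 K (J D))) h L hL R hR0 hR
  set n := finrank ℚ K with hn
  have hn0 : 0 < n := finrank_pos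
  have hnR : (0 : ℝ) < n := Nat.cast_pos.mpr hn0
  have hw : (0 : ℝ) < torsionOrder K := Nat.cast_pos.mpr (torsionOrder_pos K)
  set N : ClassGroup (𝓞 K) → ℝ := fun D => Ideal.absNorm (J D : Ideal (𝓞 K)) with hN
  have hN1 : ∀ D, 1 ≤ N D := fun D =>
    Nat.one_le_cast.mpr (Ideal.absNorm_pos_of_nonZeroDivisors (J D))
  refine ⟨(∑ D, c D * N D) / torsionOrder K,
    (∑ D, C D * N D ^ (1 - (n : ℝ)⁻¹)) / torsionOrder K, 1 - (n : ℝ)⁻¹,
    by linarith [inv_pos.mpr hnR], fun X hX => ?_⟩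
  have hX0 : 0 < X := by linarith
  set t : ClassGroup (𝓞 K) → ℝ := fun D => (X * N D) ^ (n : ℝ)⁻¹ with htdef
  have hXN : ∀ D, 1 ≤ X * N D := fun D => one_le_mul_of_one_le_of_one_le hX (hN1 D)
  have ht1 : ∀ D, 1 ≤ t D := fun D => Real.one_le_rpow (hXN D) (inv_pos.mpr hnR).le
  have htn : ∀ D, t D ^ n = X * N D := fun D =>
    Real.rpow_inv_natCast_pow (by linarith [hXN D]) hn0.ne'
  have hs := hasSum_sum (s := Finset.univ) fun D _ =>
    hasSum_class K hR h0 hh (J D) (t D) X (by linarith [ht1 D]) hX0 (htn D)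
  have e1 : (fun I : Ideal (𝓞 K) => ∑ D, if ((J D : Ideal (𝓞 K)) * I).IsPrincipal then
      (torsionOrder K : ℝ) * wt X (Ideal.absNorm I) else 0)
      = fun I => (torsionOrder K : ℝ) * wt X (Ideal.absNorm I) := by
    funext I
    by_cases hI : I = 0
    · simp [hI, wt]
    · have hI' : I ∈ (Ideal (𝓞 K))⁰ := mem_nonZeroDivisors_of_ne_zero hI
      have : ∀ D, ((J D : Ideal (𝓞 K)) * I).IsPrincipal ↔ D = ClassGroup.mk0 ⟨I, hI'⟩ := by
        intro D
        have h1 := ClassGroup.mk0_eq_one_iff (I := (J D : Ideal (𝓞 K)) * I)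
          (mul_mem (J D).2 hI')
        rw [← h1]
        have h2 : (⟨(J D : Ideal (𝓞 K)) * I, mul_mem (J D).2 hI'⟩ : (Ideal (𝓞 K))⁰)
          = J D * ⟨I, hI'⟩ := rfl
        rw [h2, map_mul, hJ, inv_mul_eq_one]
      simp [this]
  rw [e1] at hs
  have hs2 := hs.tsum_fiberwise (fun I : Ideal (𝓞 K) => Ideal.absNorm I)
  have e2 : (fun m : ℕ => ∑' I : (fun I : Ideal (𝓞 K) => Ideal.absNorm I) ⁻¹' {m},
      (torsionOrder K : ℝ) * wt X (Ideal.absNorm (I : Ideal (𝓞 K))))
      = fun m => (torsionOrder K : ℝ) * ((aK K m : ℝ) * wt X m) := by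
    funext m
    have : ∀ I : (fun I : Ideal (𝓞 K) => Ideal.absNorm I) ⁻¹' {m},
        (torsionOrder K : ℝ) * wt X (Ideal.absNorm (I : Ideal (𝓞 K)))
          = (torsionOrder K : ℝ) * wt X m := fun I => by
      have hI : Ideal.absNorm (I : Ideal (𝓞 K)) = m := I.2
      rw [hI]
    simp only [this]
    rw [tsum_const, nsmul_eq_mul, aK, mul_left_comm]
    rfl
  rw [e2] at hs2
  have e3 := hs2.tsum_eq
  rw [tsum_mul_left] at e3
  have e4 : ∑' m : ℕ, (aK K m : ℝ) * wt X m - (∑ D, c D * N D) / torsionOrder K * X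
      = (∑ D, (∑' l : span ℤ (Set.range (fractionalIdealLatticeBasis K
        (FractionalIdeal.mk0 K (J D)))), h ((t D)⁻¹ • (l : mixedSpace K)) - c D * t D ^ n))
          / torsionOrder K := by
    rw [Finset.sum_sub_distrib, ← e3]
    simp only [htn]
    have : ∑ D, c D * (X * N D) = (∑ D, c D * N D) * X := by
      rw [Finset.sum_mul]; exact Finset.sum_congr rfl fun D _ => by ring
    rw [this]
    field_simp
  rw [e4, abs_div, abs_of_pos hw, div_mul_eq_mul_div]
  refine div_le_div_of_nonneg_right ?_ hw.le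
  refine (Finset.abs_sum_le_sum_abs _ _).trans ?_
  rw [Finset.sum_mul]
  refine Finset.sum_le_sum fun D _ => ?_
  have h1 := hc D (t D) (ht1 D)
  rw [mixedEmbedding.finrank] at h1
  refine h1.trans (le_of_eq ?_)
  rw [← hn, htn, mul_assoc, mul_div_assoc]
  congr 1
  simp only [htdef]
  rw [← Real.mul_rpow (by linarith [hN1 D]) hX0.le, mul_comm (N D) X,
    Real.rpow_sub (by linarith [hXN D]), Real.rpow_one]

end Pool.Agent.Lib.helper22.PIT
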