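import Pool.Agent.Lib.helper22.Fourier

set_option autoImplicit false
set_option linter.unusedSectionVars false

open Finset ZMod

namespace Pool.Agent.Lib.helper22.AP3

lemma norm_one_sub_pow_le {z : ℂ} (hz : ‖z‖ = 1) (j : ℕ) : ‖1 - z ^ j‖ ≤ j * ‖1 - z‖ := by
  induction j with
  | zero => simp
  | succ j ih =>
    have : 1 - z ^ (j + 1) = (1 - z ^ j) + z ^ j * (1 - z) := by ring
    rw [this]
    refine (norm_add_le _ _).trans ?_
    rw [norm_mul, norm_pow, hz, one_pow, one_mul]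
    push_cast
    linarith

lemma root_far {z : ℂ} (hz : ‖z‖ = 1) {k : ℕ} (hk : 0 < k) (h1 : z ^ k = 1) (hne : z ≠ 1) :
    1 ≤ k * ‖1 - z‖ := by
  have h0 : ∑ j ∈ range k, z ^ j = 0 := by
    have := mul_neg_geom_sum z k
    rw [h1, sub_self] at this
    exact (mul_eq_zero.mp this).resolve_left (sub_ne_zero.mpr hne.symm)
  have h2 : (k : ℂ) = ∑ j ∈ range k, (1 - z ^ j) := by
    rw [Finset.sum_sub_distrib, h0]; simp
  have h3 : (k : ℝ) ≤ k * (k * ‖1 - z‖) := by
    calc (k : ℝ) = ‖(k : ℂ)‖ := by simp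
      _ ≤ ∑ j ∈ range k, ‖1 - z ^ j‖ := by rw [h2]; exact norm_sum_le _ _
      _ ≤ ∑ j ∈ range k, k * ‖1 - z‖ := by
          refine Finset.sum_le_sum fun j hj => (norm_one_sub_pow_le hz j).trans ?_
          have : (j : ℝ) ≤ k := by exact_mod_cast (Finset.mem_range.mp hj).le
          gcongr
      _ = _ := by simp
  have hk' : (0 : ℝ) < k := by exact_mod_cast hk
  exact le_of_mul_le_mul_left (by linarith) hk'

lemma geom_le {z : ℂ} (hz : ‖z‖ = 1) (N : ℕ) : ‖1 - z‖ * ‖∑ n ∈ range N, z ^ n‖ ≤ 2 := by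
  rw [← norm_mul, mul_neg_geom_sum]
  refine (norm_sub_le _ _).trans ?_
  rw [norm_pow, hz]
  norm_num

lemma geom_le' {z : ℂ} (hz : ‖z‖ = 1) (N : ℕ) : ‖∑ n ∈ range N, z ^ n‖ ≤ N := by
  refine (norm_sum_le _ _).trans (le_of_eq ?_)
  simp [hz]

variable {ι : Type} [Fintype ι] [DecidableEq ι] (p : ι → ℕ) [hp : ∀ i, Fact (p i).Prime]

/-- the product of the groups `ZMod (p i)` -/
abbrev Gam := (i : ι) → ZMod (p i)

/-- support -/
def supp (x : Gam p) : Finset ι := univ.filter (fun i => x i ≠ 0)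

/-- denominator -/
def den (x : Gam p) : ℕ := ∏ i ∈ supp p x, p i

/-- the character attached to `x` -/
noncomputable def psi (x : Gam p) (m : ℕ) : ℂ := ∏ i, stdAddChar (x i * (m : ZMod (p i)))

/-- the weight `1/φ` -/
noncomputable def wt (S : Finset ι) : ℝ := ∏ i ∈ S, 1 / ((p i : ℝ) - 1)

/-- the coefficient `μ/φ` -/
noncomputable def gg (x : Gam p) : ℝ := ∏ i ∈ supp p x, (-1 / ((p i : ℝ) - 1))

/-- sets of primes with small product -/
def SS (R : ℕ) : Finset (Finset ι) := univ.filter (fun S => ∏ i ∈ S, p i ≤ R)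

/-- frequencies with small denominator -/
def XX (R : ℕ) : Finset (Gam p) := univ.filter (fun x => supp p x ∈ SS p R)

/-- Selberg's sum -/
noncomputable def GG (R : ℕ) : ℝ := ∑ S ∈ SS p R, wt p S

/-- Selberg's weight -/
noncomputable def AA (R m : ℕ) : ℂ := ∑ x ∈ XX p R, (gg p x : ℂ) * psi p x m

lemma supp_sum {M : Type} [CommSemiring M] (𝒮 : Finset (Finset ι))
    (φ : (i : ι) → ZMod (p i) → M) :
    ∑ x ∈ univ.filter (fun x : Gam p => supp p x ∈ 𝒮), ∏ i ∈ supp p x, φ i (x i) =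
      ∑ S ∈ 𝒮, ∏ i ∈ S, ∑ t ∈ univ.erase (0 : ZMod (p i)), φ i t := by
  rw [← Finset.sum_fiberwise_of_maps_to (g := supp p) (t := 𝒮)
    (fun x hx => (Finset.mem_filter.mp hx).2)]
  refine Finset.sum_congr rfl fun S hS => ?_
  have h1 : (univ.filter (fun x : Gam p => supp p x ∈ 𝒮)).filter (fun x => supp p x = S) =
      Fintype.piFinset (fun i => if i ∈ S then univ.erase (0 : ZMod (p i)) else {0}) := by
    ext x
    simp only [Finset.mem_filter, Finset.mem_univ, true_and, Fintype.mem_piFinset]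
    constructor
    · rintro ⟨_, rfl⟩ i
      split_ifs with h
      · simpa [supp] using h
      · simpa [supp] using h
    · intro h
      have : supp p x = S := by
        ext i
        have := h i
        split_ifs at this with hi
        · simpa [supp, hi] using this
        · simpa [supp, hi] using this
      exact ⟨this ▸ hS, this⟩
  have h2 := Finset.prod_univ_sum
    (fun i => if i ∈ S then univ.erase (0 : ZMod (p i)) else {0})
    (fun i t => if i ∈ S then φ i t else 1)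
  have h3 : ∀ x ∈ (univ.filter (fun x : Gam p => supp p x ∈ 𝒮)).filter (fun x => supp p x = S),
      ∏ i ∈ supp p x, φ i (x i) = ∏ i, if i ∈ S then φ i (x i) else 1 := by
    intro x hx
    rw [(Finset.mem_filter.mp hx).2]
    simp
  rw [Finset.sum_congr rfl h3, h1, ← h2]
  have h4 : ∀ i, (∑ t ∈ (if i ∈ S then univ.erase (0 : ZMod (p i)) else {0}),
      if i ∈ S then φ i t else 1) = if i ∈ S then ∑ t ∈ univ.erase (0 : ZMod (p i)), φ i t else 1 := by
    intro i
    split_ifs <;> simp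
  simp_rw [h4]
  simp

lemma psub_pos (i : ι) : (0 : ℝ) < (p i : ℝ) - 1 := by
  have : (2 : ℝ) ≤ p i := by exact_mod_cast (hp i).out.two_le
  linarith

lemma card_erase_zero (i : ι) : ((univ.erase (0 : ZMod (p i))).card : ℝ) = (p i : ℝ) - 1 := by
  rw [Finset.card_erase_of_mem (Finset.mem_univ _), Finset.card_univ, ZMod.card,
    Nat.cast_sub (hp i).out.one_le, Nat.cast_one]

lemma psi_eq (x : Gam p) (m : ℕ) :
    psi p x m = ∏ i ∈ supp p x, stdAddChar (x i * (m : ZMod (p i))) := by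
  unfold psi supp
  rw [Finset.prod_filter]
  refine Finset.prod_congr rfl fun i _ => ?_
  split_ifs with h
  · rfl
  · rw [not_not.mp h, zero_mul, AddChar.map_zero_eq_one]

lemma AA_eq (R m : ℕ) (hm : ∀ i, ¬ p i ∣ m) : AA p R m = (GG p R : ℂ) := by
  unfold AA GG XX
  have h := supp_sum p (SS p R)
    (fun i t => ((-1 / ((p i : ℝ) - 1) : ℝ) : ℂ) * stdAddChar (t * (m : ZMod (p i))))
  have h1 : ∀ x : Gam p, (gg p x : ℂ) * psi p x m =
      ∏ i ∈ supp p x, ((-1 / ((p i : ℝ) - 1) : ℝ) : ℂ) * stdAddChar (x i * (m : ZMod (p i))) := by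
    intro x
    rw [psi_eq, Finset.prod_mul_distrib, gg, Complex.ofReal_prod]
  simp_rw [h1]
  rw [h, Complex.ofReal_sum]
  refine Finset.sum_congr rfl fun S _ => ?_
  rw [wt, Complex.ofReal_prod]
  refine Finset.prod_congr rfl fun i _ => ?_
  rw [← Finset.mul_sum]
  have h2 := orth (N := p i) (m : ZMod (p i))
  rw [if_neg (fun h => hm i ((ZMod.natCast_eq_zero_iff _ _).mp h)),
    ← Finset.add_sum_erase _ _ (Finset.mem_univ (0 : ZMod (p i))), zero_mul,
    AddChar.map_zero_eq_one] at h2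
  have h3 : ∑ t ∈ univ.erase (0 : ZMod (p i)), stdAddChar (t * (m : ZMod (p i))) = -1 := by
    linear_combination h2
  rw [h3]
  push_cast
  ring

lemma sum_gg_sq (𝒮 : Finset (Finset ι)) :
    ∑ x ∈ univ.filter (fun x : Gam p => supp p x ∈ 𝒮), gg p x ^ 2 = ∑ S ∈ 𝒮, wt p S := by
  have h := supp_sum p 𝒮 (fun i _ => (-1 / ((p i : ℝ) - 1)) ^ 2)
  simp_rw [gg, ← Finset.prod_pow]
  rw [h]
  refine Finset.sum_congr rfl fun S _ => Finset.prod_congr rfl fun i _ => ?_
  rw [Finset.sum_const, nsmul_eq_mul, card_erase_zero]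
  have := (psub_pos p i).ne'
  field_simp

lemma sum_abs_gg (R : ℕ) : ∑ x ∈ XX p R, |gg p x| = (SS p R).card := by
  have h := supp_sum p (SS p R) (fun i _ => |(-1 / ((p i : ℝ) - 1))|)
  simp_rw [gg, Finset.abs_prod]
  rw [XX, h, Finset.card_eq_sum_ones, Nat.cast_sum]
  refine Finset.sum_congr rfl fun S _ => ?_
  rw [Nat.cast_one]
  refine Finset.prod_eq_one fun i _ => ?_
  rw [Finset.sum_const, nsmul_eq_mul, card_erase_zero, abs_div, abs_of_pos (psub_pos p i)]
  have := (psub_pos p i).ne'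
  simp [this]

lemma wt_pos (S : Finset ι) : 0 < wt p S :=
  Finset.prod_pos fun i _ => one_div_pos.mpr (psub_pos p i)

lemma GG_nonneg (R : ℕ) : 0 ≤ GG p R := Finset.sum_nonneg fun S _ => (wt_pos p S).le

lemma inv_prod_le_wt (S : Finset ι) : 1 / ((∏ i ∈ S, p i : ℕ) : ℝ) ≤ wt p S := by
  rw [wt, Nat.cast_prod, one_div, ← Finset.prod_inv_distrib]
  refine Finset.prod_le_prod (fun i _ => by positivity) fun i _ => ?_
  rw [← one_div]
  exact one_div_le_one_div_of_le (psub_pos p i) (by linarith)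

lemma card_SS_le (R : ℕ) : ((SS p R).card : ℝ) ≤ R * GG p R := by
  rw [GG, Finset.mul_sum, Finset.card_eq_sum_ones, Nat.cast_sum]
  refine Finset.sum_le_sum fun S hS => ?_
  have h1 := inv_prod_le_wt p S
  have h2 : ((∏ i ∈ S, p i : ℕ) : ℝ) ≤ R := by exact_mod_cast (Finset.mem_filter.mp hS).2
  have h3 : (0 : ℝ) < ((∏ i ∈ S, p i : ℕ) : ℝ) := by
    exact_mod_cast Finset.prod_pos fun i _ => (hp i).out.pos
  rw [div_le_iff₀ h3] at h1
  have := wt_pos p S
  rw [Nat.cast_one]
  nlinarith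

lemma sum_mem_le (R : ℕ) (i : ι) :
    ∑ S ∈ (SS p R).filter (fun S => i ∈ S), wt p S ≤ GG p R / ((p i : ℝ) - 1) := by
  have h1 : ∀ S ∈ (SS p R).filter (fun S => i ∈ S), wt p S = wt p (S.erase i) / ((p i : ℝ) - 1) := by
    intro S hS
    rw [wt, ← Finset.mul_prod_erase _ _ (Finset.mem_filter.mp hS).2, wt]
    ring
  rw [Finset.sum_congr rfl h1, ← Finset.sum_div]
  apply div_le_div_of_nonneg_right _ (psub_pos p i).le
  have hinj : Set.InjOn (fun S : Finset ι => S.erase i)
      (((SS p R).filter (fun S => i ∈ S) : Finset (Finset ι)) : Set (Finset ι)) := by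
    intro S hS T hT h
    have h1 := (Finset.mem_filter.mp hS).2
    have h2 := (Finset.mem_filter.mp hT).2
    simp only at h
    rw [← Finset.insert_erase h1, ← Finset.insert_erase h2, h]
  have h2 := Finset.sum_image (f := wt p) hinj
  refine le_trans (le_of_eq h2.symm) ?_
  apply Finset.sum_le_sum_of_subset_of_nonneg _ (fun S _ _ => (wt_pos p S).le)
  intro S hS
  obtain ⟨T, hT, rfl⟩ := Finset.mem_image.mp hS
  have hT' := (Finset.mem_filter.mp (Finset.mem_filter.mp hT).1).2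
  refine Finset.mem_filter.mpr ⟨Finset.mem_univ _, le_trans ?_ hT'⟩
  exact Finset.prod_le_prod_of_subset_of_one_le' (Finset.erase_subset _ _)
    (fun j _ _ => (hp j).out.one_le)

lemma pair_left {G : Type} [AddCommGroup G] [DecidableEq G] (X : Finset G) (v : G) (F : G → ℝ)
    (hF : ∀ x, 0 ≤ F x) :
    ∑ x ∈ X, ∑ y ∈ X, (if x - y = v then F x else 0) ≤ ∑ x ∈ X, F x := by
  refine Finset.sum_le_sum fun x _ => ?_
  have : ∀ y, x - y = v ↔ x - v = y := fun y => by
    constructor <;> rintro rfl <;> abel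
  simp_rw [this]
  rw [Finset.sum_ite_eq]
  split_ifs
  · exact le_rfl
  · exact hF x

lemma pair_right {G : Type} [AddCommGroup G] [DecidableEq G] (X : Finset G) (v : G) (F : G → ℝ)
    (hF : ∀ x, 0 ≤ F x) :
    ∑ x ∈ X, ∑ y ∈ X, (if x - y = v then F y else 0) ≤ ∑ x ∈ X, F x := by
  rw [Finset.sum_comm]
  refine Finset.sum_le_sum fun y _ => ?_
  have : ∀ x, x - y = v ↔ v + y = x := fun x => by
    constructor <;> rintro rfl <;> abel
  simp_rw [this]
  rw [Finset.sum_ite_eq]
  split_ifs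
  · exact le_rfl
  · exact hF y

lemma corr_le (R : ℕ) {s : ℝ} (hs : 0 < s) (hsp : ∀ i, s ^ 2 ≤ (p i : ℝ) - 1) {v : Gam p}
    (hv : v ≠ 0) :
    ∑ x ∈ XX p R, ∑ y ∈ XX p R, (if x - y = v then |gg p x| * |gg p y| else 0) ≤
      2 * GG p R / s := by
  obtain ⟨i, hi⟩ := Function.ne_iff.mp hv
  simp only [Pi.zero_apply] at hi
  let a : Gam p → ℝ := fun x => if x i ≠ 0 then gg p x ^ 2 else 0
  let F : Gam p → ℝ := fun x => (s * a x + gg p x ^ 2 / s) / 2
  have ha : ∀ x, 0 ≤ a x := fun x => by simp only [a]; split_ifs <;> positivity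
  have hF : ∀ x, 0 ≤ F x := fun x => by have := ha x; simp only [F]; positivity
  have key : ∀ u w : ℝ, |u| * |w| ≤ (s * u ^ 2 + w ^ 2 / s) / 2 := by
    intro u w
    rw [← sq_abs u, ← sq_abs w]
    have : (s * |u| ^ 2 + |w| ^ 2 / s) / 2 - |u| * |w| = (s * |u| - |w|) ^ 2 / (2 * s) := by
      field_simp; ring
    have h2 : 0 ≤ (s * |u| - |w|) ^ 2 / (2 * s) := by positivity
    linarith
  have h1 : ∀ x y : Gam p, (if x - y = v then |gg p x| * |gg p y| else 0) ≤
      (if x - y = v then F x else 0) + (if x - y = v then F y else 0) := by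
    intro x y
    split_ifs with h
    · have q1 : 0 ≤ gg p x ^ 2 / s := by positivity
      have q2 : 0 ≤ gg p y ^ 2 / s := by positivity
      have q3 := mul_nonneg hs.le (ha x)
      have q4 := mul_nonneg hs.le (ha y)
      by_cases hx : x i ≠ 0
      · have := key (gg p x) (gg p y)
        have e : a x = gg p x ^ 2 := if_pos hx
        simp only [F]
        rw [e]
        linarith
      · have hy : y i ≠ 0 := by
          intro hy
          apply hi
          rw [← h, Pi.sub_apply, not_not.mp hx, hy, sub_zero]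
        have := key (gg p y) (gg p x)
        have e : a y = gg p y ^ 2 := if_pos hy
        simp only [F]
        rw [e]
        linarith
    · simp
  have h2 : ∑ x ∈ XX p R, F x ≤ GG p R / s := by
    simp only [F]
    rw [← Finset.sum_div, Finset.sum_add_distrib, ← Finset.mul_sum, ← Finset.sum_div]
    have b1 : ∑ x ∈ XX p R, gg p x ^ 2 = GG p R := sum_gg_sq p _
    have b2 : ∑ x ∈ XX p R, a x ≤ GG p R / s ^ 2 := by
      have := sum_gg_sq p ((SS p R).filter (fun S => i ∈ S))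
      simp only [a]
      rw [← Finset.sum_filter, XX, Finset.filter_filter]
      have e : (univ.filter (fun x : Gam p => supp p x ∈ SS p R ∧ x i ≠ 0)) =
          univ.filter (fun x : Gam p => supp p x ∈ (SS p R).filter (fun S => i ∈ S)) := by
        ext x; simp [supp]
      rw [e, this]
      refine (sum_mem_le p R i).trans ?_
      exact div_le_div_of_nonneg_left (GG_nonneg p R) (by positivity) (hsp i)
    rw [b1]
    have b3 : s * ∑ x ∈ XX p R, a x ≤ s * (GG p R / s ^ 2) := by gcongr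
    have b4 : s * (GG p R / s ^ 2) = GG p R / s := by field_simp
    linarith
  calc _ ≤ ∑ x ∈ XX p R, ∑ y ∈ XX p R,
        ((if x - y = v then F x else 0) + (if x - y = v then F y else 0)) :=
        Finset.sum_le_sum fun x _ => Finset.sum_le_sum fun y _ => h1 x y
    _ ≤ GG p R / s + GG p R / s := by
        simp_rw [Finset.sum_add_distrib]
        exact add_le_add ((pair_left _ v F hF).trans h2) ((pair_right _ v F hF).trans h2)
    _ = _ := by ring

lemma norm_psi (x : Gam p) (m : ℕ) : ‖psi p x m‖ = 1 := by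
  unfold psi
  rw [norm_prod]
  exact Finset.prod_eq_one fun i _ => norm_std _

lemma psi_sub (x y : Gam p) (m : ℕ) :
    psi p (x - y) m = psi p x m * (starRingEnd ℂ) (psi p y m) := by
  unfold psi
  rw [map_prod, ← Finset.prod_mul_distrib]
  refine Finset.prod_congr rfl fun i _ => ?_
  rw [conj_std, ← AddChar.map_add_eq_mul, Pi.sub_apply]
  congr 1
  ring

lemma psi_pow (x : Gam p) (m k : ℕ) : psi p x m ^ k = psi p x (m * k) := by
  unfold psi
  rw [← Finset.prod_pow]
  refine Finset.prod_congr rfl fun i _ => ?_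
  rw [← AddChar.map_nsmul_eq_pow, nsmul_eq_mul]
  congr 1
  push_cast
  ring

lemma psi_add (x : Gam p) (m k : ℕ) : psi p x (m + k) = psi p x m * psi p x k := by
  unfold psi
  rw [← Finset.prod_mul_distrib]
  refine Finset.prod_congr rfl fun i _ => ?_
  rw [← AddChar.map_add_eq_mul]
  congr 1
  push_cast
  ring

lemma psi_zero (m : ℕ) : psi p 0 m = 1 := by simp [psi]

lemma psi_pow_den (x : Gam p) (m : ℕ) : psi p x m ^ den p x = 1 := by
  rw [psi_pow, psi_eq]
  refine Finset.prod_eq_one fun i hi => ?_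
  have : ((m * den p x : ℕ) : ZMod (p i)) = 0 :=
    (ZMod.natCast_eq_zero_iff _ _).mpr (Dvd.dvd.mul_left (Finset.dvd_prod_of_mem _ hi) m)
  rw [this, mul_zero, AddChar.map_zero_eq_one]

lemma psi_ne_one (hinj : Function.Injective p) {x : Gam p} (hx : x ≠ 0) {m : ℕ}
    (hm : ∀ i, ¬ p i ∣ m) : psi p x m ≠ 1 := by
  obtain ⟨i, hi⟩ := Function.ne_iff.mp hx
  simp only [Pi.zero_apply] at hi
  intro h
  obtain ⟨Q, hQ⟩ : ∃ Q, Q = ∏ j ∈ univ.erase i, p j := ⟨_, rfl⟩
  have h1 : psi p x m ^ Q = 1 := by rw [h, one_pow]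
  have h0 : ∏ j ∈ univ.erase i, stdAddChar (x j * ((m * Q : ℕ) : ZMod (p j))) = 1 := by
    refine Finset.prod_eq_one fun j hj => ?_
    have : ((m * Q : ℕ) : ZMod (p j)) = 0 :=
      (ZMod.natCast_eq_zero_iff _ _).mpr
        (Dvd.dvd.mul_left (hQ ▸ Finset.dvd_prod_of_mem _ hj) m)
    rw [this, mul_zero, AddChar.map_zero_eq_one]
  rw [psi_pow, psi, ← Finset.mul_prod_erase _ _ (Finset.mem_univ i), h0, mul_one] at h1
  have h2 : x i * ((m * Q : ℕ) : ZMod (p i)) = 0 := by
    apply injective_stdAddChar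
    rw [h1, AddChar.map_zero_eq_one]
  rcases mul_eq_zero.mp h2 with h3 | h3
  · exact hi h3
  · rw [ZMod.natCast_eq_zero_iff] at h3
    rcases ((hp i).out.dvd_mul).mp h3 with h4 | h4
    · exact hm i h4
    · rw [hQ] at h4
      obtain ⟨j, hj, h5⟩ := (Prime.dvd_finsetProd_iff (hp i).out.prime _).mp h4
      have := (Nat.prime_dvd_prime_iff_eq (hp i).out (hp j).out).mp h5
      exact (Finset.mem_erase.mp hj).1 (hinj this).symm

lemma den_pos (x : Gam p) : 0 < den p x := Finset.prod_pos fun i _ => (hp i).out.pos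

lemma den_sub_le (x y : Gam p) : den p (x - y) ≤ den p x * den p y := by
  unfold den
  have h1 : supp p (x - y) ⊆ supp p x ∪ supp p y := by
    intro i hi
    simp only [supp, Finset.mem_filter, Finset.mem_univ, true_and, Finset.mem_union,
      Pi.sub_apply] at hi ⊢
    by_contra h
    push Not at h
    exact hi (by rw [h.1, h.2, sub_zero])
  refine (Finset.prod_le_prod_of_subset_of_one_le' h1 (fun j _ _ => (hp j).out.one_le)).trans ?_
  rw [← Finset.prod_union_inter]
  exact Nat.le_mul_of_pos_right _ (Finset.prod_pos fun i _ => (hp i).out.pos)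

lemma den_le {R : ℕ} {x : Gam p} (hx : x ∈ XX p R) : den p x ≤ R :=
  (Finset.mem_filter.mp (Finset.mem_filter.mp hx).2).2

theorem majorant_bound (hinj : Function.Injective p) (R W b N : ℕ) (hR : 0 < R)
    (hW : ∀ i, ¬ p i ∣ W) {s : ℝ} (hs : 0 < s) (hsp : ∀ i, s ^ 2 ≤ (p i : ℝ) - 1)
    {ω : ℂ} (hω : ‖ω‖ = 1) (hωN : ω ^ N = 1) :
    ‖∑ n ∈ range N, ((‖AA p R (W * n + b)‖ ^ 2 : ℝ) : ℂ) * ω ^ n‖ ≤
      N * ((if ω = 1 then GG p R else 0) + 2 * GG p R / s) + 4 * (R : ℝ) ^ 6 * GG p R ^ 2 := by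
  classical
  have hR' : (0 : ℝ) < R := by exact_mod_cast hR
  let D : Gam p → ℂ := fun v => ∑ n ∈ range N, (psi p v W * ω) ^ n
  have hnorm : ∀ v, ‖psi p v W * ω‖ = 1 := fun v => by rw [norm_mul, norm_psi, hω, one_mul]
  have e1 : ∑ n ∈ range N, ((‖AA p R (W * n + b)‖ ^ 2 : ℝ) : ℂ) * ω ^ n =
      ∑ x ∈ XX p R, ∑ y ∈ XX p R, (gg p x : ℂ) * (gg p y : ℂ) * psi p (x - y) b * D (x - y) := by
    have : ∀ n, ((‖AA p R (W * n + b)‖ ^ 2 : ℝ) : ℂ) * ω ^ n =
        ∑ x ∈ XX p R, ∑ y ∈ XX p R, (gg p x : ℂ) * (gg p y : ℂ) * psi p (x - y) b *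
          (psi p (x - y) W * ω) ^ n := by
      intro n
      rw [Complex.ofReal_pow, ← Complex.mul_conj', AA, map_sum, Finset.sum_mul_sum, Finset.sum_mul]
      refine Finset.sum_congr rfl fun x _ => ?_
      rw [Finset.sum_mul]
      refine Finset.sum_congr rfl fun y _ => ?_
      rw [map_mul (starRingEnd ℂ), Complex.conj_ofReal, mul_pow, psi_pow]
      have := psi_sub p x y (W * n + b)
      rw [psi_add] at this
      linear_combination (-(gg p x : ℂ) * (gg p y : ℂ) * ω ^ n) * this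
    simp_rw [this]
    rw [Finset.sum_comm]
    refine Finset.sum_congr rfl fun x _ => ?_
    rw [Finset.sum_comm]
    refine Finset.sum_congr rfl fun y _ => ?_
    rw [← Finset.mul_sum]
  let near : Gam p → Prop := fun v => den p v ≤ R * R ∧ ‖1 - psi p v W * ω‖ < 1 / (2 * (R : ℝ) ^ 4)
  have huniq : ∀ v v', near v → near v' → v = v' := by
    intro v v' h h'
    by_contra hne
    have a1 := root_far (norm_psi p (v - v') W) (den_pos p _) (psi_pow_den p _ W)
      (psi_ne_one p hinj (sub_ne_zero.mpr hne) hW)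
    have a2 : (den p (v - v') : ℝ) ≤ (R : ℝ) ^ 4 := by
      have : den p (v - v') ≤ R * R * (R * R) :=
        (den_sub_le p v v').trans (Nat.mul_le_mul h.1 h'.1)
      calc (den p (v - v') : ℝ) ≤ ((R * R * (R * R) : ℕ) : ℝ) := by exact_mod_cast this
        _ = _ := by push_cast; ring
    have a3 : ‖1 - psi p (v - v') W‖ < 1 / (R : ℝ) ^ 4 := by
      have b1 : (1 - psi p (v - v') W) * (psi p v' W * ω) =
          (1 - psi p v W * ω) - (1 - psi p v' W * ω) := by
        rw [psi_sub]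
        have := Complex.conj_mul' (psi p v' W)
        rw [norm_psi] at this
        simp only [Complex.ofReal_one, one_pow] at this
        linear_combination (-psi p v W * ω) * this
      have b2 := congrArg norm b1
      rw [norm_mul, hnorm, mul_one] at b2
      rw [b2]
      refine lt_of_le_of_lt (norm_sub_le _ _) ?_
      have := h.2
      have := h'.2
      have : 1 / (R : ℝ) ^ 4 = 1 / (2 * (R : ℝ) ^ 4) + 1 / (2 * (R : ℝ) ^ 4) := by field_simp; norm_num
      linarith
    rw [lt_div_iff₀ (by positivity)] at a3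
    have := norm_nonneg (1 - psi p (v - v') W)
    nlinarith
  have hfar : ∀ v, den p v ≤ R * R → ¬ near v → ‖D v‖ ≤ 4 * (R : ℝ) ^ 4 := by
    intro v h1 h2
    have h3 : 1 / (2 * (R : ℝ) ^ 4) ≤ ‖1 - psi p v W * ω‖ := by
      by_contra h
      exact h2 ⟨h1, not_le.mp h⟩
    have h4 := geom_le (hnorm v) N
    rw [div_le_iff₀ (by positivity)] at h3
    have h5 := norm_nonneg (D v)
    have h6 : 0 < (R : ℝ) ^ 4 := by positivity
    calc ‖D v‖ = 1 * ‖D v‖ := (one_mul _).symm
      _ ≤ (‖1 - psi p v W * ω‖ * (2 * (R : ℝ) ^ 4)) * ‖D v‖ := by gcongr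
      _ = (2 * (R : ℝ) ^ 4) * (‖1 - psi p v W * ω‖ * ‖D v‖) := by ring
      _ ≤ (2 * (R : ℝ) ^ 4) * 2 := by gcongr
      _ = _ := by ring
  have hD0 : ‖D 0‖ ≤ if ω = 1 then (N : ℝ) else 0 := by
    split_ifs with h
    · exact geom_le' (hnorm 0) N
    · simp only [D, psi_zero, one_mul]
      have := mul_neg_geom_sum ω N
      rw [hωN, sub_self] at this
      rw [(mul_eq_zero.mp this).resolve_left (sub_ne_zero.mpr (Ne.symm h)), norm_zero]
  have hG := GG_nonneg p R
  have hN : (0 : ℝ) ≤ N := by positivity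
  obtain ⟨C, hC0, hC1, hC2⟩ : ∃ C : Gam p → Gam p → ℝ, (∀ x y, 0 ≤ C x y) ∧
      ∑ x ∈ XX p R, ∑ y ∈ XX p R, C x y ≤ 2 * GG p R / s ∧
      ∀ x y, x - y ≠ 0 → near (x - y) → |gg p x| * |gg p y| ≤ C x y := by
    by_cases h : ∃ v, v ≠ 0 ∧ near v
    · obtain ⟨v, hv, hv'⟩ := h
      refine ⟨fun x y => if x - y = v then |gg p x| * |gg p y| else 0, ?_,
        corr_le p R hs hsp hv, ?_⟩
      · intro x y; simp only; split_ifs <;> positivity
      · intro x y _ h2
        simp only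
        rw [if_pos (huniq _ _ h2 hv')]
    · refine ⟨fun _ _ => 0, fun _ _ => le_rfl, by simp; positivity, fun x y h1 h2 => ?_⟩
      exact absurd ⟨_, h1, h2⟩ h
  have e2 : ∀ x ∈ XX p R, ∀ y ∈ XX p R,
      ‖(gg p x : ℂ) * (gg p y : ℂ) * psi p (x - y) b * D (x - y)‖ ≤
        (if x - y = 0 then (if ω = 1 then (N : ℝ) else 0) * gg p x ^ 2 else 0) + N * C x y +
          4 * (R : ℝ) ^ 4 * (|gg p x| * |gg p y|) := by
    intro x hx y hy
    rw [norm_mul, norm_mul, norm_mul, norm_psi, mul_one, Complex.norm_real, Complex.norm_real,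
      Real.norm_eq_abs, Real.norm_eq_abs]
    have q1 : 0 ≤ N * C x y := mul_nonneg hN (hC0 x y)
    have q2 : 0 ≤ |gg p x| * |gg p y| := by positivity
    have q3 : 0 ≤ 4 * (R : ℝ) ^ 4 * (|gg p x| * |gg p y|) := by positivity
    by_cases h0 : x - y = 0
    · rw [if_pos h0, h0]
      have : y = x := (sub_eq_zero.mp h0).symm
      subst this
      have : |gg p y| * |gg p y| * ‖D 0‖ ≤ (if ω = 1 then (N : ℝ) else 0) * gg p y ^ 2 := by
        rw [← sq, sq_abs, mul_comm]
        gcongr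
      linarith
    · rw [if_neg h0]
      by_cases h1 : near (x - y)
      · have a1 := hC2 x y h0 h1
        have a2 : ‖D (x - y)‖ ≤ N := geom_le' (hnorm _) N
        have : |gg p x| * |gg p y| * ‖D (x - y)‖ ≤ C x y * N := by
          gcongr
          exact hC0 x y
        linarith
      · have a1 := hfar (x - y)
          ((den_sub_le p x y).trans (Nat.mul_le_mul (den_le p hx) (den_le p hy))) h1
        have : |gg p x| * |gg p y| * ‖D (x - y)‖ ≤ |gg p x| * |gg p y| * (4 * (R : ℝ) ^ 4) := by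
          gcongr
        linarith
  rw [e1]
  refine (norm_sum_le _ _).trans ?_
  refine (Finset.sum_le_sum fun x hx => (norm_sum_le _ _).trans
    (Finset.sum_le_sum fun y hy => e2 x hx y hy)).trans ?_
  simp_rw [Finset.sum_add_distrib, ← Finset.mul_sum]
  have f1 := pair_left (XX p R) 0 (fun x => (if ω = 1 then (N : ℝ) else 0) * gg p x ^ 2)
    (fun x => by split_ifs <;> positivity)
  rw [← Finset.mul_sum] at f1
  have f2 : ∑ x ∈ XX p R, gg p x ^ 2 = GG p R := sum_gg_sq p _
  rw [f2] at f1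
  rw [← Finset.sum_mul, sum_abs_gg]
  have f3 := card_SS_le p R
  have f4 : 4 * (R : ℝ) ^ 4 * (((SS p R).card : ℝ) * ((SS p R).card : ℝ)) ≤
      4 * (R : ℝ) ^ 4 * ((R * GG p R) * (R * GG p R)) := by gcongr
  have f5 : N * ∑ x ∈ XX p R, ∑ y ∈ XX p R, C x y ≤ N * (2 * GG p R / s) := by gcongr
  have f6 : (if ω = 1 then (N : ℝ) else 0) * GG p R = N * (if ω = 1 then GG p R else 0) := by
    split_ifs <;> simp
  nlinarith

end Pool.Agent.Lib.helper22.AP3
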