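import Mathlib

set_option autoImplicit false

open Polynomial Finset intervalIntegral

namespace Pool.Agent.Lib.helper22.Unit

lemma exists_int_integral (p : ℤ[X]) {n : ℕ} (hp : p.natDegree < n) :
    ∃ z : ℤ, (z : ℝ) = Nat.lcmUpto n * ∫ u in (0 : ℝ)..1, aeval u p := by
  refine ⟨∑ i ∈ range n, p.coeff i * ((Nat.lcmUpto n / (i + 1) : ℕ) : ℤ), ?_⟩
  simp only [aeval_eq_sum_range' hp]
  rw [integral_finsetSum fun i _ => Continuous.intervalIntegrable (by fun_prop) _ _, mul_sum]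
  push_cast
  refine sum_congr rfl fun i hi => ?_
  have hd : i + 1 ∣ Nat.lcmUpto n :=
    Finset.dvd_lcm (f := id) (mem_Icc.mpr ⟨by omega, by simpa using hi⟩)
  simp only [zsmul_eq_mul]
  rw [integral_const_mul, integral_pow]
  have : (((Nat.lcmUpto n : ℤ) / ((i : ℤ) + 1) : ℤ) : ℝ)
      = (Nat.lcmUpto n : ℝ) / (i + 1) := by
    have h1 : ((i : ℤ) + 1) ∣ (Nat.lcmUpto n : ℤ) := by exact_mod_cast hd
    rw [Int.cast_div h1 (by push_cast; positivity)]
    simp
  rw [this]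
  simp
  ring

lemma exists_poly (ρ : ℕ) (α β : ℤ[X]) (hα : α.natDegree ≤ 1) (hβ : β.natDegree ≤ 1)
    (hα' : ∀ u ∈ Set.Icc (0 : ℝ) 1, |aeval u α| ≤ 1)
    (hβ' : ∀ u ∈ Set.Icc (0 : ℝ) 1, |aeval u β| ≤ 1) :
    ∃ P : ℤ[X], P.natDegree ≤ ρ ∧
      (∀ k, |(P.coeff k : ℝ)| ≤ 2 ^ ρ * Nat.lcmUpto (3 * ρ + 1)) ∧
      ∀ x : ℝ, aeval x P = Nat.lcmUpto (3 * ρ + 1) *
        ∫ u in (0 : ℝ)..1, u ^ ρ * (1 - u) ^ ρ * (aeval u α + aeval u β * x) ^ ρ := by
  have h : ∀ k, ∃ z : ℤ, k ≤ ρ → (z : ℝ) = Nat.lcmUpto (3 * ρ + 1) *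
      ∫ u in (0 : ℝ)..1, u ^ ρ * (1 - u) ^ ρ * (aeval u β ^ k * aeval u α ^ (ρ - k)) := by
    intro k
    by_cases hk : k ≤ ρ
    · obtain ⟨z, hz⟩ := exists_int_integral (X ^ ρ * (1 - X) ^ ρ * (β ^ k * α ^ (ρ - k)))
        (n := 3 * ρ + 1) (by
          have h1 : (X ^ ρ : ℤ[X]).natDegree ≤ ρ := by simp
          have h2 : ((1 - X) ^ ρ : ℤ[X]).natDegree ≤ ρ * 1 :=
            natDegree_pow_le_of_le _ (by compute_degree)
          have h3 := natDegree_pow_le_of_le k hβ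
          have h4 := natDegree_pow_le_of_le (ρ - k) hα
          have h5 := natDegree_mul_le_of_le (natDegree_mul_le_of_le h1 h2)
            (natDegree_mul_le_of_le h3 h4)
          omega)
      exact ⟨z, fun _ => by simpa using hz⟩
    · exact ⟨0, fun h => absurd h hk⟩
  choose z hz using h
  have hL : (0 : ℝ) ≤ Nat.lcmUpto (3 * ρ + 1) := Nat.cast_nonneg _
  refine ⟨∑ k ∈ range (ρ + 1), monomial k (ρ.choose k * z k), ?_, fun k => ?_, fun x => ?_⟩
  · exact natDegree_sum_le_of_forall_le _ _ fun k hk =>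
      (natDegree_monomial_le _).trans (by simpa [Nat.lt_succ_iff] using hk)
  · rw [finsetSum_coeff]
    simp only [coeff_monomial, sum_ite_eq', mem_range]
    split_ifs with hk
    · push_cast
      rw [abs_mul, hz k (by omega), abs_mul, abs_of_nonneg hL, Nat.abs_cast]
      refine mul_le_mul (by exact_mod_cast Nat.choose_le_two_pow ρ k)
        (mul_le_of_le_one_right hL ?_) (by positivity) (by positivity)
      have := norm_integral_le_of_norm_le_const (a := 0) (b := 1) (C := 1)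
        (f := fun u : ℝ => u ^ ρ * (1 - u) ^ ρ * (aeval u β ^ k * aeval u α ^ (ρ - k))) (by
          intro u hu
          rw [Set.uIoc_of_le zero_le_one] at hu
          have hu' : u ∈ Set.Icc (0 : ℝ) 1 := ⟨hu.1.le, hu.2⟩
          simp only [Real.norm_eq_abs, abs_mul, abs_pow]
          refine mul_le_one₀ (mul_le_one₀ (pow_le_one₀ (abs_nonneg _) ?_) (by positivity)
            (pow_le_one₀ (abs_nonneg _) ?_)) (by positivity)
            (mul_le_one₀ (pow_le_one₀ (abs_nonneg _) (hβ' u hu')) (by positivity)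
            (pow_le_one₀ (abs_nonneg _) (hα' u hu')))
          · rw [abs_le]; constructor <;> linarith [hu.1, hu.2]
          · rw [abs_le]; constructor <;> linarith [hu.1, hu.2])
      simpa using this
    · simp
  · rw [map_sum]
    have e : ∀ u : ℝ, u ^ ρ * (1 - u) ^ ρ * (aeval u α + aeval u β * x) ^ ρ
        = ∑ k ∈ range (ρ + 1), (ρ.choose k * x ^ k) *
          (u ^ ρ * (1 - u) ^ ρ * (aeval u β ^ k * aeval u α ^ (ρ - k))) := by
      intro u
      rw [add_comm (aeval u α), add_pow, mul_sum]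
      exact sum_congr rfl fun k _ => by rw [mul_pow]; ring
    simp only [e]
    rw [integral_finsetSum fun i _ => Continuous.intervalIntegrable (by fun_prop) _ _, mul_sum]
    refine sum_congr rfl fun k hk => ?_
    rw [integral_const_mul, aeval_monomial]
    simp only [eq_intCast, Int.cast_mul, Int.cast_natCast]
    rw [hz k (by simpa [Nat.lt_succ_iff] using hk)]
    ring

lemma pade_base (ρ : ℕ) : ∃ E V W : ℤ[X], E.natDegree ≤ ρ ∧ V.natDegree ≤ ρ ∧ W.natDegree ≤ ρ ∧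
    (∀ k, |(E.coeff k : ℝ)| ≤ 2 ^ ρ * Nat.lcmUpto (3 * ρ + 1)) ∧
    (∀ k, |(V.coeff k : ℝ)| ≤ 2 ^ ρ * Nat.lcmUpto (3 * ρ + 1)) ∧
    (∀ k, |(W.coeff k : ℝ)| ≤ 2 ^ ρ * Nat.lcmUpto (3 * ρ + 1)) ∧
    X ^ (2 * ρ + 1) * E + (1 - X) ^ (2 * ρ + 1) * V = W ∧ E.eval 0 ≠ 0 ∧ V.eval 0 ≠ 0 := by
  have b1 : ∀ u ∈ Set.Icc (0 : ℝ) 1, |aeval u (X : ℤ[X])| ≤ 1 := fun u hu => by
    rw [aeval_X, abs_le]; constructor <;> linarith [hu.1, hu.2]
  have b2 : ∀ u ∈ Set.Icc (0 : ℝ) 1, |aeval u (-1 : ℤ[X])| ≤ 1 := fun u _ => by simp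
  have b3 : ∀ u ∈ Set.Icc (0 : ℝ) 1, |aeval u (1 - X : ℤ[X])| ≤ 1 := fun u hu => by
    rw [map_sub, map_one, aeval_X, abs_le]; constructor <;> linarith [hu.1, hu.2]
  obtain ⟨E, hE1, hE2, hE3⟩ := exists_poly ρ (-1) X (by simp) (by simp) b2 b1
  obtain ⟨V, hV1, hV2, hV3⟩ := exists_poly ρ (1 - X) X (by compute_degree) (by simp) b3 b1
  obtain ⟨W, hW1, hW2, hW3⟩ := exists_poly ρ X (-1) (by simp) (by simp) b1 b2
  simp only [map_neg, map_one, aeval_X, map_sub] at hE3 hV3 hW3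
  have hL : (0 : ℝ) < Nat.lcmUpto (3 * ρ + 1) := by
    exact_mod_cast Nat.lcmUpto_pos _
  refine ⟨E, V, W, hE1, hV1, hW1, hE2, hV2, hW2, ?_, ?_, ?_⟩
  · apply map_injective (algebraMap ℤ ℝ) (RingHom.injective_int _)
    refine Polynomial.funext fun x => ?_
    simp only [eval_map_algebraMap, map_add, map_mul, map_pow, map_sub, map_one, aeval_X]
    rw [hE3, hV3, hW3]
    set F : ℝ → ℝ := fun t => t ^ ρ * (1 - t) ^ ρ * (t + -1 * x) ^ ρ with hF
    have hFc : Continuous F := by fun_prop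
    have h1 := mul_integral_comp_mul_left (f := F) (a := 0) (b := 1) x
    have h2 := mul_integral_comp_sub_mul (f := F) (a := 0) (b := 1) (1 - x) 1
    simp only [mul_zero, mul_one, sub_zero, sub_sub_cancel] at h1 h2
    rw [← integral_add_adjacent_intervals (hFc.intervalIntegrable 0 x) (hFc.intervalIntegrable x 1),
      ← h1, ← h2]
    have e1 : ∀ u : ℝ, F (x * u) = x ^ (2 * ρ) * (u ^ ρ * (1 - u) ^ ρ * (-1 + u * x) ^ ρ) := by
      intro u
      simp only [hF]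
      rw [pow_mul, ← mul_pow, ← mul_pow, ← mul_pow, ← mul_pow, ← mul_pow]
      congr 1; ring
    have e2 : ∀ u : ℝ, F (1 - (1 - x) * u)
        = (1 - x) ^ (2 * ρ) * (u ^ ρ * (1 - u) ^ ρ * (1 - u + u * x) ^ ρ) := by
      intro u
      simp only [hF]
      rw [pow_mul, ← mul_pow, ← mul_pow, ← mul_pow, ← mul_pow, ← mul_pow]
      congr 1; ring
    simp only [e1, e2, integral_const_mul]
    ring
  · intro h
    have h1 := hE3 0
    rw [show (0 : ℝ) = algebraMap ℤ ℝ 0 by simp, aeval_algebraMap_apply, coe_aeval_eq_eval, h]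
      at h1
    simp only [map_zero, mul_zero, add_zero] at h1
    rw [integral_mul_const] at h1
    have h2 : 0 < ∫ u in (0 : ℝ)..1, u ^ ρ * (1 - u) ^ ρ :=
      intervalIntegral_pos_of_pos_on (Continuous.intervalIntegrable (by fun_prop) _ _)
        (fun u hu => mul_pos (pow_pos hu.1 _) (pow_pos (by linarith [hu.2]) _)) one_pos
    exact mul_ne_zero hL.ne' (mul_ne_zero h2.ne' (pow_ne_zero _ (by norm_num))) h1.symm
  · intro h
    have h1 := hV3 0
    rw [show (0 : ℝ) = algebraMap ℤ ℝ 0 by simp, aeval_algebraMap_apply, coe_aeval_eq_eval, h]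
      at h1
    simp only [map_zero, mul_zero, add_zero] at h1
    have h2 : 0 < ∫ u in (0 : ℝ)..1, u ^ ρ * (1 - u) ^ ρ * (1 - u) ^ ρ :=
      intervalIntegral_pos_of_pos_on (Continuous.intervalIntegrable (by fun_prop) _ _)
        (fun u hu => mul_pos (mul_pos (pow_pos hu.1 _) (pow_pos (by linarith [hu.2]) _))
          (pow_pos (by linarith [hu.2]) _)) one_pos
    exact mul_ne_zero hL.ne' h2.ne' h1.symm

/-- coefficients bounded by `B` -/
def Bd (P : ℤ[X]) (B : ℝ) : Prop := ∀ k, |(P.coeff k : ℝ)| ≤ B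

lemma Bd.nonneg {P : ℤ[X]} {B : ℝ} (h : Bd P B) : 0 ≤ B := (abs_nonneg _).trans (h 0)

lemma Bd.mono {P : ℤ[X]} {B B' : ℝ} (h : Bd P B) (h' : B ≤ B') : Bd P B' :=
  fun k => (h k).trans h'

lemma Bd.add {P Q : ℤ[X]} {B B' : ℝ} (h : Bd P B) (h' : Bd Q B') : Bd (P + Q) (B + B') := by
  intro k
  rw [coeff_add, Int.cast_add]
  exact (abs_add_le _ _).trans (add_le_add (h k) (h' k))

lemma Bd.sub {P Q : ℤ[X]} {B B' : ℝ} (h : Bd P B) (h' : Bd Q B') : Bd (P - Q) (B + B') := by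
  intro k
  rw [coeff_sub, Int.cast_sub]
  exact (abs_sub _ _).trans (add_le_add (h k) (h' k))

lemma Bd.X_mul {P : ℤ[X]} {B : ℝ} (h : Bd P B) : Bd (X * P) B := by
  intro k
  rcases k with _ | k
  · simpa using h.nonneg
  · rw [coeff_X_mul]; exact h k

lemma Bd.one_sub_X_mul {P : ℤ[X]} {B : ℝ} (h : Bd P B) : Bd ((1 - X) * P) (B + B) := by
  rw [sub_mul, one_mul]; exact h.sub h.X_mul

lemma Bd.nat_mul {P : ℤ[X]} {B : ℝ} (h : Bd P B) (n : ℕ) : Bd ((n : ℤ[X]) * P) (n * B) := by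
  intro k
  rw [coeff_natCast_mul, Int.cast_mul, abs_mul, Int.cast_natCast, Nat.abs_cast]
  exact mul_le_mul_of_nonneg_left (h k) (Nat.cast_nonneg _)

lemma Bd.deriv {P : ℤ[X]} {B : ℝ} (h : Bd P B) {n : ℕ} (hn : P.natDegree ≤ n) :
    Bd (derivative P) (n * B) := by
  intro k
  rw [coeff_derivative]
  by_cases hk : n < k + 1
  · rw [coeff_eq_zero_of_natDegree_lt (hn.trans_lt hk)]
    simpa using mul_nonneg (Nat.cast_nonneg n) h.nonneg
  · push_cast
    rw [abs_mul, mul_comm]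
    refine mul_le_mul ?_ (h _) (abs_nonneg _) (Nat.cast_nonneg _)
    rw [abs_of_nonneg (by positivity)]
    exact_mod_cast not_lt.mp hk

theorem pade : ∃ C₀ : ℝ, 0 ≤ C₀ ∧ ∀ ρ : ℕ, ∃ (E V W : Fin 2 → ℤ[X]) (c : ℤ), c ≠ 0 ∧
    (∀ i, (E i).natDegree ≤ ρ + 1 ∧ (V i).natDegree ≤ ρ + 1 ∧ (W i).natDegree ≤ ρ + 1 ∧
      Bd (E i) (Real.exp (C₀ * (ρ + 1))) ∧ Bd (V i) (Real.exp (C₀ * (ρ + 1))) ∧
      Bd (W i) (Real.exp (C₀ * (ρ + 1))) ∧
      X ^ (2 * ρ + 1) * E i + (1 - X) ^ (2 * ρ + 1) * V i = W i) ∧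
    E 0 * V 1 - V 0 * E 1 = C c := by
  refine ⟨7 + 3 * (Real.log 4 + 4), by positivity, fun ρ => ?_⟩
  obtain ⟨E, V, W, hE1, hV1, hW1, hE2, hV2, hW2, hid, hE0, hV0⟩ := pade_base ρ
  set N := 2 * ρ + 1 with hN
  set B : ℝ := 2 ^ ρ * Nat.lcmUpto (3 * ρ + 1) with hB
  have hB0 : 0 ≤ B := by positivity
  have hBle : (6 * ρ + 2) * B ≤ Real.exp ((7 + 3 * (Real.log 4 + 4)) * (ρ + 1)) := by
    have h1 : (6 * ρ + 2 : ℝ) ≤ Real.exp (6 * (ρ + 1)) := by
      linarith [Real.add_one_le_exp (6 * (ρ + 1 : ℝ))]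
    have h2 : (2 : ℝ) ^ ρ ≤ Real.exp (ρ + 1) := by
      calc (2 : ℝ) ^ ρ ≤ Real.exp 1 ^ ρ :=
            pow_le_pow_left₀ zero_le_two (by linarith [Real.add_one_le_exp 1]) _
        _ = Real.exp ρ := by rw [← Real.exp_nat_mul, mul_one]
        _ ≤ _ := Real.exp_le_exp.mpr (by linarith)
    have h3 : (Nat.lcmUpto (3 * ρ + 1) : ℝ) ≤ Real.exp (3 * (Real.log 4 + 4) * (ρ + 1)) := by
      rw [← Real.log_le_iff_le_exp (by exact_mod_cast Nat.lcmUpto_pos _),
        ← Chebyshev.psi_eq_log_lcmUpto]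
      refine (Chebyshev.psi_le_const_mul_self (Nat.cast_nonneg _)).trans ?_
      push_cast
      have : 0 ≤ Real.log 4 + 4 := by positivity
      nlinarith
    calc (6 * ρ + 2) * B ≤ Real.exp (6 * (ρ + 1)) * (Real.exp (ρ + 1)
          * Real.exp (3 * (Real.log 4 + 4) * (ρ + 1))) := by rw [hB]; gcongr
      _ = _ := by rw [← Real.exp_add, ← Real.exp_add]; congr 1; ring
  have hρ : (0 : ℝ) ≤ ρ := Nat.cast_nonneg _
  have hNR : (N : ℝ) = 2 * ρ + 1 := by rw [hN]; push_cast; ring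
  set E1 : ℤ[X] := (1 - X) * ((N : ℤ[X]) * E + X * derivative E) with hE1def
  set V1 : ℤ[X] := (1 - X) * (X * derivative V) - (N : ℤ[X]) * (X * V) with hV1def
  set W1 : ℤ[X] := (1 - X) * (X * derivative W) with hW1def
  have hd : ∀ P : ℤ[X], P.natDegree ≤ ρ → (X * derivative P).natDegree ≤ ρ := by
    intro P hP
    by_cases h0 : P.natDegree = 0
    · rw [derivative_of_natDegree_zero h0]; simp
    · have h1 := natDegree_derivative_le P
      have h2 := natDegree_mul_le_of_le (natDegree_X_le (R := ℤ)) h1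
      omega
  have h1X : (1 - X : ℤ[X]).natDegree ≤ 1 := by compute_degree
  have hid1 : X ^ N * E1 + (1 - X) ^ N * V1 = W1 := by
    have h := congrArg derivative hid
    rw [derivative_add, derivative_mul, derivative_mul, derivative_X_pow, derivative_pow,
      derivative_sub, derivative_one, derivative_X, hN, Nat.add_sub_cancel] at h
    rw [hW1def, ← h, hE1def, hV1def, hN]
    simp only [map_natCast]
    ring
  have hdeg : (E * V1 - V * E1).natDegree = 0 := by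
    have key : X ^ N * (1 - X) ^ N * (E * V1 - V * E1)
        = (1 - X) ^ N * (W * V1 - V * W1) := by
      rw [← hid, ← hid1]; ring
    by_contra hne
    have h0 : E * V1 - V * E1 ≠ 0 := ne_zero_of_natDegree_gt (Nat.pos_of_ne_zero hne)
    have hX : (1 - X : ℤ[X]) ^ N ≠ 0 := pow_ne_zero _ fun h => by
      simpa using congrArg (eval 0) h
    rw [mul_right_comm, mul_comm] at key
    have key2 := mul_left_cancel₀ hX key
    have h3 := congrArg natDegree key2
    rw [natDegree_mul (pow_ne_zero _ X_ne_zero) h0, natDegree_X_pow] at h3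
    have h4 : (W * V1).natDegree ≤ ρ + (ρ + 1) := by
      refine natDegree_mul_le_of_le hW1 ((natDegree_sub_le _ _).trans (max_le ?_ ?_))
      · exact (natDegree_mul_le_of_le h1X (hd V hV1)).trans (by omega)
      · exact (natDegree_mul_le_of_le (natDegree_natCast N).le
          (natDegree_mul_le_of_le natDegree_X_le hV1)).trans (by omega)
    have h5 : (V * W1).natDegree ≤ ρ + (1 + ρ) :=
      natDegree_mul_le_of_le hV1 (natDegree_mul_le_of_le h1X (hd W hW1))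
    have h6 := natDegree_sub_le (W * V1) (V * W1)
    omega
  refine ⟨![E, E1], ![V, V1], ![W, W1], -(N * V.eval 0 * E.eval 0), ?_, ?_, ?_⟩
  · rw [neg_ne_zero]
    exact mul_ne_zero (mul_ne_zero (by rw [hN]; positivity) hV0) hE0
  · have hBB : B ≤ (6 * ρ + 2) * B := by nlinarith
    rw [Fin.forall_fin_two]
    refine ⟨⟨hE1.trans (by omega), hV1.trans (by omega), hW1.trans (by omega),
      Bd.mono hE2 (hBB.trans hBle), Bd.mono hV2 (hBB.trans hBle), Bd.mono hW2 (hBB.trans hBle),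
      hid⟩, ?_, ?_, ?_, ?_, ?_, ?_, hid1⟩
    · refine (natDegree_mul_le_of_le h1X ((natDegree_add_le _ _).trans (max_le ?_ (hd E hE1)))).trans
        (by omega)
      exact (natDegree_mul_le_of_le (natDegree_natCast N).le hE1).trans (by omega)
    · refine (natDegree_sub_le _ _).trans (max_le ?_ ?_)
      · exact (natDegree_mul_le_of_le h1X (hd V hV1)).trans (by omega)
      · exact (natDegree_mul_le_of_le (natDegree_natCast N).le
          (natDegree_mul_le_of_le natDegree_X_le hV1)).trans (by omega)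
    · exact (natDegree_mul_le_of_le h1X (hd W hW1)).trans (by omega)
    · refine (((Bd.nat_mul hE2 N).add (Bd.deriv hE2 hE1).X_mul).one_sub_X_mul).mono
        (le_trans ?_ hBle)
      rw [hNR]; nlinarith
    · refine (((Bd.deriv hV2 hV1).X_mul.one_sub_X_mul).sub ((Bd.X_mul hV2).nat_mul N)).mono
        (le_trans ?_ hBle)
      rw [hNR]; nlinarith
    · refine ((Bd.deriv hW2 hW1).X_mul.one_sub_X_mul).mono (le_trans ?_ hBle)
      nlinarith
  · change E * V1 - V * E1 = _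
    rw [eq_C_of_natDegree_eq_zero hdeg, coeff_zero_eq_eval_zero]
    congr 1
    simp [hE1def, hV1def]
    ring

end Pool.Agent.Lib.helper22.Unit
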