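import Pool.Agent.Lib.helper22.Majorant

set_option autoImplicit false

open Finset ZMod

namespace Pool.Agent.Lib.helper22.AP3

/-- primes in `(z, R]` -/
def PP (z R : ℕ) : Finset ℕ := (Finset.Ioc z R).filter Nat.Prime

instance PP_prime (z R : ℕ) (i : PP z R) : Fact (i.1).Prime := ⟨(Finset.mem_filter.mp i.2).2⟩

/-- the product of `1 + 1/ℓ` over primes up to `z` -/
noncomputable def PI (z : ℕ) : ℝ := ∏ l ∈ Nat.primesLE z, (1 + 1 / (l : ℝ))

lemma one_le_PI (z : ℕ) : 1 ≤ PI z := by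
  unfold PI
  exact Finset.one_le_prod (fun i _ => by
    have : (0 : ℝ) ≤ 1 / (i : ℝ) := by positivity
    linarith)

lemma G_lower (z R : ℕ) :
    Real.log (R + 1) ≤ 2 * PI z * GG (Subtype.val : PP z R → ℕ) R := by
  classical
  let p : PP z R → ℕ := Subtype.val
  let T := (Finset.Ioo 0 (R + 1)) ×ˢ ((Nat.primesLE z).powerset ×ˢ SS p R)
  let φ : ℕ × Finset ℕ × Finset (PP z R) → ℕ :=
    fun t => t.1 ^ 2 * ((∏ l ∈ t.2.1, l) * ∏ i ∈ t.2.2, p i)
  have h1 : Real.log (R + 1) ≤ ∑ n ∈ Finset.Icc 1 R, 1 / (n : ℝ) := by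
    have := log_add_one_le_harmonic R
    rw [harmonic_eq_sum_Icc] at this
    push_cast at this
    simpa using this
  have h2 : Finset.Icc 1 R ⊆ T.image φ := by
    intro n hn
    rw [Finset.mem_Icc] at hn
    obtain ⟨a, b, ha, hb, hab, hsq⟩ := Nat.sq_mul_squarefree_of_pos (n := n) (by omega)
    have han : a ≤ n := Nat.le_of_dvd (by omega) ⟨b ^ 2, by rw [← hab]; ring⟩
    have hbn : b ≤ n := Nat.le_of_dvd (by omega) ⟨b * a, by rw [← hab]; ring⟩
    have e1 : ∏ i ∈ (a.primeFactors).subtype (fun l => l ∈ PP z R), p i =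
        ∏ l ∈ a.primeFactors.filter (fun l => ¬ l ≤ z), l := by
      have := Finset.prod_subtype_eq_prod_filter (s := a.primeFactors) (p := fun l => l ∈ PP z R)
        (fun l : ℕ => l)
      refine this.trans (Finset.prod_congr ?_ fun _ _ => rfl)
      apply Finset.filter_congr
      intro l hl
      have hl1 := Nat.le_of_mem_primeFactors hl
      have hl2 := Nat.prime_of_mem_primeFactors hl
      simp only [PP, Finset.mem_filter, Finset.mem_Ioc, hl2, and_true]
      omega
    have e2 := Finset.prod_filter_mul_prod_filter_not a.primeFactors (fun l => l ≤ z) (fun l => l)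
    rw [Nat.prod_primeFactors_of_squarefree hsq] at e2
    refine Finset.mem_image.mpr ⟨(b, a.primeFactors.filter (fun l => l ≤ z),
      (a.primeFactors).subtype (fun l => l ∈ PP z R)), ?_, ?_⟩
    · simp only [T, Finset.mem_product, Finset.mem_Ioo, Finset.mem_powerset, SS,
        Finset.mem_filter, Finset.mem_univ, true_and]
      refine ⟨⟨hb, by omega⟩, ?_, ?_⟩
      · intro l hl
        rw [Finset.mem_filter] at hl
        exact Nat.mem_primesLE.mpr ⟨hl.2, Nat.prime_of_mem_primeFactors hl.1⟩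
      · rw [e1]
        have : ∏ l ∈ a.primeFactors.filter (fun l => ¬ l ≤ z), l ≤ a :=
          Nat.le_of_dvd ha ⟨_, by rw [mul_comm]; exact e2.symm⟩
        omega
    · simp only [φ]
      rw [e1, e2, hab]
  have h3 : ∑ n ∈ Finset.Icc 1 R, 1 / (n : ℝ) ≤ ∑ t ∈ T, 1 / (φ t : ℝ) :=
    (Finset.sum_le_sum_of_subset_of_nonneg h2 (fun _ _ _ => by positivity)).trans
      (Finset.sum_image_le_of_nonneg (fun _ _ => by positivity))
  have h4 : ∑ t ∈ T, 1 / (φ t : ℝ) ≤
      (∑ m ∈ Finset.Ioo 0 (R + 1), ((m : ℝ) ^ 2)⁻¹) * (PI z * GG p R) := by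
    rw [PI, Finset.prod_one_add, GG, Finset.sum_mul_sum, ← Finset.sum_product',
      Finset.sum_mul_sum, ← Finset.sum_product']
    refine Finset.sum_le_sum fun t _ => ?_
    have a1 := inv_prod_le_wt p t.2.2
    have a2 : 1 / (φ t : ℝ) = ((t.1 : ℝ) ^ 2)⁻¹ * ((∏ l ∈ t.2.1, 1 / (l : ℝ)) *
        (1 / ((∏ i ∈ t.2.2, p i : ℕ) : ℝ))) := by
      simp only [φ, one_div, Finset.prod_inv_distrib]
      push_cast
      rw [mul_inv, mul_inv]
    rw [a2]
    have : 0 ≤ ∏ l ∈ t.2.1, 1 / (l : ℝ) := Finset.prod_nonneg fun _ _ => by positivity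
    gcongr
  have h5 : ∑ m ∈ Finset.Ioo 0 (R + 1), ((m : ℝ) ^ 2)⁻¹ ≤ 2 := by
    have := sum_Ioo_inv_sq_le (α := ℝ) 0 (R + 1)
    simpa using this
  have h6 : 0 ≤ PI z * GG p R := mul_nonneg (by linarith [one_le_PI z]) (GG_nonneg p R)
  calc _ ≤ _ := h1
    _ ≤ _ := h3
    _ ≤ _ := h4
    _ ≤ 2 * (PI z * GG p R) := by gcongr
    _ = _ := by ring

lemma PI_step : ∃ y₀ : ℕ, ∀ y, y₀ ≤ y → PI (1024 * y) ≤ 2 * PI y := by
  have h := Chebyshev.eventually_primeCounting_le (ε := 1) one_pos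
  have h' := Real.tendsto_log_atTop.eventually_ge_atTop (1024 * (Real.log 4 + 1) / Real.log 2)
  obtain ⟨x₀, hx₀⟩ := Filter.eventually_atTop.mp (h.and h')
  refine ⟨⌈x₀⌉₊ + 1, fun y hy => ?_⟩
  have hy0 : (0 : ℝ) < y := by exact_mod_cast (by omega : 0 < y)
  have hy1 : x₀ ≤ ((1024 * y : ℕ) : ℝ) := by
    have : (⌈x₀⌉₊ : ℝ) ≤ ((1024 * y : ℕ) : ℝ) := by exact_mod_cast (by omega)
    exact (Nat.le_ceil _).trans this
  obtain ⟨h1, h2⟩ := hx₀ _ hy1
  rw [Nat.floor_natCast] at h1
  have hl2 : 0 < Real.log 2 := Real.log_pos (by norm_num)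
  have hl4 : 0 < Real.log 4 := Real.log_pos (by norm_num)
  have h3 : ((Nat.primeCounting (1024 * y) : ℕ) : ℝ) ≤ Real.log 2 * y := by
    refine h1.trans ?_
    have hpos : 0 < Real.log ((1024 * y : ℕ) : ℝ) := lt_of_lt_of_le (by positivity) h2
    rw [div_le_iff₀ hpos]
    rw [div_le_iff₀ hl2] at h2
    push_cast at h2 ⊢
    nlinarith
  have hsub : Nat.primesLE y ⊆ Nat.primesLE (1024 * y) := Nat.primesLE_mono (by omega)
  unfold PI
  rw [← Finset.prod_sdiff hsub]
  have h4 : ∏ l ∈ Nat.primesLE (1024 * y) \ Nat.primesLE y, (1 + 1 / (l : ℝ)) ≤ 2 := by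
    refine (Real.prod_one_add_le_exp_sum _ (fun i => by positivity)).trans ?_
    rw [← Real.exp_log (x := 2) two_pos]
    apply Real.exp_le_exp.mpr
    have a1 : ∑ l ∈ Nat.primesLE (1024 * y) \ Nat.primesLE y, 1 / (l : ℝ) ≤
        ∑ l ∈ Nat.primesLE (1024 * y) \ Nat.primesLE y, 1 / (y : ℝ) := by
      refine Finset.sum_le_sum fun l hl => ?_
      rw [Finset.mem_sdiff, Nat.mem_primesLE, Nat.mem_primesLE] at hl
      have : y ≤ l := by
        by_contra h
        exact hl.2 ⟨by omega, hl.1.2⟩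
      exact one_div_le_one_div_of_le hy0 (by exact_mod_cast this)
    refine a1.trans ?_
    rw [Finset.sum_const, nsmul_eq_mul, mul_one_div, div_le_iff₀ hy0]
    refine le_trans ?_ h3
    rw [← Nat.primesLE_card_eq_primeCounting]
    exact_mod_cast Finset.card_le_card Finset.sdiff_subset
  have h5 := one_le_PI y
  unfold PI at h5
  gcongr

lemma PI_iter {y₀ : ℕ} (h : ∀ y, y₀ ≤ y → PI (1024 * y) ≤ 2 * PI y) {w : ℕ} (hw : y₀ ≤ w)
    (j : ℕ) : PI (1024 ^ j * w) ≤ 2 ^ j * PI w := by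
  induction j with
  | zero => simp
  | succ j ih =>
    have h1 : y₀ ≤ 1024 ^ j * w := hw.trans (Nat.le_mul_of_pos_left _ (by positivity))
    have h2 := h _ h1
    rw [pow_succ', mul_assoc, pow_succ', mul_assoc]
    linarith

lemma totient_mul_PI (w : ℕ) : ((primorial w).totient : ℝ) * PI w ≤ primorial w := by
  have h := Nat.totient_eq_mul_prod_factors (primorial w)
  have h' : ((primorial w).totient : ℝ) =
      primorial w * ∏ l ∈ Nat.primesLE w, (1 - (l : ℝ)⁻¹) := by
    rw [primeFactors_primorial] at h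
    have := congrArg (Rat.cast : ℚ → ℝ) h
    push_cast at this
    exact this
  rw [h', mul_assoc, PI, ← Finset.prod_mul_distrib]
  apply mul_le_of_le_one_right (by positivity)
  apply Finset.prod_le_one
  · intro l hl
    have : (1 : ℝ) ≤ l := by exact_mod_cast (Nat.one_lt_of_mem_primesLE hl).le
    have := inv_le_one_of_one_le₀ this
    apply mul_nonneg (by linarith) (by positivity)
  · intro l _
    rw [one_div]
    nlinarith [sq_nonneg ((l : ℝ)⁻¹)]

lemma sum_val {M : Type} [AddCommMonoid M] {N : ℕ} [NeZero N] (g : ℕ → M) :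
    ∑ x : ZMod N, g x.val = ∑ n ∈ range N, g n := by
  refine Finset.sum_bij (fun x _ => x.val) (fun x _ => Finset.mem_range.mpr (ZMod.val_lt x))
    (fun x _ y _ h => ZMod.val_injective N h) ?_ (fun _ _ => rfl)
  intro n hn
  exact ⟨(n : ZMod N), Finset.mem_univ _, ZMod.val_cast_of_lt (Finset.mem_range.mp hn)⟩

/-- many primes in `(R, n)` -/
lemma many_primes {R n : ℕ} (hR : 16 ≤ R) (h1 : R ^ 4 ≤ n) (h2 : n ≤ R ^ 9) :
    (n : ℝ) / (36 * Real.log R) ≤
      (((range n).filter (fun q => q.Prime ∧ R < q)).card : ℝ) := by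
  have hR' : (16 : ℝ) ≤ R := by exact_mod_cast hR
  have h1' : (R : ℝ) ^ 4 ≤ n := by exact_mod_cast h1
  have h2' : (n : ℝ) ≤ (R : ℝ) ^ 9 := by exact_mod_cast h2
  have hR4 : (R : ℝ) ≤ (R : ℝ) ^ 4 := le_self_pow₀ (by linarith) (by norm_num)
  have hn : (16 : ℝ) ≤ n := by linarith
  have hlR : 0 < Real.log R := Real.log_pos (by linarith)
  have hln : 0 < Real.log n := Real.log_pos (by linarith)
  have a1 : Real.log n ≤ 9 * Real.log R := by
    calc Real.log n ≤ Real.log ((R : ℝ) ^ 9) := Real.log_le_log (by linarith) h2'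
      _ = _ := by rw [Real.log_pow]; norm_num
  have a2 : (n : ℝ) / 2 ≤ n * Real.log 2 - Real.log (n + 1) := by
    have b1 := Real.log_le_sub_one_of_pos (x := ((n : ℝ) + 1) / 16) (by positivity)
    rw [Real.log_div (by positivity) (by norm_num)] at b1
    have b2 : Real.log 16 = 4 * Real.log 2 := by
      rw [show (16 : ℝ) = 2 ^ 4 by norm_num, Real.log_pow]; norm_num
    have b3 := Real.log_two_gt_d9
    have b4 := Real.log_two_lt_d9
    nlinarith
  have a3 := Chebyshev.pi_ge n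
  have a4 : (n : ℝ) / (18 * Real.log R) ≤ Nat.primeCounting n := by
    refine le_trans ?_ a3
    rw [div_le_div_iff₀ (by positivity) hln]
    nlinarith
  have a5 : Nat.primeCounting n ≤
      ((range n).filter (fun q => q.Prime ∧ R < q)).card + (R + 1) + 1 := by
    rw [← Nat.primesLE_card_eq_primeCounting]
    have : Nat.primesLE n ⊆
        ((range n).filter (fun q => q.Prime ∧ R < q) ∪ range (R + 1)) ∪ {n} := by
      intro q hq
      rw [Nat.mem_primesLE] at hq
      simp only [Finset.mem_union, Finset.mem_filter, Finset.mem_range, Finset.mem_singleton,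
        hq.2, true_and]
      omega
    refine (Finset.card_le_card this).trans ((Finset.card_union_le _ _).trans ?_)
    rw [Finset.card_singleton]
    refine Nat.add_le_add_right ((Finset.card_union_le _ _).trans ?_) 1
    rw [Finset.card_range]
  have a5' : (Nat.primeCounting n : ℝ) ≤
      ((range n).filter (fun q => q.Prime ∧ R < q)).card + (R + 1) + 1 := by exact_mod_cast a5
  have a6 : (R : ℝ) + 2 ≤ n / (36 * Real.log R) := by
    rw [le_div_iff₀ (by positivity)]
    have b1 := Real.log_le_sub_one_of_pos (x := (R : ℝ)) (by linarith)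
    have b2 : ((R : ℝ) + 2) * (36 * Real.log R) ≤ (2 * R) * (36 * R) := by
      apply mul_le_mul <;> nlinarith
    have b3 : (256 : ℝ) * R ^ 2 ≤ (R : ℝ) ^ 4 := by
      have : (256 : ℝ) ≤ R ^ 2 := by nlinarith
      calc (256 : ℝ) * R ^ 2 ≤ R ^ 2 * R ^ 2 := by gcongr
        _ = _ := by ring
    nlinarith
  have a7 : (n : ℝ) / (18 * Real.log R) = 2 * (n / (36 * Real.log R)) := by
    field_simp; norm_num
  linarith

end Pool.Agent.Lib.helper22.AP3
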