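import Mathlib

set_option autoImplicit false

open MeasureTheory Module Submodule Metric
open scoped NNReal

namespace Pool.Agent.Lib.helper22.PIT

variable {E : Type*} [NormedAddCommGroup E] [NormedSpace ℝ E] [FiniteDimensional ℝ E]
  [MeasurableSpace E] [BorelSpace E]

lemma measurable_floor {ι : Type*} [Fintype ι] (b : Basis ι ℝ E) :
    Measurable (fun y : E => (ZSpan.floor b y : E)) := by
  have : (fun y : E => (ZSpan.floor b y : E)) = fun y => ∑ i, ((⌊b.repr y i⌋ : ℤ) : ℝ) • b i := by
    funext y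
    simp only [ZSpan.floor, Submodule.coe_sum, Submodule.coe_smul_of_tower,
      Basis.restrictScalars_apply]
    refine Finset.sum_congr rfl fun i _ => ?_
    rw [Int.cast_smul_eq_zsmul]
  rw [this]
  refine Finset.measurable_sum _ fun i _ => ?_
  refine Measurable.smul_const ?_ _
  have h1 : Measurable (fun y : E => b.repr y i) :=
    (LinearMap.continuous_of_finiteDimensional (b.coord i)).measurable
  exact (measurable_of_countable (fun z : ℤ => (z : ℝ))).comp (Int.measurable_floor.comp h1)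

/-- Riemann sums of a Lipschitz function with bounded support over a scaled lattice. -/
theorem riemann_sum (μ : Measure E) [μ.IsAddHaarMeasure] {ι : Type*} [Fintype ι]
    (b : Basis ι ℝ E) (h : E → ℝ) (K : ℝ≥0) (hK : LipschitzWith K h) (R : ℝ) (hR0 : 0 ≤ R)
    (hR : ∀ y, h y ≠ 0 → ‖y‖ ≤ R) :
    ∃ c C : ℝ, ∀ t : ℝ, 1 ≤ t →
      |∑' l : span ℤ (Set.range b), h (t⁻¹ • (l : E)) - c * t ^ finrank ℝ E|
        ≤ C * t ^ finrank ℝ E / t := by
  classical
  set D := ZSpan.fundamentalDomain b with hD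
  set M : ℝ := ∑ i, ‖b i‖ with hM
  have hM0 : 0 ≤ M := Finset.sum_nonneg fun i _ => norm_nonneg _
  have hDfin : μ D ≠ ⊤ := (ZSpan.fundamentalDomain_isBounded b).measure_lt_top.ne
  have hv : 0 < μ.real D :=
    ENNReal.toReal_pos (ZSpan.measure_fundamentalDomain_ne_zero b) hDfin
  set v := μ.real D with hvdef
  refine ⟨(∫ y, h y ∂μ) / v, K * M * ((R + M) ^ finrank ℝ E * μ.real (closedBall 0 1)) / v,
    fun t ht => ?_⟩
  have ht0 : 0 < t := by linarith
  -- bound on h
  have hb : ∀ y, |h y| ≤ |h 0| + K * R := by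
    intro y
    by_cases hy : h y = 0
    · rw [hy, abs_zero]; positivity
    · have h1 := hK.dist_le_mul y 0
      rw [Real.dist_eq, dist_zero_right] at h1
      have h2 := mul_le_mul_of_nonneg_left (hR y hy) K.2
      have h3 := abs_add_le (h y - h 0) (h 0)
      simp only [sub_add_cancel] at h3
      simp only [NNReal.val_eq_coe] at h2
      linarith
  set B := closedBall (0 : E) (t * (R + M)) with hB
  have hBm : MeasurableSet B := measurableSet_closedBall
  have hBfin : μ B ≠ ⊤ := (isCompact_closedBall _ _).measure_lt_top.ne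
  have hfr : ∀ y : E, ‖y - (ZSpan.floor b y : E)‖ ≤ M := fun y => ZSpan.norm_fract_le b y
  have hsupp : ∀ z : E, h (t⁻¹ • z) ≠ 0 → ‖z‖ ≤ t * R := by
    intro z hz
    have := hR _ hz
    rw [norm_smul, Real.norm_eq_abs, abs_of_pos (inv_pos.mpr ht0)] at this
    rwa [inv_mul_le_iff₀ ht0] at this
  have hF0 : ∀ y, y ∉ B → h (t⁻¹ • (ZSpan.floor b y : E)) = 0 := by
    intro y hy
    by_contra hne
    apply hy
    rw [hB, mem_closedBall_zero_iff]
    have h1 := hsupp _ hne
    have h2 := hfr y
    have h3 : ‖y‖ ≤ ‖y - (ZSpan.floor b y : E)‖ + ‖(ZSpan.floor b y : E)‖ := by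
      simpa using norm_add_le (y - (ZSpan.floor b y : E)) (ZSpan.floor b y : E)
    nlinarith
  have hG0 : ∀ y, y ∉ B → h (t⁻¹ • y) = 0 := by
    intro y hy
    by_contra hne
    apply hy
    rw [hB, mem_closedBall_zero_iff]
    have h1 := hsupp _ hne
    nlinarith
  have hint : ∀ g : E → E, Measurable g → (∀ y, y ∉ B → h (t⁻¹ • g y) = 0) →
      Integrable (fun y => h (t⁻¹ • g y)) μ := by
    intro g hg h0
    have hm : Measurable (fun y => h (t⁻¹ • g y)) :=
      hK.continuous.measurable.comp (hg.const_smul t⁻¹)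
    have : IntegrableOn (fun y => h (t⁻¹ • g y)) B μ :=
      Measure.integrableOn_of_bounded (M := |h 0| + K * R) hBfin hm.aestronglyMeasurable
        (Filter.Eventually.of_forall fun y => hb _)
    exact this.integrable_of_forall_notMem_eq_zero h0
  have hF := hint _ (measurable_floor b) hF0
  have hG := hint id measurable_id hG0
  simp only [id] at hG
  -- integral of F
  have e1 : ∫ y, h (t⁻¹ • (ZSpan.floor b y : E)) ∂μ
      = v * ∑' l : span ℤ (Set.range b), h (t⁻¹ • (l : E)) := by
    have : VAddInvariantMeasure (span ℤ (Set.range b)) E μ :=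
      inferInstanceAs (VAddInvariantMeasure (span ℤ (Set.range b)).toAddSubgroup E μ)
    rw [(ZSpan.isAddFundamentalDomain b μ).integral_eq_tsum'' _ hF, ← tsum_mul_left]
    refine tsum_congr fun l => ?_
    rw [setIntegral_congr_fun (ZSpan.fundamentalDomain_measurableSet b)
      (g := fun _ => h (t⁻¹ • (l : E)))]
    · simp [hvdef, hD]
    · intro y hy
      have : (ZSpan.floor b (l +ᵥ y) : E) = l := by
        have h1 : ZSpan.fract b ((l : E) + y) = y := by
          rw [ZSpan.fract_zSpan_add b y l.2, ZSpan.fract_eq_self.mpr hy]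
        rw [ZSpan.fract_apply] at h1
        have h2 : (l +ᵥ y : E) = (l : E) + y := rfl
        rw [h2]
        have h3 : (ZSpan.floor b ((l : E) + y) : E) = ((l : E) + y) - y := by
          rw [eq_sub_iff_add_eq, add_comm, ← eq_sub_iff_add_eq]; exact h1.symm
        rw [h3]; abel
      simp only [this]
  have e2 : ∫ y, h (t⁻¹ • y) ∂μ = t ^ finrank ℝ E * ∫ y, h y ∂μ := by
    rw [Measure.integral_comp_smul, inv_pow, inv_inv, abs_of_pos (pow_pos ht0 _), smul_eq_mul]
  have e3 : |∫ y, (h (t⁻¹ • (ZSpan.floor b y : E)) - h (t⁻¹ • y)) ∂μ|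
      ≤ K * M / t * μ.real B := by
    rw [← setIntegral_eq_integral_of_forall_compl_eq_zero (s := B)
      (fun y hy => by rw [hF0 y hy, hG0 y hy, sub_zero])]
    rw [← Real.norm_eq_abs]
    refine norm_setIntegral_le_of_norm_le_const (lt_top_iff_ne_top.mpr hBfin) fun y _ => ?_
    have h1 := hK.dist_le_mul (t⁻¹ • (ZSpan.floor b y : E)) (t⁻¹ • y)
    rw [Real.dist_eq, dist_eq_norm, ← smul_sub, norm_smul, Real.norm_eq_abs,
      abs_of_pos (inv_pos.mpr ht0), norm_sub_rev] at h1
    rw [Real.norm_eq_abs]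
    refine h1.trans ?_
    rw [mul_div_assoc]
    refine mul_le_mul_of_nonneg_left ?_ K.2
    rw [div_eq_inv_mul]
    exact mul_le_mul_of_nonneg_left (hfr y) (inv_pos.mpr ht0).le
  rw [integral_sub hF hG, e1, e2] at e3
  rw [hB, Measure.addHaar_real_closedBall' μ _ (by positivity), mul_pow] at e3
  have e4 : ∑' l : span ℤ (Set.range b), h (t⁻¹ • (l : E)) - (∫ y, h y ∂μ) / v * t ^ finrank ℝ E
      = (v * ∑' l : span ℤ (Set.range b), h (t⁻¹ • (l : E))
        - t ^ finrank ℝ E * ∫ y, h y ∂μ) / v := by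
    field_simp
  rw [e4, abs_div, abs_of_pos hv, div_le_iff₀ hv]
  refine e3.trans (le_of_eq ?_)
  field_simp

end Pool.Agent.Lib.helper22.PIT
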