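import Pool.Agent.Lib.helper22.Riemann

set_option autoImplicit false

open MeasureTheory Module Submodule Metric NumberField NumberField.InfinitePlace
  NumberField.mixedEmbedding NumberField.Units NumberField.Units.dirichletUnitTheorem
open scoped NNReal

namespace Pool.Agent.Lib.helper22.PIT

/-- tent function -/
noncomputable def tent (x : ℝ) : ℝ := max 0 (1 - |x|)

lemma tent_nonneg (x : ℝ) : 0 ≤ tent x := le_max_left _ _

lemma tent_le_one (x : ℝ) : tent x ≤ 1 := max_le zero_le_one (by linarith [abs_nonneg x])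

lemma tent_eq_zero {x : ℝ} (h : 1 ≤ |x|) : tent x = 0 := max_eq_left (by linarith)

lemma abs_lt_of_tent {x : ℝ} (h : tent x ≠ 0) : |x| < 1 := by
  by_contra h'
  exact h (tent_eq_zero (not_lt.mp h'))

lemma tent_lip (x y : ℝ) : |tent x - tent y| ≤ |x - y| := by
  unfold tent
  refine (abs_max_sub_max_le_max _ _ _ _).trans ?_
  rw [sub_self, abs_zero]
  refine max_le (abs_nonneg _) ?_
  have : 1 - |x| - (1 - |y|) = -(|x| - |y|) := by ring
  rw [this, abs_neg]
  exact abs_abs_sub_abs_le_abs_sub x y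

lemma continuous_tent : Continuous tent := by
  unfold tent; fun_prop

lemma tent_pair (c : ℝ) :
    ∑ k ∈ ({-⌊c⌋ - 1, -⌊c⌋} : Finset ℤ), tent ((k : ℝ) + c) = 1 := by
  rw [Finset.sum_pair (by omega)]
  have h1 := Int.floor_le c
  have h2 := Int.lt_floor_add_one c
  unfold tent
  push_cast
  rw [abs_of_neg (by linarith), abs_of_nonneg (by linarith), max_eq_right (by linarith),
    max_eq_right (by linarith)]
  ring

lemma mem_pair_of_tent {c : ℝ} {k : ℤ} (h : tent ((k : ℝ) + c) ≠ 0) :
    k ∈ ({-⌊c⌋ - 1, -⌊c⌋} : Finset ℤ) := by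
  have h0 := abs_lt.mp (abs_lt_of_tent h)
  have h1 := Int.floor_le c
  have h2 := Int.lt_floor_add_one c
  have h3 : ((k + ⌊c⌋ : ℤ) : ℝ) < 1 := by push_cast; linarith
  have h4 : (-2 : ℝ) < ((k + ⌊c⌋ : ℤ) : ℝ) := by push_cast; linarith
  have h5 : k + ⌊c⌋ < 1 := by exact_mod_cast h3
  have h6 : -2 < k + ⌊c⌋ := by exact_mod_cast h4
  simp only [Finset.mem_insert, Finset.mem_singleton]
  omega

lemma hasSum_prod_tent {ι : Type*} [Fintype ι] (c : ι → ℝ) :
    HasSum (fun k : ι → ℤ => ∏ i, tent ((k i : ℝ) + c i)) 1 := by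
  classical
  have h := Finset.prod_univ_sum (fun i => ({-⌊c i⌋ - 1, -⌊c i⌋} : Finset ℤ))
    (fun i (k : ℤ) => tent ((k : ℝ) + c i))
  simp only [tent_pair, Finset.prod_const_one] at h
  rw [h]
  refine hasSum_sum_of_ne_finset_zero fun k hk => ?_
  by_contra hne
  apply hk
  rw [Fintype.mem_piFinset]
  intro i
  exact mem_pair_of_tent (Finset.prod_ne_zero_iff.mp hne i (Finset.mem_univ i))

lemma abs_prod_sub_prod_le {ι : Type*} (s : Finset ι) (a b : ι → ℝ)
    (ha : ∀ i, 0 ≤ a i ∧ a i ≤ 1) (hb : ∀ i, 0 ≤ b i ∧ b i ≤ 1) :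
    |∏ i ∈ s, a i - ∏ i ∈ s, b i| ≤ ∑ i ∈ s, |a i - b i| := by
  classical
  induction s using Finset.induction_on with
  | empty => simp
  | insert j s hj ih =>
    rw [Finset.prod_insert hj, Finset.prod_insert hj, Finset.sum_insert hj]
    have hA : 0 ≤ ∏ i ∈ s, a i ∧ ∏ i ∈ s, a i ≤ 1 :=
      ⟨Finset.prod_nonneg fun i _ => (ha i).1, Finset.prod_le_one (fun i _ => (ha i).1)
        fun i _ => (ha i).2⟩
    have e : a j * ∏ i ∈ s, a i - b j * ∏ i ∈ s, b i
        = (a j - b j) * ∏ i ∈ s, a i + b j * (∏ i ∈ s, a i - ∏ i ∈ s, b i) := by ring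
    rw [e]
    refine (abs_add_le _ _).trans (add_le_add ?_ ?_)
    · rw [abs_mul, abs_of_nonneg hA.1]
      exact mul_le_of_le_one_right (abs_nonneg _) hA.2
    · rw [abs_mul, abs_of_nonneg (hb j).1]
      exact (mul_le_of_le_one_left (abs_nonneg _) (hb j).2).trans ih

lemma lip_prod_tent {ι : Type*} [Fintype ι] :
    LipschitzWith (Fintype.card ι : ℝ≥0) (fun u : ι → ℝ => ∏ i, tent (u i)) := by
  refine LipschitzWith.of_dist_le_mul fun u v => ?_
  rw [Real.dist_eq]
  refine (abs_prod_sub_prod_le _ _ _ (fun i => ⟨tent_nonneg _, tent_le_one _⟩)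
    (fun i => ⟨tent_nonneg _, tent_le_one _⟩)).trans ?_
  calc ∑ i, |tent (u i) - tent (v i)| ≤ ∑ _i : ι, dist u v := by
        refine Finset.sum_le_sum fun i _ => (tent_lip _ _).trans ?_
        rw [← Real.dist_eq]; exact dist_le_pi_dist u v i
    _ = _ := by simp

lemma abs_log_sub_le {c a b : ℝ} (hc : 0 < c) (ha : c ≤ a) (hb : c ≤ b) :
    |Real.log a - Real.log b| ≤ c⁻¹ * |a - b| := by
  have key : ∀ a b : ℝ, c ≤ a → c ≤ b → Real.log a - Real.log b ≤ c⁻¹ * |a - b| := by
    intro a b ha hb
    have ha0 : 0 < a := by linarith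
    have hb0 : 0 < b := by linarith
    rw [← Real.log_div ha0.ne' hb0.ne']
    refine (Real.log_le_sub_one_of_pos (div_pos ha0 hb0)).trans ?_
    have : a / b - 1 = b⁻¹ * (a - b) := by field_simp
    rw [this]
    calc b⁻¹ * (a - b) ≤ b⁻¹ * |a - b| :=
          mul_le_mul_of_nonneg_left (le_abs_self _) (inv_pos.mpr hb0).le
      _ ≤ c⁻¹ * |a - b| := mul_le_mul_of_nonneg_right (inv_anti₀ hc hb) (abs_nonneg _)
  rw [abs_le]
  constructor
  · have := key b a hb ha
    rw [abs_sub_comm] at this
    linarith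
  · exact key a b ha hb

lemma hasSum_snd {T κ : Type*} [Finite T] {g : κ → ℝ} {s : ℝ} (h1 : HasSum g s)
    (hg : ∀ k, 0 ≤ g k) : HasSum (fun x : T × κ => g x.2) (Nat.card T * s) := by
  have : Fintype T := Fintype.ofFinite _
  have h2 : HasSum (fun _ : T => (1 : ℝ)) (Nat.card T) := by
    have := hasSum_fintype (fun _ : T => (1 : ℝ))
    simpa using this
  have h3 := h2.mul h1 (h2.summable.mul_of_nonneg h1.summable (fun _ => zero_le_one) hg)
  simpa using h3

variable (K : Type*) [Field K] [NumberField K]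

open scoped Classical in
/-- real basis of the logarithmic space given by the fundamental units -/
noncomputable def uB : Basis (Fin (rank K)) ℝ (logSpace K) :=
  (basisUnitLattice K).ofZLatticeBasis ℝ _

open scoped Classical in
/-- coordinates on the full logarithmic space -/
noncomputable def coordL : (InfinitePlace K → ℝ) →ₗ[ℝ] (Option (Fin (rank K)) → ℝ) where
  toFun z := fun j => Option.elim j (∑ w, (mult w : ℝ) * z w) fun i =>
    (uB K).repr (fun w => (mult w.1 : ℝ) * (z w.1 - (∑ w, (mult w : ℝ) * z w)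
      * (finrank ℚ K : ℝ)⁻¹)) i
  map_add' x y := by
    funext j
    cases j with
    | none => simp [mul_add, Finset.sum_add_distrib]
    | some i =>
      simp only [Option.elim, Pi.add_apply]
      rw [← Finsupp.add_apply, ← map_add]
      congr 2
      funext w
      simp only [Pi.add_apply, mul_add, Finset.sum_add_distrib]
      ring
  map_smul' c x := by
    funext j
    cases j with
    | none => simp [Finset.mul_sum, mul_left_comm]
    | some i =>
      simp only [Option.elim, Pi.smul_apply, RingHom.id_apply]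
      rw [← Finsupp.smul_apply, ← map_smul]
      congr 2
      funext w
      simp only [Pi.smul_apply, smul_eq_mul]
      have : ∑ w, (mult w : ℝ) * (c * x w) = c * ∑ w, (mult w : ℝ) * x w := by
        rw [Finset.mul_sum]; exact Finset.sum_congr rfl fun _ _ => by ring
      rw [this]; ring

lemma coordL_ker : LinearMap.ker (coordL K) = ⊥ := by
  classical
  rw [LinearMap.ker_eq_bot']
  intro z hz
  have h0 : ∑ w, (mult w : ℝ) * z w = 0 := congrFun hz none
  have h1 : (fun w : {w : InfinitePlace K // w ≠ w₀} => (mult w.1 : ℝ) * (z w.1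
      - (∑ w, (mult w : ℝ) * z w) * (finrank ℚ K : ℝ)⁻¹)) = 0 := by
    apply (uB K).repr.injective
    ext i
    rw [map_zero]
    exact congrFun hz (some i)
  have h2 : ∀ w, w ≠ w₀ → z w = 0 := by
    intro w hw
    have := congrFun h1 ⟨w, hw⟩
    simpa [h0, mult_ne_zero] using this
  funext w
  by_cases hw : w = w₀
  · rw [Finset.sum_eq_single w (fun w' _ hw' => by rw [h2 w' (hw ▸ hw'), mul_zero])
      (by simp)] at h0
    simpa [mult_ne_zero] using h0
  · exact h2 w hw

open scoped Classical in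
lemma normAtPlace_le_norm (w : InfinitePlace K) (x : mixedSpace K) : normAtPlace w x ≤ ‖x‖ := by
  rw [norm_eq_sup'_normAtPlace]
  exact Finset.le_sup' (fun w => normAtPlace w x) (Finset.mem_univ w)

open scoped Classical in
lemma abs_normAtPlace_sub (w : InfinitePlace K) (x y : mixedSpace K) :
    |normAtPlace w x - normAtPlace w y| ≤ dist x y := by
  have key : ∀ x y : mixedSpace K, normAtPlace w x - normAtPlace w y ≤ dist x y := by
    intro x y
    have h1 := normAtPlace_add_le w (x - y) y
    rw [sub_add_cancel] at h1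
    have h2 := normAtPlace_le_norm K w (x - y)
    rw [dist_eq_norm]; linarith
  rw [abs_le]
  exact ⟨by have := key y x; rw [dist_comm] at this; linarith, key x y⟩

open scoped Classical in
theorem exists_weight : ∃ (h : mixedSpace K → ℝ) (L : ℝ≥0) (R : ℝ), LipschitzWith L h ∧ 0 ≤ R ∧
    (∀ y, h y ≠ 0 → ‖y‖ ≤ R) ∧ h 0 = 0 ∧ ∀ y, mixedEmbedding.norm y ≠ 0 →
      h y = tent (Real.log (mixedEmbedding.norm y)) * ∏ i, tent ((uB K).repr (logMap y) i) := by
  obtain ⟨A, -, hA⟩ := (coordL K).exists_antilipschitzWith (coordL_ker K)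
  set P : (InfinitePlace K → ℝ) → ℝ := fun z => ∏ j, tent (coordL K z j) with hP
  have hPs : ∀ z, P z ≠ 0 → ∀ w, |z w| ≤ A := by
    intro z hz w
    have h1 : ‖coordL K z‖ ≤ 1 := by
      refine (pi_norm_le_iff_of_nonneg zero_le_one).mpr fun j => ?_
      exact (abs_lt_of_tent (Finset.prod_ne_zero_iff.mp hz j (Finset.mem_univ j))).le
    have h2 := hA.le_mul_dist z 0
    rw [map_zero, dist_zero_right, dist_zero_right] at h2
    have h3 : |z w| ≤ ‖z‖ := norm_le_pi_norm z w
    have h4 := mul_le_mul_of_nonneg_left h1 A.2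
    simp only [NNReal.val_eq_coe] at h4
    linarith
  set c0 : ℝ := Real.exp (-(A + 1)) with hc0
  have hc0p : 0 < c0 := Real.exp_pos _
  have hlc0 : Real.log c0 = -(A + 1) := Real.log_exp _
  set ℓ : mixedSpace K → InfinitePlace K → ℝ :=
    fun y w => Real.log (max (normAtPlace w y) c0) with hℓ
  have hℓlip : LipschitzWith (Real.toNNReal c0⁻¹) ℓ := by
    refine LipschitzWith.of_dist_le_mul fun x y => ?_
    rw [Real.coe_toNNReal _ (inv_pos.mpr hc0p).le]
    refine (dist_pi_le_iff (by positivity)).mpr fun w => ?_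
    rw [Real.dist_eq]
    refine (abs_log_sub_le hc0p (le_max_right _ _) (le_max_right _ _)).trans ?_
    refine mul_le_mul_of_nonneg_left ?_ (inv_pos.mpr hc0p).le
    refine (abs_max_sub_max_le_max _ _ _ _).trans ?_
    rw [sub_self, abs_zero]
    exact max_le (abs_normAtPlace_sub K w x y) dist_nonneg
  have hcl := (LinearMap.toContinuousLinearMap (coordL K)).lipschitz
  have hsmall : ∀ y w, normAtPlace w y ≤ c0 → P (ℓ y) = 0 := by
    intro y w hw
    by_contra hne
    have := hPs _ hne w
    simp only [hℓ] at this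
    rw [max_eq_right hw, hlc0, abs_neg, abs_of_nonneg (by positivity)] at this
    linarith
  refine ⟨fun y => P (ℓ y), _, Real.exp A, (lip_prod_tent.comp hcl).comp hℓlip,
    (Real.exp_pos _).le, ?_, ?_, ?_⟩
  · intro y hy
    rw [norm_eq_sup'_normAtPlace]
    refine Finset.sup'_le _ _ fun w _ => ?_
    have h1 := (le_abs_self _).trans (hPs _ hy w)
    simp only [hℓ] at h1
    rw [Real.log_le_iff_le_exp (lt_max_of_lt_right hc0p)] at h1
    exact (le_max_left _ _).trans h1
  · exact hsmall 0 w₀ (by simp [hc0p.le])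
  · intro y hy
    have hy' := mixedEmbedding.norm_ne_zero_iff.mp hy
    have e1 : Real.log (mixedEmbedding.norm y)
        = ∑ w, (mult w : ℝ) * Real.log (normAtPlace w y) := by
      rw [mixedEmbedding.norm_apply, Real.log_prod (fun w _ => pow_ne_zero _ (hy' w))]
      simp
    have e2 : tent (Real.log (mixedEmbedding.norm y)) * ∏ i, tent ((uB K).repr (logMap y) i)
        = P (fun w => Real.log (normAtPlace w y)) := by
      simp only [hP]
      rw [Fintype.prod_option, e1]
      congr 1
      refine Finset.prod_congr rfl fun i _ => ?_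
      congr 1
      change ((uB K).repr _) i = ((uB K).repr _) i
      congr 2
      funext w
      rw [logMap_apply, e1]
    rw [e2]
    by_cases hs : ∃ w, normAtPlace w y ≤ c0
    · obtain ⟨w, hw⟩ := hs
      simp only
      rw [hsmall y w hw]
      by_contra hne
      have h1 := hPs _ (Ne.symm hne) w
      have h2 : 0 < normAtPlace w y := lt_of_le_of_ne (normAtPlace_nonneg w y) (hy' w).symm
      have h3 := Real.log_le_log h2 hw
      have h4 := (abs_le.mp h1).1
      linarith
    · push Not at hs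
      simp only
      congr 1
      funext w
      simp only [hℓ]
      rw [max_eq_left (hs w).le]

lemma uB_repr_unit (ζ : torsion K) (k : Fin (rank K) → ℤ) (i : Fin (rank K)) :
    (uB K).repr (logEmbedding K (Additive.ofMul ((ζ : (𝓞 K)ˣ) * ∏ j, fundSystem K j ^ k j))) i
      = k i := by
  classical
  rw [ofMul_mul, map_add, logEmbedding_eq_zero_iff.mpr ζ.2, zero_add, ofMul_prod, map_sum]
  simp_rw [ofMul_zpow, map_zsmul, logEmbedding_fundSystem]
  have : ∀ j, ((basisUnitLattice K j : unitLattice K) : logSpace K) = uB K j := fun j => by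
    rw [uB, Basis.ofZLatticeBasis_apply]
  simp_rw [this, ← Int.cast_smul_eq_zsmul ℝ]
  rw [Basis.repr_sum_self]

theorem hasSum_units {h : mixedSpace K → ℝ} (hh : ∀ y, mixedEmbedding.norm y ≠ 0 →
      h y = tent (Real.log (mixedEmbedding.norm y)) * ∏ i, tent ((uB K).repr (logMap y) i))
    (y : mixedSpace K) (hy : mixedEmbedding.norm y ≠ 0) :
    HasSum (fun u : (𝓞 K)ˣ => h (u • y))
      (torsionOrder K * tent (Real.log (mixedEmbedding.norm y))) := by
  classical
  let e : torsion K × (Fin (rank K) → ℤ) ≃ (𝓞 K)ˣ := Equiv.ofBijective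
    (fun ζe => ζe.1 * ∏ i, (fundSystem K i) ^ (ζe.2 i)) (by
      constructor
      · intro a b hab
        exact (exist_unique_eq_mul_prod K (a.1 * ∏ i, (fundSystem K i) ^ (a.2 i))).unique rfl hab
      · intro x
        obtain ⟨a, ha, -⟩ := exist_unique_eq_mul_prod K x
        exact ⟨a, ha.symm⟩)
  rw [← e.hasSum_iff]
  have e1 : (fun u : (𝓞 K)ˣ => h (u • y)) ∘ e = fun ζe => tent (Real.log (mixedEmbedding.norm y))
      * ∏ i, tent ((ζe.2 i : ℝ) + (uB K).repr (logMap y) i) := by
    funext ζe
    simp only [Function.comp]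
    rw [hh _ (by rwa [norm_unit_smul]), norm_unit_smul, logMap_unit_smul _ hy]
    congr 1
    refine Finset.prod_congr rfl fun i _ => ?_
    rw [map_add, Finsupp.add_apply]
    congr 2
    exact uB_repr_unit K ζe.1 ζe.2 i
  rw [e1]
  have h1 := (hasSum_prod_tent (fun i => (uB K).repr (logMap y) i)).mul_left
    (tent (Real.log (mixedEmbedding.norm y)))
  rw [mul_one] at h1
  have h3 := hasSum_snd (T := torsion K) h1 (fun k => mul_nonneg (tent_nonneg _)
    (Finset.prod_nonneg fun _ _ => tent_nonneg _))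
  unfold torsionOrder
  exact h3

end Pool.Agent.Lib.helper22.PIT
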