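import Pool.Agent.Lib.helper22.IdealCount

set_option autoImplicit false

open MeasureTheory Set Filter Topology Complex Asymptotics

namespace Pool.Agent.Lib.helper22.PIT

/-- the basic bump -/
noncomputable def bump (t : ℝ) : ℂ := (tent (Real.log t) : ℂ)

lemma bump_eq_zero_of_le {t : ℝ} (h0 : 0 < t) (h : t ≤ Real.exp (-1)) : bump t = 0 := by
  have : Real.log t ≤ -1 := by rwa [Real.log_le_iff_le_exp h0]
  rw [bump, tent_eq_zero (by rw [le_abs]; right; linarith), ofReal_zero]

lemma bump_eq_zero_of_ge {t : ℝ} (h : Real.exp 1 ≤ t) : bump t = 0 := by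
  have h0 : 0 < t := (Real.exp_pos 1).trans_le h
  have : 1 ≤ Real.log t := by rwa [Real.le_log_iff_exp_le h0]
  rw [bump, tent_eq_zero (by rw [le_abs]; left; linarith), ofReal_zero]

lemma continuousOn_bump : ContinuousOn bump (Ioi 0) := by
  unfold bump
  refine continuous_ofReal.comp_continuousOn (continuous_tent.comp_continuousOn ?_)
  exact Real.continuousOn_log.mono fun x hx => ne_of_gt hx

lemma isBigO_of_eventually_zero {l : Filter ℝ} {f : ℝ → ℂ} (g : ℝ → ℝ) (h : ∀ᶠ x in l, f x = 0) :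
    f =O[l] g := (isBigO_zero g l).congr' (h.mono fun _ hx => hx.symm) EventuallyEq.rfl

lemma bump_top (g : ℝ → ℝ) : bump =O[atTop] g :=
  isBigO_of_eventually_zero g ((eventually_ge_atTop _).mono fun _ => bump_eq_zero_of_ge)

lemma ev_small : ∀ᶠ t : ℝ in 𝓝[>] 0, 0 < t ∧ t ≤ Real.exp (-1) := by
  filter_upwards [Ioc_mem_nhdsGT (Real.exp_pos (-1))] with t ht using ht

lemma bump_bot (g : ℝ → ℝ) : bump =O[𝓝[>] 0] g :=
  isBigO_of_eventually_zero g (ev_small.mono fun _ h => bump_eq_zero_of_le h.1 h.2)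

lemma mellinConvergent_bump (s : ℂ) : MellinConvergent bump s :=
  mellinConvergent_of_isBigO_rpow (a := s.re + 1) (b := s.re - 1)
    (continuousOn_bump.locallyIntegrableOn measurableSet_Ioi) (bump_top _) (by linarith)
    (bump_bot _) (by linarith)

lemma mellin_bump {s : ℂ} (hs : s ≠ 0) :
    mellin bump (-s) = (exp s + exp (-s) - 2) / s ^ 2 := by
  have he1 : Real.exp (-1) ≤ 1 := Real.exp_le_one_iff.mpr (by norm_num)
  have he2 : 1 ≤ Real.exp 1 := Real.one_le_exp (by norm_num)
  have he0 := Real.exp_pos (-1)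
  have hder : ∀ (A B : ℂ) (t : ℝ), 0 < t → HasDerivAt
      (fun t : ℝ => (t : ℂ) ^ (-s) * (A + B * (Real.log t : ℂ)))
      ((t : ℂ) ^ (-s - 1) * (-s * (A + B * (Real.log t : ℂ)) + B)) t := by
    intro A B t ht
    have h1 : HasDerivAt (fun t : ℝ => (t : ℂ) ^ (-s)) (-s * (t : ℂ) ^ (-s - 1)) t := by
      have := (Complex.hasStrictDerivAt_cpow_const (x := (t : ℂ)) (c := -s)
        (ofReal_mem_slitPlane.mpr ht)).hasDerivAt
      exact this.comp_ofReal
    have h2 : HasDerivAt (fun t : ℝ => (Real.log t : ℂ)) ((t⁻¹ : ℝ) : ℂ) t :=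
      (Real.hasDerivAt_log ht.ne').ofReal_comp
    have h3 := h1.mul ((h2.const_mul B).const_add A)
    refine h3.congr_deriv ?_
    have ht' : (t : ℂ) ≠ 0 := ofReal_ne_zero.mpr ht.ne'
    rw [cpow_sub _ _ ht', cpow_one]
    push_cast
    field_simp
  have hc : ContinuousOn (fun t : ℝ => (t : ℂ) ^ (-s - 1) • bump t) (Ioi 0) := by
    refine ContinuousOn.mul (fun t ht => ?_) continuousOn_bump
    exact (continuousAt_ofReal_cpow_const _ _ (Or.inr (ne_of_gt ht))).continuousWithinAt
  have hii : ∀ a b : ℝ, 0 < a → a ≤ b →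
      IntervalIntegrable (fun t : ℝ => (t : ℂ) ^ (-s - 1) • bump t) volume a b := by
    intro a b ha hab
    refine (hc.mono ?_).intervalIntegrable
    rw [uIcc_of_le hab]
    exact fun x hx => ha.trans_le hx.1
  have e1 : mellin bump (-s)
      = ∫ t in (Real.exp (-1))..(Real.exp 1), (t : ℂ) ^ (-s - 1) • bump t := by
    rw [mellin, intervalIntegral.integral_of_le (he1.trans he2)]
    refine setIntegral_eq_of_subset_of_forall_sdiff_eq_zero measurableSet_Ioi
      (fun x hx => he0.trans hx.1) fun x hx => ?_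
    have : bump x = 0 := by
      by_cases h : x ≤ Real.exp (-1)
      · exact bump_eq_zero_of_le hx.1 h
      · refine bump_eq_zero_of_ge ?_
        by_contra h'
        exact hx.2 ⟨not_le.mp h, (not_le.mp h').le⟩
    rw [this, smul_zero]
  have hexp : ∀ (x : ℝ) (z : ℂ), ((Real.exp x : ℝ) : ℂ) ^ z = exp (x * z) := by
    intro x z
    rw [cpow_def_of_ne_zero (ofReal_ne_zero.mpr (Real.exp_pos x).ne'),
      ← ofReal_log (Real.exp_pos x).le, Real.log_exp]
  have i1 : ∫ t in (Real.exp (-1))..1, (t : ℂ) ^ (-s - 1) • bump t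
      = -1 / s ^ 2 - 1 / s + exp s / s ^ 2 := by
    rw [intervalIntegral.integral_eq_sub_of_hasDerivAt (f := fun t : ℝ =>
      (t : ℂ) ^ (-s) * ((-1 / s ^ 2 - 1 / s) + (-1 / s) * (Real.log t : ℂ))) ?_ (hii _ _ he0 he1)]
    · rw [Real.log_exp, Real.log_one, hexp]
      push_cast
      rw [one_cpow]
      field_simp
      ring_nf
    · intro t ht
      rw [uIcc_of_le he1] at ht
      have ht0 := he0.trans_le ht.1
      refine (hder _ _ t ht0).congr_deriv ?_
      have h1 : Real.log t ≤ 0 := Real.log_nonpos ht0.le ht.2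
      have h2 : -1 ≤ Real.log t := by rw [Real.le_log_iff_exp_le ht0]; exact ht.1
      rw [smul_eq_mul, bump, tent, abs_of_nonpos h1, max_eq_right (by linarith)]
      push_cast
      field_simp
      ring
  have i2 : ∫ t in (1 : ℝ)..(Real.exp 1), (t : ℂ) ^ (-s - 1) • bump t
      = exp (-s) / s ^ 2 - 1 / s ^ 2 + 1 / s := by
    rw [intervalIntegral.integral_eq_sub_of_hasDerivAt (f := fun t : ℝ =>
      (t : ℂ) ^ (-s) * ((1 / s ^ 2 - 1 / s) + (1 / s) * (Real.log t : ℂ))) ?_
        (hii _ _ one_pos he2)]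
    · rw [Real.log_exp, Real.log_one, hexp]
      push_cast
      rw [one_cpow]
      field_simp
      ring_nf
    · intro t ht
      rw [uIcc_of_le he2] at ht
      have ht0 := one_pos.trans_le ht.1
      refine (hder _ _ t ht0).congr_deriv ?_
      have h1 : 0 ≤ Real.log t := Real.log_nonneg ht.1
      have h2 : Real.log t ≤ 1 := by rw [Real.log_le_iff_le_exp ht0]; exact ht.2
      rw [smul_eq_mul, bump, tent, abs_of_nonneg h1, max_eq_right (by linarith)]
      push_cast
      field_simp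
      ring
  rw [e1, ← intervalIntegral.integral_add_adjacent_intervals (hii _ _ he0 he1)
    (hii _ _ one_pos he2), i1, i2]
  field_simp
  ring

lemma exp_add_exp_ne {s : ℂ} (hs : 0 < s.re) : exp s + exp (-s) - 2 ≠ 0 := by
  intro h
  have h1 : (exp s - 1) ^ 2 = exp s * (exp s + exp (-s) - 2) := by
    rw [Complex.exp_neg]
    have := exp_ne_zero s
    field_simp
    ring
  rw [h, mul_zero, pow_eq_zero_iff two_ne_zero, sub_eq_zero] at h1
  have h2 := congrArg norm h1
  rw [norm_exp, norm_one, Real.exp_eq_one_iff] at h2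
  linarith

lemma wt_eq {X : ℝ} (hX : 0 < X) {m : ℕ} (hm : m ≠ 0) : (wt X m : ℂ) = bump (X * (m : ℝ)⁻¹) := by
  have hm' : (0 : ℝ) < m := Nat.cast_pos.mpr (Nat.pos_of_ne_zero hm)
  rw [wt, if_neg hm, bump]
  congr 1
  have : Real.log (m / X) = -Real.log (X * (m : ℝ)⁻¹) := by
    rw [← Real.log_inv]; congr 1; field_simp
  rw [this, tent, tent, abs_neg]

lemma wt_eq_zero {X : ℝ} (hX : 0 < X) {m : ℕ} (hm : Real.exp 1 * X ≤ m) : wt X m = 0 := by
  unfold wt
  split_ifs with h
  · rfl
  · have : 1 ≤ Real.log (m / X) := by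
      rw [Real.le_log_iff_exp_le (div_pos (Nat.cast_pos.mpr (Nat.pos_of_ne_zero h)) hX),
        le_div_iff₀ hX]
      exact hm
    exact tent_eq_zero (this.trans (le_abs_self _))

lemma wt_nonneg (X : ℝ) (m : ℕ) : 0 ≤ wt X m := by
  unfold wt; split_ifs
  · rfl
  · exact tent_nonneg _

lemma continuousOn_wt (m : ℕ) : ContinuousOn (fun X => wt X m) (Ioi 0) := by
  unfold wt
  split_ifs with h
  · exact continuousOn_const
  · refine continuous_tent.comp_continuousOn (ContinuousOn.log ?_ fun X hX => ?_)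
    · exact continuousOn_const.div continuousOn_id fun X hX => ne_of_gt hX
    · exact div_ne_zero (Nat.cast_ne_zero.mpr h) (ne_of_gt hX)

lemma continuousOn_Z (a : ℕ → ℝ) : ContinuousOn (fun X => ∑' m, a m * wt X m) (Ioi 0) := by
  intro x hx
  have hx0 : 0 < x := hx
  obtain ⟨N, hN⟩ := exists_nat_ge (Real.exp 1 * (x + 1))
  have h1 : ContinuousWithinAt (fun X => ∑ m ∈ Finset.range N, a m * wt X m) (Ioi 0) x :=
    (continuousOn_finsetSum _ fun m _ => continuousOn_const.mul (continuousOn_wt m)) x hx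
  have h2 : ∀ X, 0 < X → X < x + 1 →
      ∑' m, a m * wt X m = ∑ m ∈ Finset.range N, a m * wt X m := by
    intro X h0 h1
    refine tsum_eq_sum fun m hm => ?_
    rw [Finset.mem_range, not_lt] at hm
    have : (N : ℝ) ≤ m := Nat.cast_le.mpr hm
    rw [wt_eq_zero h0 (by nlinarith [Real.exp_pos 1]), mul_zero]
  refine h1.congr_of_eventuallyEq ?_ (h2 x hx0 (by linarith))
  filter_upwards [self_mem_nhdsWithin, nhdsWithin_le_nhds (Iio_mem_nhds (lt_add_one x))]
    with X h0 h1 using h2 X h0 h1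

lemma hasMellin_Z (a : ℕ → ℝ) (ha : ∀ n, 0 ≤ a n)
    (hsum : ∀ s : ℂ, 1 < s.re → LSeriesSummable (fun n => (a n : ℂ)) s) {s : ℂ} (hs : 1 < s.re) :
    mellin (fun X => ((∑' m, a m * wt X m : ℝ) : ℂ)) (-s)
      = LSeries (fun n => (a n : ℂ)) s * mellin bump (-s) := by
  have key : ∀ (s : ℂ) (m : ℕ), MellinConvergent (fun X => ((a m * wt X m : ℝ) : ℂ)) (-s) ∧
      mellin (fun X => ((a m * wt X m : ℝ) : ℂ)) (-s)
        = LSeries.term (fun n => (a n : ℂ)) s m * mellin bump (-s) := by
    intro s m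
    by_cases hm : m = 0
    · subst hm
      simp [wt, MellinConvergent, mellin]
    · have hm' : (0 : ℝ) < m := Nat.cast_pos.mpr (Nat.pos_of_ne_zero hm)
      have h1 := (MellinConvergent.comp_mul_left (inv_pos.mpr hm')).mpr (mellinConvergent_bump (-s))
      simp only [mul_comm (m : ℝ)⁻¹] at h1
      have h2 := hasMellin_const_smul h1 (a m : ℂ)
      have h3 : EqOn (fun X : ℝ => (X : ℂ) ^ (-s - 1) • ((a m * wt X m : ℝ) : ℂ))
          (fun X : ℝ => (X : ℂ) ^ (-s - 1) • ((a m : ℂ) • bump (X * (m : ℝ)⁻¹))) (Ioi 0) := by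
        intro X hX
        simp only
        rw [ofReal_mul, wt_eq hX hm, smul_eq_mul (a m : ℂ)]
      refine ⟨h2.1.congr_fun h3.symm measurableSet_Ioi, ?_⟩
      rw [mellin, setIntegral_congr_fun measurableSet_Ioi h3, ← mellin, h2.2,
        mellin_comp_mul_right _ _ (inv_pos.mpr hm'), LSeries.term_of_ne_zero hm, neg_neg,
        ofReal_inv, ofReal_natCast, inv_cpow _ _ (by rw [natCast_arg]; exact Real.pi_ne_zero.symm)]
      simp only [smul_eq_mul]
      ring
  have hnorm : ∀ m : ℕ, ((∫ X in Ioi (0 : ℝ), ‖(X : ℂ) ^ (-s - 1) • ((a m * wt X m : ℝ) : ℂ)‖ : ℝ) : ℂ)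
      = LSeries.term (fun n => (a n : ℂ)) s.re m * mellin bump (-(s.re : ℂ)) := by
    intro m
    rw [← (key _ m).2, mellin, ← integral_complex_ofReal]
    refine setIntegral_congr_fun measurableSet_Ioi fun X hX => ?_
    have hX0 : 0 < X := hX
    simp only [smul_eq_mul]
    rw [norm_mul, norm_cpow_eq_rpow_re_of_pos hX0, norm_real,
      Real.norm_of_nonneg (mul_nonneg (ha m) (wt_nonneg _ _)), ofReal_mul, ofReal_cpow hX0.le]
    simp
  have hs2 : Summable fun m : ℕ =>
      ∫ X in Ioi (0 : ℝ), ‖(X : ℂ) ^ (-s - 1) • ((a m * wt X m : ℝ) : ℂ)‖ := by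
    rw [← summable_ofReal]
    simp only [hnorm]
    exact (hsum _ (by simpa using hs)).mul_right _
  have h := hasSum_integral_of_summable_integral_norm (μ := volume.restrict (Ioi 0))
    (F := fun m (X : ℝ) => (X : ℂ) ^ (-s - 1) • ((a m * wt X m : ℝ) : ℂ)) (fun m => (key s m).1) hs2
  have h' : HasSum (fun m => LSeries.term (fun n => (a n : ℂ)) s m * mellin bump (-s))
      (LSeries (fun n => (a n : ℂ)) s * mellin bump (-s)) := (hsum s hs).hasSum.mul_right _
  refine HasSum.unique ?_ h'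
  simp only [← (key s _).2]
  have e : mellin (fun X => ((∑' m, a m * wt X m : ℝ) : ℂ)) (-s) = ∫ X in Ioi (0 : ℝ),
      ∑' m, (X : ℂ) ^ (-s - 1) • ((a m * wt X m : ℝ) : ℂ) := by
    rw [mellin]
    refine setIntegral_congr_fun measurableSet_Ioi fun X _ => ?_
    simp only [smul_eq_mul]
    rw [tsum_mul_left, ofReal_tsum]
  rw [e]
  exact h

theorem ext_of_smooth (a : ℕ → ℝ) (ha : ∀ n, 0 ≤ a n)
    (hsum : ∀ s : ℂ, 1 < s.re → LSeriesSummable (fun n => (a n : ℂ)) s) (c C θ : ℝ) (hθ : θ < 1)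
    (hZ : ∀ X : ℝ, 1 ≤ X → |∑' m : ℕ, a m * wt X m - c * X| ≤ C * X ^ θ) :
    ∃ θ' : ℝ, θ' < 1 ∧ ∃ H : ℂ → ℂ, DifferentiableOn ℂ H {s | θ' < s.re} ∧
      ∀ s : ℂ, 1 < s.re → H s = (s - 1) * LSeries (fun n => (a n : ℂ)) s := by
  set Z : ℝ → ℂ := fun X => ((∑' m, a m * wt X m : ℝ) : ℂ) with hZdef
  set P : ℝ → ℂ := indicator (Ioi 1) (fun X => (c : ℂ) * X) with hP
  have hZc : ContinuousOn Z (Ioi 0) := continuous_ofReal.comp_continuousOn (continuousOn_Z a)
  have hPi : LocallyIntegrableOn P (Ioi 0) := by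
    refine LocallyIntegrable.locallyIntegrableOn ?_ _
    exact LocallyIntegrable.indicator (Continuous.locallyIntegrable (by fun_prop)) measurableSet_Ioi
  have hEi : LocallyIntegrableOn (fun X => Z X - P X) (Ioi 0) :=
    (hZc.locallyIntegrableOn measurableSet_Ioi).sub hPi
  have hEtop : (fun X => Z X - P X) =O[atTop] (· ^ (-(-θ))) := by
    refine IsBigO.of_bound C ?_
    filter_upwards [eventually_gt_atTop 1] with X hX
    rw [hP, indicator_of_mem (show X ∈ Ioi (1 : ℝ) from hX), neg_neg, ← ofReal_mul, hZdef]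
    simp only
    rw [← ofReal_sub, norm_real, Real.norm_eq_abs,
      Real.norm_of_nonneg (Real.rpow_nonneg (by linarith) _)]
    exact hZ X hX.le
  have hEbot : ∀ g : ℝ → ℝ, (fun X => Z X - P X) =O[𝓝[>] 0] g := by
    intro g
    refine isBigO_of_eventually_zero g (ev_small.mono fun X hX => ?_)
    have h1 : X ≤ 1 := hX.2.trans (Real.exp_le_one_iff.mpr (by norm_num))
    rw [hP, indicator_of_notMem (show X ∉ Ioi (1 : ℝ) from not_lt.mpr h1), sub_zero, hZdef]
    simp only [ofReal_eq_zero]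
    have : ∀ m : ℕ, a m * wt X m = 0 := by
      intro m
      by_cases hm : m = 0
      · simp [wt, hm]
      · rw [wt_eq_zero hX.1, mul_zero]
        have h2 : (1 : ℝ) ≤ m := Nat.one_le_cast.mpr (Nat.pos_of_ne_zero hm)
        have h3 : Real.exp 1 * Real.exp (-1) = 1 := by rw [← Real.exp_add]; simp
        nlinarith [Real.exp_pos 1, hX.2]
    simp [this]
  refine ⟨max θ 0, max_lt hθ one_pos, fun s => ((s - 1) * mellin (fun X => Z X - P X) (-s) + c)
    * s ^ 2 / (exp s + exp (-s) - 2), fun s hs => ?_, fun s hs => ?_⟩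
  · have hs1 : θ < s.re := (le_max_left _ _).trans_lt hs
    have hs2 : 0 < s.re := (le_max_right _ _).trans_lt hs
    have h1 : DifferentiableAt ℂ (mellin (fun X => Z X - P X)) (-s) :=
      mellin_differentiableAt_of_isBigO_rpow (b := -s.re - 1) hEi hEtop (by simpa using hs1)
        (hEbot _) (by simp)
    have h2 : DifferentiableAt ℂ (fun s => mellin (fun X => Z X - P X) (-s)) s :=
      h1.comp s differentiableAt_id.neg
    refine DifferentiableAt.differentiableWithinAt ?_
    exact DifferentiableAt.div (by fun_prop) (by fun_prop) (exp_add_exp_ne hs2)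
  · have hs0 : s ≠ 0 := by rintro rfl; simp at hs; linarith
    have hs1 : s - 1 ≠ 0 := by
      intro h; rw [sub_eq_zero] at h; rw [h] at hs; simp at hs
    have hEc : MellinConvergent (fun X => Z X - P X) (-s) :=
      mellinConvergent_of_isBigO_rpow (b := -s.re - 1) hEi hEtop (by simp; linarith)
        (hEbot _) (by simp)
    have hfun : (fun X : ℝ => (X : ℂ) ^ (-s - 1) • P X)
        = indicator (Ioi 1) (fun X : ℝ => (c : ℂ) * (X : ℂ) ^ (-s)) := by
      funext X
      by_cases hX : X ∈ Ioi (1 : ℝ)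
      · have hX0 : (X : ℂ) ≠ 0 := ofReal_ne_zero.mpr (by linarith [mem_Ioi.mp hX])
        rw [hP, indicator_of_mem hX, indicator_of_mem hX, cpow_sub _ _ hX0, cpow_one, smul_eq_mul]
        field_simp
      · rw [hP, indicator_of_notMem hX, indicator_of_notMem hX, smul_zero]
    have hre : (-s).re < -1 := by simpa using hs
    have hPc : MellinConvergent P (-s) := by
      rw [MellinConvergent, hfun]
      refine Integrable.integrableOn ?_
      rw [integrable_indicator_iff measurableSet_Ioi]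
      exact (integrableOn_Ioi_cpow_of_lt hre one_pos).const_mul _
    have hPm : mellin P (-s) = c / (s - 1) := by
      rw [mellin, hfun, setIntegral_indicator measurableSet_Ioi, Ioi_inter_Ioi,
        max_eq_right zero_le_one, integral_const_mul, integral_Ioi_cpow_of_lt hre one_pos]
      simp only [ofReal_one, one_cpow]
      have : -s + 1 ≠ 0 := by intro h; apply hs1; linear_combination -h
      field_simp
      ring
    have h1 := (hasMellin_add hEc hPc).2
    simp only [sub_add_cancel] at h1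
    have h2 := hasMellin_Z a ha hsum hs
    rw [mellin_bump hs0] at h2
    have h3 := exp_add_exp_ne (s := s) (by linarith)
    have h4 : mellin (fun X => Z X - P X) (-s)
        = LSeries (fun n => (a n : ℂ)) s * ((exp s + exp (-s) - 2) / s ^ 2) - c / (s - 1) := by
      rw [← h2, ← hPm, eq_sub_iff_add_eq, ← h1]
    simp only
    rw [h4]
    field_simp
    ring

end Pool.Agent.Lib.helper22.PIT
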